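import Pool.Agent.Q51.ZC.KZer3

/-! # Project ZC: adelic points over number fields, and orthogonality to the constant classes; definitions -/

set_option autoImplicit false

namespace Pool.Agent.Q51.ZC

open Polynomial Finset TensorProduct
open Pool.Agent.Q51.SE (polOver polNorm ClassCharacter LocalCharacter count)

/-- An adelic point of `(C_D)_K`, without its components at the infinite places. -/
abbrev AdelicPointOver (a b : ℤ) (n m : ℕ) (D : ℤ) (K : Type) [Field K] [NumberField K] : Type :=
  ∀ (p : Nat.Primes) (v : PlacesAbove K p), CPoint a b n m D (Kv K p v)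

/-- A family of zero-cycles of `C_D` over the completions of `K` at its finite places. -/
abbrev FamilyOver (a b : ℤ) (n m : ℕ) (D : ℤ) (K : Type) [Field K] [NumberField K] : Type 1 :=
  ∀ (p : Nat.Primes) (v : PlacesAbove K p), ZeroCycleOver a b n m D K p v

section

variable {a b : ℤ} {n m : ℕ} {D : ℤ} {K : Type} [Field K] [NumberField K] {p : Nat.Primes}
  {v : PlacesAbove K p}

/-- The closed point of degree one given by a point over `K_v`. -/
noncomputable def rationalPoint (P : CPoint a b n m D (Kv K p v)) :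
    ClosedPointOver a b n m D K p v where
  M := Kv K p v
  point := P

/-- The adelic point is orthogonal to the restrictions of all classes `A_χ` to `(C_D)_K`. -/
def AdelicPointOver.Orthogonal (P : AdelicPointOver a b n m D K) (q : ℕ) : Prop :=
  ∀ χ : ClassCharacter (fq a b q) q,
    ∑ᶠ p : Nat.Primes, ∑ᶠ v : PlacesAbove K p, (rationalPoint (P p v)).inv χ = 0

/-- The family of zero-cycles is orthogonal to the restrictions of all classes `A_χ` to `(C_D)_K`. -/
def FamilyOver.Orthogonal (z : FamilyOver a b n m D K) (q : ℕ) : Prop :=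
  ∀ χ : ClassCharacter (fq a b q) q,
    ∑ᶠ p : Nat.Primes, ∑ᶠ v : PlacesAbove K p, (z p v).inv χ = 0

/-- The family of zero-cycles is orthogonal to the classes of order `q` of `Br(K)`: such a class is given by local
invariants `c_v ∈ ℤ/q`, almost all of them zero, with sum zero (there are no conditions at the real places, `q` is
odd), and its value at the family is `∑ c_v deg z_v`. -/
def FamilyOver.OrthogonalToConstants (z : FamilyOver a b n m D K) (q : ℕ) : Prop :=
  ∀ c : (Σ p : Nat.Primes, PlacesAbove K p) →₀ ZMod q, (c.sum fun _ t => t) = 0 →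
    (c.sum fun x t => t * ((z x.1 x.2).degree : ZMod q)) = 0

end

/-- For some prime factor `q` of `m` and some number field `K` of a degree prime to `q` there is an adelic point of
`(C_D)_K` which is orthogonal to all `A_χ`. -/
def HasOrthogonalPoint (a b : ℤ) (n m : ℕ) (D : ℤ) : Prop :=
  ∃ q : ℕ, q.Prime ∧ q ∣ m ∧ ∃ (K : Type) (_ : Field K) (_ : NumberField K),
    ¬ q ∣ Module.finrank ℚ K ∧ ∃ P : AdelicPointOver a b n m D K, P.Orthogonal q

/-- For some prime factor `q` of `m` and some number field `K` of a degree prime to `q` there is a point of `C_D`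
over `K`. -/
def HasPoint (a b : ℤ) (n m : ℕ) (D : ℤ) : Prop :=
  ∃ q : ℕ, q.Prime ∧ q ∣ m ∧ ∃ (K : Type) (_ : Field K) (_ : NumberField K),
    ¬ q ∣ Module.finrank ℚ K ∧ Nonempty (CPoint a b n m D K)

/-- For some prime factor `q` of `m` and some number field `K` of a degree prime to `q` there is a family of
zero-cycles over the completions of `K` which is orthogonal to `Br(K)[q]` and to all `A_χ`, and which has a
component of a degree not divisible by `q`. -/
def KernelDegreeNotDivisible (a b : ℤ) (n m : ℕ) (D : ℤ) : Prop :=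
  ∃ q : ℕ, q.Prime ∧ q ∣ m ∧ ∃ (K : Type) (_ : Field K) (_ : NumberField K),
    ¬ q ∣ Module.finrank ℚ K ∧ ∃ z : FamilyOver a b n m D K, z.OrthogonalToConstants q ∧
      z.Orthogonal q ∧ ∃ p v, ¬ (q : ℤ) ∣ (z p v).degree

/-- For some prime factor `q` of `m` and some number field `K` of a degree prime to `q` there is a closed point of
`(C_D)_K` of a degree not divisible by `q`: a point over a finite extension `M` of `K` of a degree prime to
`q`. -/
def ClosedDegreeNotDivisible (a b : ℤ) (n m : ℕ) (D : ℤ) : Prop :=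
  ∃ q : ℕ, q.Prime ∧ q ∣ m ∧ ∃ (K : Type) (_ : Field K) (_ : NumberField K),
    ¬ q ∣ Module.finrank ℚ K ∧ ∃ (M : Type) (_ : Field M) (_ : NumberField M) (_ : Algebra K M),
      ¬ q ∣ Module.finrank K M ∧ Nonempty (CPoint a b n m D M)

/-- The number of the squarefree `D` with `|D| ≤ X` for which `C_D` is everywhere locally soluble, but `(C_D)_K` has
a point or an adelic point orthogonal to all `A_χ`, for some number field `K` of a degree prime to a prime factor
`q` of `m`. -/
noncomputable def numPoints (a b : ℤ) (n m : ℕ) (X : ℝ) : ℝ :=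
  count (fun D => Soluble a b n m D ∧ (HasPoint a b n m D ∨ HasOrthogonalPoint a b n m D)) X

/-- The number of the squarefree `D` with `|D| ≤ X` for which `C_D` is everywhere locally soluble, but there is a
closed point of `(C_D)_K`, or a family of local zero-cycles in the kernel of the pairing with `Br(K)[q]` and the
`A_χ`, of a degree not divisible by `q`, for some number field `K` of a degree prime to a prime factor `q` of `m`. -/
noncomputable def numDegrees (a b : ℤ) (n m : ℕ) (X : ℝ) : ℝ :=
  count (fun D => Soluble a b n m D ∧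
    (ClosedDegreeNotDivisible a b n m D ∨ KernelDegreeNotDivisible a b n m D)) X

section

variable {a b : ℤ} {n m : ℕ} {D : ℤ}

lemma rationalPoint_degree {K : Type} [Field K] [NumberField K] {p : Nat.Primes}
    {v : PlacesAbove K p} (P : CPoint a b n m D (Kv K p v)) : (rationalPoint P).degree = 1 :=
  Module.finrank_self _

lemma unob_of_point (h : HasOrthogonalPoint a b n m D) : Unobstructed a b n m D := by
  obtain ⟨q, hq, hqm, K, hK, hKn, hd, P, hP⟩ := h
  refine ⟨q, hq, hqm, K, hK, hKn, hd, 1, ?_, fun p v => [(1, rationalPoint (P p v))],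
    fun p v => ?_, fun χ => ?_⟩
  · intro h1
    exact hq.one_lt.ne' (by
      have := Int.natAbs_dvd_natAbs.mpr h1
      simpa using this)
  · unfold ZeroCycleOver.degree
    simp [rationalPoint_degree]
  · refine Eq.trans (finsum_congr fun p => finsum_congr fun v => ?_) (hP χ)
    unfold ZeroCycleOver.inv
    simp

lemma index_of_point (h : HasPoint a b n m D) : IndexNotDivisible a b n m D := by
  obtain ⟨q, hq, hqm, K, hK, hKn, hd, hP⟩ := h
  exact ⟨K, hK, hKn, hP, q, hq, hqm, hd⟩

lemma index_of_closed (h : ClosedDegreeNotDivisible a b n m D) : IndexNotDivisible a b n m D := by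
  obtain ⟨q, hq, hqm, K, hK, hKn, hd, M, hM, hMn, hKM, hd2, hP⟩ := h
  refine ⟨M, hM, hMn, hP, q, hq, hqm, ?_⟩
  rw [← Module.finrank_mul_finrank ℚ K M]
  intro h1
  rcases hq.dvd_mul.mp h1 with h2 | h2
  · exact hd h2
  · exact hd2 h2

lemma unob_of_kernel (h : KernelDegreeNotDivisible a b n m D) : Unobstructed a b n m D := by
  obtain ⟨q, hq, hqm, K, hK, hKn, hd, z, hz1, hz2, p, v, hpv⟩ := h
  refine ⟨q, hq, hqm, K, hK, hKn, hd, (z p v).degree, hpv, z, fun p' v' => ?_, hz2⟩
  have h1 := hz1 (Finsupp.single ⟨p', v'⟩ 1 - Finsupp.single ⟨p, v⟩ 1) (by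
    rw [Finsupp.sum_sub_index (fun _ _ _ => rfl), Finsupp.sum_single_index rfl,
      Finsupp.sum_single_index rfl, sub_self])
  rw [Finsupp.sum_sub_index (fun _ _ _ => sub_mul _ _ _), Finsupp.sum_single_index (zero_mul _),
    Finsupp.sum_single_index (zero_mul _), one_mul, one_mul] at h1
  rw [← ZMod.intCast_zmod_eq_zero_iff_dvd]
  push_cast
  exact h1

theorem main_points (hn : Odd n) (hm : 1 < m) (hmn : m ∣ n)
    (hirr : Irreducible (C (a : ℚ) * X ^ n + C (b : ℚ))) :
    ∃ δ C : ℝ, 0 < δ ∧ ∀ X : ℝ, 3 ≤ X →
      numPoints a b n m X ≤ C * Real.log X ^ (-δ) * numLocSoluble a b n m X := by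
  obtain ⟨δ, C, hδ, h2⟩ := main_over hn hm hmn hirr
  refine ⟨δ, C, hδ, fun X hX => le_trans ?_ (h2 X hX)⟩
  unfold numPoints numExceptional
  exact_mod_cast count_mono (fun D hD h => by
    refine ⟨h.1, ?_⟩
    rcases h.2 with h | h
    · exact Or.inr (Or.inr (index_of_point h))
    · exact Or.inr (Or.inl (unob_of_point h))) X

theorem main_degrees (hn : Odd n) (hm : 1 < m) (hmn : m ∣ n)
    (hirr : Irreducible (C (a : ℚ) * X ^ n + C (b : ℚ))) :
    ∃ δ C : ℝ, 0 < δ ∧ ∀ X : ℝ, 3 ≤ X →
      numDegrees a b n m X ≤ C * Real.log X ^ (-δ) * numLocSoluble a b n m X := by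
  obtain ⟨δ, C, hδ, h2⟩ := main_over hn hm hmn hirr
  refine ⟨δ, C, hδ, fun X hX => le_trans ?_ (h2 X hX)⟩
  unfold numDegrees numExceptional
  exact_mod_cast count_mono (fun D hD h => by
    refine ⟨h.1, ?_⟩
    rcases h.2 with h | h
    · exact Or.inr (Or.inr (index_of_closed h))
    · exact Or.inr (Or.inl (unob_of_kernel h))) X

end

end Pool.Agent.Q51.ZC
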