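import Pool.Agent.Q51.ZC.KZer4

/-! # Project ZC: the points over a number field are orthogonal adelic points -/

set_option autoImplicit false

namespace Pool.Agent.Q51.ZC

open Polynomial Finset TensorProduct
open Pool.Agent.Q51.SE (polOver polNorm ClassCharacter LocalCharacter count Alg cl Point IsValue
  IsUnitAt IdeleCharacter hom unit_iff mk_rep rep val_iff mpow ofHom ofHom_val fin_conv)
open Pool.Agent.Q150.ZC (chg chg_cl mpt val_chg ev_inj ev_chg Fld)

/-- The embedding of `K` in its completion `K_v`. -/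
noncomputable def toKv (K : Type) [Field K] [NumberField K] (p : Nat.Primes)
    (v : PlacesAbove K p) : K →+* Kv K p v :=
  (mkKv K p v).comp (Algebra.TensorProduct.includeRight : K →ₐ[ℚ] QpK K p).toRingHom

/-- The adelic point given by a point over `K`. -/
noncomputable def CPoint.adelic {a b : ℤ} {n m : ℕ} {D : ℤ} {K : Type} [Field K] [NumberField K]
    (P : CPoint a b n m D K) : AdelicPointOver a b n m D K :=
  fun p v => P.map (toKv K p v)

section

variable {K : Type} [Field K] [NumberField K] {p : Nat.Primes}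

lemma mkKv_alg (v : PlacesAbove K p) (r : ℚ_[(p : ℕ)]) :
    mkKv K p v (algebraMap ℚ_[(p : ℕ)] (QpK K p) r) = algebraMap ℚ_[(p : ℕ)] (Kv K p v) r := rfl

/-- the homomorphism of `ℚ_p ⊗ K` -/
noncomputable def tauHom {v : PlacesAbove K p} (τ : Kv K p v →ₐ[ℚ_[(p : ℕ)]] Om (p : ℕ)) :
    QpK K p →ₐ[ℚ_[(p : ℕ)]] Om (p : ℕ) :=
  { (τ : Kv K p v →+* Om (p : ℕ)).comp (mkKv K p v) with
    commutes' := fun r => by
      show τ (mkKv K p v (algebraMap ℚ_[(p : ℕ)] (QpK K p) r)) = _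
      rw [mkKv_alg, AlgHom.commutes] }

lemma tauHom_apply {v : PlacesAbove K p} (τ : Kv K p v →ₐ[ℚ_[(p : ℕ)]] Om (p : ℕ)) (x : QpK K p) :
    tauHom τ x = τ (mkKv K p v x) := rfl

lemma ker_tauHom {v : PlacesAbove K p} (τ : Kv K p v →ₐ[ℚ_[(p : ℕ)]] Om (p : ℕ)) :
    RingHom.ker (tauHom τ) = v.ideal := by
  ext x
  rw [RingHom.mem_ker, tauHom_apply, map_eq_zero_iff τ τ.toRingHom.injective, mkKv_zero]

lemma tauHom_ext {v v' : PlacesAbove K p} (τ : Kv K p v →ₐ[ℚ_[(p : ℕ)]] Om (p : ℕ))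
    (τ' : Kv K p v' →ₐ[ℚ_[(p : ℕ)]] Om (p : ℕ))
    (h : (τ : Kv K p v →+* Om (p : ℕ)).comp (toKv K p v) =
      (τ' : Kv K p v' →+* Om (p : ℕ)).comp (toKv K p v')) : tauHom τ = tauHom τ' := by
  apply Algebra.TensorProduct.ext
  · ext
  · apply AlgHom.ext
    intro x
    exact DFunLike.congr_fun h x

lemma places_bij : Function.Bijective
    (fun x : (Σ v : PlacesAbove K p, Kv K p v →ₐ[ℚ_[(p : ℕ)]] Om (p : ℕ)) =>
      (x.2 : Kv K p x.1 →+* Om (p : ℕ)).comp (toKv K p x.1)) := by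
  constructor
  · rintro ⟨v, τ⟩ ⟨v', τ'⟩ h
    have h1 := tauHom_ext τ τ' h
    have h2 : v = v' := by
      apply MaximalSpectrum.ext
      show v.ideal = v'.ideal
      rw [← ker_tauHom τ, ← ker_tauHom τ', h1]
    subst h2
    congr 1
    apply AlgHom.ext
    intro y
    obtain ⟨x, rfl⟩ := mkKv_surj v y
    exact DFunLike.congr_fun h1 x
  · intro σ
    have hA := places_artinian K p
    let g : QpK K p →ₐ[ℚ_[(p : ℕ)]] Om (p : ℕ) :=
      Algebra.TensorProduct.lift (Algebra.ofId _ _) (RingHom.toRatAlgHom σ)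
        (fun _ _ => Commute.all _ _)
    have hprime : (RingHom.ker g.toRingHom).IsPrime := RingHom.ker_isPrime _
    have hmax : (RingHom.ker g.toRingHom).IsMaximal := IsArtinianRing.isMaximal_of_isPrime _
    let w : MaximalSpectrum (QpK K p) := ⟨RingHom.ker g.toRingHom, hmax⟩
    let v : PlacesAbove K p := w
    let τ0 : (QpK K p ⧸ w.asIdeal) →+* Om (p : ℕ) :=
      Ideal.Quotient.lift w.asIdeal g.toRingHom (fun x hx => hx)
    let τ1 : Kv K p v →+* Om (p : ℕ) := τ0
    let τ : Kv K p v →ₐ[ℚ_[(p : ℕ)]] Om (p : ℕ) :=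
      { τ1 with commutes' := fun r => g.commutes r }
    refine ⟨⟨v, τ⟩, ?_⟩
    ext x
    show g ((1 : ℚ_[(p : ℕ)]) ⊗ₜ x) = σ x
    simp [g]

lemma places_prod [Fintype (PlacesAbove K p)] {M : Type} [CommMonoid M]
    (F : (K →+* Om (p : ℕ)) → M) :
    ∏ v : PlacesAbove K p, ∏ τ : Kv K p v →ₐ[ℚ_[(p : ℕ)]] Om (p : ℕ),
      F ((τ : Kv K p v →+* Om (p : ℕ)).comp (toKv K p v)) = ∏ σ : K →+* Om (p : ℕ), F σ := by
  rw [← Fintype.prod_sigma']
  exact Fintype.prod_bijective _ places_bij _ _ (fun x => rfl)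

end

section

variable {a b : ℤ} {n m : ℕ} {D : ℤ} {q : ℕ}

/-- A point over a number field `K` gives an adelic point over `K` which is orthogonal to the restrictions of all
classes `A_χ`. -/
theorem adelic_orthogonal (ha : a ≠ 0) (hq : q.Prime) (hn : 0 < n) (hqn : q ∣ n)
    (hqm : q ∣ m) (hf : Irreducible ((fq a b q).map (Int.castRingHom ℚ))) (hD : D ≠ 0)
    (K : Type) [Field K] [NumberField K] (P : CPoint a b n m D K) : P.adelic.Orthogonal q := by
  classical
  set f : ℤ[X] := fq a b q with hfdef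
  obtain ⟨u, hu⟩ := (Pool.Agent.Q51.SE.t_val f hf q q D hq.pos dvd_rfl hD K
    (P.toP ha hq.pos hn hqn hqm)).1
  intro χ
  have hloc : ∀ p : Nat.Primes, (∑ᶠ v : PlacesAbove K p, (rationalPoint (P.adelic p v)).inv χ) =
      Multiplicative.toAdd ((χ.old hf).loc p
        (Units.map (bas f ℚ ℚ_[(p : ℕ)]).toMonoidHom (Units.map (nrm f ℚ K) u))) := by
    intro p
    letI : Fintype (PlacesAbove K p) := Fintype.ofFinite _
    have hch : ∀ v : PlacesAbove K p, CharZero (Kv K p v) :=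
      fun v => charZero_of_injective_ringHom (toKv K p v).injective
    have hinv : ∀ v : PlacesAbove K p, (rationalPoint (P.adelic p v)).inv χ =
        Multiplicative.toAdd ((χ.loc p).hom (Units.map (nrm f ℚ_[(p : ℕ)] (Kv K p v))
          (Units.map (chg f (toKv K p v)).toMonoidHom u))) := by
      intro v
      have h0 : (rationalPoint (P.adelic p v)).overQp =
          ({ K := Kv K p v, point := P.map (toKv K p v) } : ClosedPoint a b n m D p) := by
        unfold ClosedPointOver.overQp rationalPoint CPoint.adelic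
        congr 1
      have h1 := val_chg t_nrm hf (toKv K p v) hu
      rw [← map_toP] at h1
      have h2 : ((({ K := Kv K p v, point := P.map (toKv K p v) } :
          ClosedPoint a b n m D p)).toL ha hq.pos hn hqn hqm).IsVal q
          (Units.map (nrm f ℚ_[(p : ℕ)] (Kv K p v))
          (Units.map (chg f (toKv K p v)).toMonoidHom u)) :=
        ⟨Units.map (chg f (toKv K p v)).toMonoidHom u, h1, rfl⟩
      unfold ClosedPointOver.inv
      rw [h0]
      exact inv_eq ha hq hn hqn hqm hf hD _ h2 χ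
    rw [finsum_eq_sum_of_fintype, Finset.sum_congr rfl fun v _ => hinv v]
    have hkey : ∏ v : PlacesAbove K p, Units.map (nrm f ℚ_[(p : ℕ)] (Kv K p v))
        (Units.map (chg f (toKv K p v)).toMonoidHom u) =
        Units.map (bas f ℚ ℚ_[(p : ℕ)]).toMonoidHom (Units.map (nrm f ℚ K) u) := by
      apply Units.ext
      apply ev_inj hf (algebraMap ℚ_[(p : ℕ)] (Om (p : ℕ)))
      intro ρ hρ
      obtain ⟨ψ, hψ, -⟩ := ev_hom (F := ℚ_[(p : ℕ)]) (algebraMap ℚ_[(p : ℕ)] (Om (p : ℕ))) hρ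
      rw [hψ, Units.coe_prod, map_prod]
      have e1 : ∀ v : PlacesAbove K p, ψ ((Units.map (nrm f ℚ_[(p : ℕ)] (Kv K p v))
          (Units.map (chg f (toKv K p v)).toMonoidHom u) :
          (Alg f ℚ_[(p : ℕ)])ˣ) : Alg f ℚ_[(p : ℕ)]) =
          ∏ τ : Kv K p v →ₐ[ℚ_[(p : ℕ)]] Om (p : ℕ),
            ev f ((τ : Kv K p v →+* Om (p : ℕ)).comp (toKv K p v)) ρ (u : Alg f K) := by
        intro v
        rw [← hψ]
        have e2 := (t_nrm f hf).1 ℚ_[(p : ℕ)] (Kv K p v) (Om (p : ℕ)) ρ hρ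
          (chg f (toKv K p v) (u : Alg f K))
        refine e2.trans ?_
        refine prod_congr rfl fun τ _ => ?_
        exact ev_chg _ _ hρ _
      rw [prod_congr rfl fun v _ => e1 v]
      rw [places_prod (fun σ => ev f σ ρ (u : Alg f K))]
      have e3 : ev f (algebraMap ℚ_[(p : ℕ)] (Om (p : ℕ))) ρ
          ((Units.map (bas f ℚ ℚ_[(p : ℕ)]).toMonoidHom (Units.map (nrm f ℚ K) u) :
            (Alg f ℚ_[(p : ℕ)])ˣ) : Alg f ℚ_[(p : ℕ)]) =
            ev f ((algebraMap ℚ_[(p : ℕ)] (Om (p : ℕ))).comp (algebraMap ℚ ℚ_[(p : ℕ)])) ρ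
              (nrm f ℚ K (u : Alg f K)) := ev_chg _ _ hρ _
      rw [e3]
      have e4 : (algebraMap ℚ_[(p : ℕ)] (Om (p : ℕ))).comp (algebraMap ℚ ℚ_[(p : ℕ)]) =
          algebraMap ℚ (Om (p : ℕ)) := Subsingleton.elim _ _
      rw [e4, (t_nrm f hf).1 ℚ K (Om (p : ℕ)) ρ hρ]
      exact (Fintype.prod_equiv (RingHom.equivRatAlgHom K (Om (p : ℕ))).symm _ _
        (fun σ => rfl)).symm
    rw [← toAdd_prod, ← map_prod, hkey]
    rfl
  obtain ⟨g, hg⟩ := AdjoinRoot.mk_surjective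
    ((Units.map (nrm f ℚ K) u : (Alg f ℚ)ˣ) : Alg f ℚ)
  rw [finsum_congr hloc, fin_conv]
  have h2 := (χ.old hf).glob g
    (fun p => Units.map (bas f ℚ ℚ_[(p : ℕ)]).toMonoidHom (Units.map (nrm f ℚ K) u)) (by
      intro p
      have h3 : ((Units.map (bas f ℚ ℚ_[(p : ℕ)]).toMonoidHom (Units.map (nrm f ℚ K) u) :
          (Alg f ℚ_[(p : ℕ)])ˣ) : Alg f ℚ_[(p : ℕ)]) =
          chg f (algebraMap ℚ ℚ_[(p : ℕ)]) (AdjoinRoot.mk (f.map (Int.castRingHom ℚ)) g) := by
        rw [hg]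
        rfl
      rw [h3]
      have h4 : AdjoinRoot.mk (f.map (Int.castRingHom ℚ)) g = cl f ℚ g := rfl
      rw [h4, chg_cl]
      congr 2)
  rw [h2, toAdd_one]

/-- adelic points as families of zero-cycles of degree one -/
lemma over_one {K : Type} [Field K] [NumberField K] {P : AdelicPointOver a b n m D K}
    (hP : P.Orthogonal q) : HasOrthogonalFamilyOver a b n m D K q 1 := by
  refine ⟨fun p v => [(1, rationalPoint (P p v))], fun p v => ?_, fun χ => ?_⟩
  · unfold ZeroCycleOver.degree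
    simp [rationalPoint_degree]
  · refine Eq.trans (finsum_congr fun p => finsum_congr fun v => ?_) (hP χ)
    unfold ZeroCycleOver.inv
    simp

end

end Pool.Agent.Q51.ZC
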