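import Pool.Agent.Q51.ZC.Eng4

/-! # Project ZC: the bound `S_ENG` -/

set_option autoImplicit false

namespace Pool.Agent.Q51.ZC

open Polynomial NumberField IsDedekindDomain Finset
open Pool.Agent.Q51.EL (Abv N1 pr Setup Gf)
open Pool.Agent.Q51.SE (Parq Zc)

/-- the part without large prime factor in `R` -/
lemma part1 (hht : S_HT) : ∃ CH : ℝ, 0 < CH ∧ ∀ (B : ℕ) (P R : Set ℕ) (T : Set ℤ), B ≠ 0 → R ⊆ P →
  (∀ D ∈ T, Squarefree D) → (∀ D ∈ T, ∀ l : ℕ, l.Prime → (l : ℤ) ∣ D → ¬ l ∣ B → l ∈ P) →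
  ∀ z0 X : ℝ, z0 ≤ X → 2 ≤ X →
  (({D ∈ T | (D.natAbs : ℝ) ≤ X ∧ ¬ ∃ p ∈ R, z0 < p ∧ p ∣ D.natAbs}.ncard : ℕ) : ℝ) ≤
    CH * X / Real.log X * Real.exp (SP P X + B - (SP R X - SP R z0)) := by
  classical
  obtain ⟨CH, hCH, h⟩ := hht
  refine ⟨2 * CH, by positivity, fun B P R T hB hRP hsq hmem z0 X hz hX => ?_⟩
  set P1 : Set ℕ := {l | (l ∈ P ∨ l ∣ B) ∧ ¬ (l ∈ R ∧ z0 < l)} with hP1
  have h1 := h P1 X hX
  have h2 := sum_P1 hRP hB hz
  have h3 : ∑ l ∈ (pr X).filter (fun l => l ∈ P1), (1 : ℝ) / l ≤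
      SP P X + B - (SP R X - SP R z0) := by
    refine le_trans (le_of_eq ?_) h2
    refine sum_congr ?_ fun _ _ => rfl
    ext l
    simp only [mem_filter, hP1, Set.mem_ofPred_eq]
  have hF := ncard_abs {D ∈ T | (D.natAbs : ℝ) ≤ X ∧ ¬ ∃ p ∈ R, z0 < p ∧ p ∣ D.natAbs}
    ((Icc 1 ⌊X⌋₊).filter (fun m : ℕ => Squarefree m ∧ ∀ l : ℕ, l.Prime → l ∣ m → l ∈ P1)) (by
      rintro D ⟨hD, hDX, hDp⟩
      have hDs : Squarefree D.natAbs := Int.squarefree_natAbs.mpr (hsq D hD)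
      rw [mem_filter, mem_Icc]
      refine ⟨⟨Nat.pos_of_ne_zero hDs.ne_zero, Nat.le_floor hDX⟩, hDs, fun l hl hlD => ⟨?_, ?_⟩⟩
      · by_cases hlB : l ∣ B
        · exact Or.inr hlB
        · exact Or.inl (hmem D hD l hl (Int.natCast_dvd.mpr hlD) hlB)
      · rintro ⟨hlR, hlz⟩
        exact hDp ⟨l, hlR, hlz, hlD⟩)
  have hF' : (({D ∈ T | (D.natAbs : ℝ) ≤ X ∧ ¬ ∃ p ∈ R, z0 < p ∧ p ∣ D.natAbs}.ncard : ℕ) : ℝ) ≤
      2 * (((Icc 1 ⌊X⌋₊).filter (fun m : ℕ => Squarefree m ∧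
        ∀ l : ℕ, l.Prime → l ∣ m → l ∈ P1)).card : ℝ) := by exact_mod_cast hF
  refine hF'.trans ?_
  have hlog : 0 < Real.log X := Real.log_pos (by linarith)
  have h5 : (((Icc 1 ⌊X⌋₊).filter (fun m : ℕ => Squarefree m ∧
        ∀ l : ℕ, l.Prime → l ∣ m → l ∈ P1)).card : ℝ) ≤
      CH * X / Real.log X * Real.exp (SP P X + B - (SP R X - SP R z0)) := by
    refine le_trans (le_of_eq ?_) (h1.trans ?_)
    · congr! 3
    · refine mul_le_mul_of_nonneg_left (Real.exp_le_exp.mpr ?_) (by positivity)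
      refine le_trans (le_of_eq ?_) h3
      congr! 2
  calc 2 * (((Icc 1 ⌊X⌋₊).filter (fun m : ℕ => Squarefree m ∧
        ∀ l : ℕ, l.Prime → l ∣ m → l ∈ P1)).card : ℝ)
      ≤ 2 * (CH * X / Real.log X * Real.exp (SP P X + B - (SP R X - SP R z0))) := by linarith
    _ = _ := by ring

/-- the part with large smooth part -/
lemma part2 (hsmo : S_SMO) : ∃ CS : ℝ, 0 < CS ∧ ∀ (T : Set ℤ), (∀ D ∈ T, Squarefree D) →
  ∀ X z S : ℝ, 1 ≤ X → 2 ≤ z → 1 ≤ S →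
  (({D ∈ T | (D.natAbs : ℝ) ≤ X ∧ S < (smo z D.natAbs : ℝ)}.ncard : ℕ) : ℝ) ≤
    CS * X * Real.log z ^ 3 * Real.exp (-(Real.log S / Real.log z)) := by
  classical
  obtain ⟨CS, hCS, h⟩ := hsmo
  refine ⟨2 * CS, by positivity, fun T hsq X z S hX hz hS => ?_⟩
  have h1 := h X z S hX hz hS
  have hF := ncard_abs {D ∈ T | (D.natAbs : ℝ) ≤ X ∧ S < (smo z D.natAbs : ℝ)}
    ((Icc 1 ⌊X⌋₊).filter (fun m : ℕ => Squarefree m ∧ S < (smo z m : ℝ))) (by
      rintro D ⟨hD, hDX, hDp⟩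
      have hDs : Squarefree D.natAbs := Int.squarefree_natAbs.mpr (hsq D hD)
      rw [mem_filter, mem_Icc]
      exact ⟨⟨Nat.pos_of_ne_zero hDs.ne_zero, Nat.le_floor hDX⟩, hDs, hDp⟩)
  have hF' : (({D ∈ T | (D.natAbs : ℝ) ≤ X ∧ S < (smo z D.natAbs : ℝ)}.ncard : ℕ) : ℝ) ≤
      2 * (((Icc 1 ⌊X⌋₊).filter (fun m : ℕ => Squarefree m ∧ S < (smo z m : ℝ))).card : ℝ) := by
    exact_mod_cast hF
  have h2 : (((Icc 1 ⌊X⌋₊).filter (fun m : ℕ => Squarefree m ∧ S < (smo z m : ℝ))).card : ℝ) ≤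
      CS * X * Real.log z ^ 3 * Real.exp (-(Real.log S / Real.log z)) := by
    convert h1 using 3
  linarith

theorem eng (hht : S_HT) (hsmo : S_SMO) (hsumm : S_SUMM) (hmset : S_MSET) (htwo : S_TWO)
    (hind : S_IND) (hone : S_ONE) (hgrp : S_GRP2) : S_ENG := by
  classical
  intro L _ _ q B0 P R hG0 hR0 c1 C1' hc1 hSP
  have hq3 : 3 ≤ q := hG0.ge
  have hqpos : (0 : ℝ) < q := by exact_mod_cast (by omega : 0 < q)
  obtain ⟨B, N0, Cg, hB, hB0B, hCg, hN0, hgrpC0⟩ := hgrp L q (by omega) B0 hG0.ne hG0.ram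
  have hgrpC : GrpC L q B N0 (max 1 Cg) := grp_mono hgrpC0 (le_max_right _ _)
  have hG := good_mono hG0 hB0B hB
  set C := max 1 Cg with hCdef
  have hC1 : 1 ≤ C := le_max_left _ _
  set A0 : ℝ := (q : ℝ) ^ q * Real.exp q with hA0
  have hA0pos : 0 < A0 := by positivity
  set ε : ℝ := min (1 / 4) (c1 / (8 * (1 + A0))) with hε
  have hεpos : 0 < ε := lt_min (by norm_num) (by positivity)
  have hε4 : ε ≤ 1 / 4 := min_le_left _ _
  have hεA : 2 * ε * (1 + A0) ≤ c1 / 4 := by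
    have h1 : ε ≤ c1 / (8 * (1 + A0)) := min_le_right _ _
    rw [le_div_iff₀ (by positivity)] at h1
    linarith
  obtain ⟨Co, hCo, hone'⟩ := hone L q B hG ε hεpos
  have honeC : OneC L q B ε Co := hone'
  set R' : Set ℕ := {p | p ∈ R ∧ B < p} with hR'
  have hRL : Large L q B P R' :=
    { sub := fun p hp => hR0.sub hp.1
      pr := fun p hp => hR0.pr p hp.1
      nd := fun p hp h => absurd (Nat.le_of_dvd (Nat.pos_of_ne_zero hB) h) (not_le.mpr hp.2)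
      one := fun p hp => hR0.one p hp.1
      ord := fun p hp => hR0.ord p hp.1 }
  obtain ⟨CH, hCH, hp1⟩ := part1 hht
  obtain ⟨CS, hCS, hp2⟩ := part2 hsmo
  obtain ⟨CM, hCM, hp3⟩ := hsumm q hq3
  obtain ⟨K, hK, hdec⟩ := exp_decay hεpos (by positivity : (0 : ℝ) < 2 * q) 5
  set Λ : ℝ := (8 * q + B + 1) ^ 2 with hΛ
  set c : ℝ := min (c1 * ε) (min (c1 / 4) 1) with hc
  have hcpos : 0 < c := lt_min (by positivity) (lt_min (by positivity) one_pos)
  have hca : c ≤ c1 * ε := min_le_left _ _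
  have hcb : c ≤ c1 / 4 := (min_le_right _ _).trans (min_le_left _ _)
  have hcc : c ≤ 1 := (min_le_right _ _).trans (min_le_right _ _)
  set K3 : ℝ := 2 * B * (N0 * Co * C ^ q) * (4 * q) * CM * Real.exp ((c1 + C1') / 2) with hK3
  have hK3pos : 0 ≤ K3 := by positivity
  set Kt : ℝ := 3 * Λ ^ 2 with hKt
  refine ⟨c, CH * Real.exp (B + C1') + CS * K + K3 + Kt, hcpos, fun T δ hD0 X hX => ?_⟩
  have hD := data_mono hD0 hB0B
  set t : ℝ := Real.log X with ht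
  have ht1 : 1 ≤ t := by
    rw [ht]
    have h1 : Real.exp 1 ≤ 3 := by linarith [Real.exp_one_lt_d9]
    calc (1 : ℝ) = Real.log (Real.exp 1) := (Real.log_exp 1).symm
      _ ≤ Real.log X := Real.log_le_log (Real.exp_pos 1) (h1.trans hX)
  have ht0 : 0 < t := by linarith
  have hX0 : 0 < X := by linarith
  have hexpP : 1 ≤ Real.exp (SP P X) := Real.one_le_exp (sum_nonneg fun l _ => by positivity)
  have htc : 0 < t ^ (-c) := Real.rpow_pos_of_pos ht0 _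
  have hpow : ∀ x : ℝ, c ≤ x → t ^ (-x) ≤ t ^ (-c) := fun x hx =>
    Real.rpow_le_rpow_of_exponent_le ht1 (by linarith)
  have hKall : 0 ≤ CH * Real.exp (B + C1') + CS * K + K3 := by positivity
  rcases lt_or_ge t Λ with hsmall | hlarge
  · -- small `X`
    have h1 : (({D ∈ T | (D.natAbs : ℝ) ≤ X}.ncard : ℕ) : ℝ) ≤ 2 * (⌊X⌋₊ + 1) := by
      have h2 := ncard_abs {D ∈ T | (D.natAbs : ℝ) ≤ X} (range (⌊X⌋₊ + 1)) (by
        rintro D ⟨-, hDX⟩
        rw [mem_range]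
        exact Nat.lt_succ_of_le (Nat.le_floor hDX))
      rw [card_range] at h2
      exact_mod_cast h2
    have h2 : (⌊X⌋₊ : ℝ) ≤ X := Nat.floor_le hX0.le
    have h3 : (({D ∈ T | (D.natAbs : ℝ) ≤ X}.ncard : ℕ) : ℝ) ≤ 3 * X := by linarith
    have h4 : Λ⁻¹ ≤ t ^ (-c) := by
      have h5 : t ^ (-(1 : ℝ)) ≤ t ^ (-c) := hpow 1 hcc
      rw [Real.rpow_neg ht0.le, Real.rpow_one] at h5
      exact (inv_anti₀ ht0 hsmall.le).trans h5
    have hΛ0 : 0 < Λ := by positivity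
    calc (({D ∈ T | (D.natAbs : ℝ) ≤ X}.ncard : ℕ) : ℝ) ≤ 3 * X := h3
      _ = Kt * X / Λ * 1 * Λ⁻¹ := by rw [hKt]; field_simp
      _ ≤ Kt * X / t * Real.exp (SP P X) * t ^ (-c) := by
          gcongr
      _ ≤ (CH * Real.exp (B + C1') + CS * K + K3 + Kt) * X / t * Real.exp (SP P X) * t ^ (-c) := by
          gcongr
          linarith
  -- large `X`
  have hsq : 8 * (q : ℝ) + B + 1 ≤ t ^ ((1 : ℝ) / 2) := by
    rw [← Real.sqrt_eq_rpow]
    exact Real.le_sqrt_of_sq_le hlarge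
  have hpw : ∀ x : ℝ, 1 / 2 ≤ x → 8 * (q : ℝ) + B + 1 ≤ t ^ x := fun x hx =>
    hsq.trans (Real.rpow_le_rpow_of_exponent_le ht1 hx)
  have hBnn : (0 : ℝ) ≤ B := Nat.cast_nonneg B
  set z0 : ℝ := Real.exp (t ^ (1 - ε)) with hz0
  set z : ℝ := Real.exp (t ^ (1 - 2 * ε)) with hz
  set Z : ℝ := Real.exp (t ^ (1 - ε) / (4 * q)) with hZ
  set S : ℝ := Real.exp (t ^ (1 - ε) / (2 * q)) with hS
  have hlz0 : Real.log z0 = t ^ (1 - ε) := Real.log_exp _
  have hlz : Real.log z = t ^ (1 - 2 * ε) := Real.log_exp _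
  have hlZ : Real.log Z = t ^ (1 - ε) / (4 * q) := Real.log_exp _
  have hlS : Real.log S = t ^ (1 - ε) / (2 * q) := Real.log_exp _
  have he1 := hpw (1 - ε) (by linarith)
  have he2 := hpw (1 - 2 * ε) (by linarith)
  have h3e : ∀ x : ℝ, 2 ≤ x → 3 ≤ Real.exp x := fun x hx => by
    have := Real.add_one_le_exp x
    linarith
  have hq3r : (3 : ℝ) ≤ q := by exact_mod_cast hq3
  have hZ3 : 3 ≤ Z := by
    refine h3e _ ?_
    rw [le_div_iff₀ (by positivity)]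
    linarith
  have hz3 : 3 ≤ z := h3e _ (by linarith)
  have hz03 : 3 ≤ z0 := h3e _ (by linarith)
  have hexpt : Real.exp t = X := Real.exp_log hX0
  have hzX : z ≤ X := by
    rw [← hexpt]
    refine Real.exp_le_exp.mpr ?_
    calc t ^ (1 - 2 * ε) ≤ t ^ (1 : ℝ) := Real.rpow_le_rpow_of_exponent_le ht1 (by linarith)
      _ = t := Real.rpow_one t
  have hz0X : z0 ≤ X := by
    rw [← hexpt]
    refine Real.exp_le_exp.mpr ?_
    calc t ^ (1 - ε) ≤ t ^ (1 : ℝ) := Real.rpow_le_rpow_of_exponent_le ht1 (by linarith)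
      _ = t := Real.rpow_one t
  have hZz0 : Z ≤ z0 := by
    refine Real.exp_le_exp.mpr ?_
    exact div_le_self (by linarith) (by linarith)
  have hS1 : 1 ≤ S := Real.one_le_exp (by positivity)
  have hSZ : S * Z ^ 2 ≤ z0 ^ ((1 : ℝ) / q) := by
    refine le_of_eq ?_
    rw [hS, hZ, hz0, ← Real.exp_mul, ← Real.exp_nat_mul, ← Real.exp_add]
    congr 1
    push_cast
    field_simp
    ring
  have hBz0 : (B : ℝ) < z0 := by
    have := Real.add_one_le_exp (t ^ (1 - ε))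
    linarith
  -- the partition
  have hfinT : {D ∈ T | (D.natAbs : ℝ) ≤ X}.Finite := by
    refine (Set.finite_Icc (-(⌊X⌋₊ : ℤ)) (⌊X⌋₊ : ℤ)).subset ?_
    rintro D ⟨-, hDX⟩
    have h1 : D.natAbs ≤ ⌊X⌋₊ := Nat.le_floor hDX
    rw [Set.mem_Icc]
    omega
  have hsub : {D ∈ T | (D.natAbs : ℝ) ≤ X} ⊆
      ({D ∈ T | (D.natAbs : ℝ) ≤ X ∧ ¬ ∃ p ∈ R, z0 < p ∧ p ∣ D.natAbs} ∪
      {D ∈ T | (D.natAbs : ℝ) ≤ X ∧ S < (smo z D.natAbs : ℝ)}) ∪ E3 R' T z z0 S X := by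
    rintro D ⟨hDT, hDX⟩
    by_cases h1 : ∃ p ∈ R, z0 < p ∧ p ∣ D.natAbs
    · rcases lt_or_ge S (smo z D.natAbs : ℝ) with h2 | h2
      · exact Or.inl (Or.inr ⟨hDT, hDX, h2⟩)
      · obtain ⟨p, hpR, hpz, hpD⟩ := h1
        refine Or.inr ⟨hDT, hDX, ⟨p, ⟨hpR, ?_⟩, hpz, hpD⟩, h2⟩
        exact_mod_cast hBz0.trans hpz
    · exact Or.inl (Or.inl ⟨hDT, hDX, h1⟩)
  have hfin1 : {D ∈ T | (D.natAbs : ℝ) ≤ X ∧ ¬ ∃ p ∈ R, z0 < p ∧ p ∣ D.natAbs}.Finite :=
    hfinT.subset fun D hD => ⟨hD.1, hD.2.1⟩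
  have hfin2 : {D ∈ T | (D.natAbs : ℝ) ≤ X ∧ S < (smo z D.natAbs : ℝ)}.Finite :=
    hfinT.subset fun D hD => ⟨hD.1, hD.2.1⟩
  have hfin3 : (E3 R' T z z0 S X).Finite := hfinT.subset fun D hD => ⟨hD.1, hD.2.1⟩
  have hcard : (({D ∈ T | (D.natAbs : ℝ) ≤ X}.ncard : ℕ) : ℝ) ≤
      (({D ∈ T | (D.natAbs : ℝ) ≤ X ∧ ¬ ∃ p ∈ R, z0 < p ∧ p ∣ D.natAbs}.ncard : ℕ) : ℝ) +
      (({D ∈ T | (D.natAbs : ℝ) ≤ X ∧ S < (smo z D.natAbs : ℝ)}.ncard : ℕ) : ℝ) +
      ((E3 R' T z z0 S X).ncard : ℝ) := by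
    have h1 := Set.ncard_le_ncard hsub ((hfin1.union hfin2).union hfin3)
    have h2 := Set.ncard_union_le ({D ∈ T | (D.natAbs : ℝ) ≤ X ∧ ¬ ∃ p ∈ R, z0 < p ∧ p ∣ D.natAbs} ∪
      {D ∈ T | (D.natAbs : ℝ) ≤ X ∧ S < (smo z D.natAbs : ℝ)}) (E3 R' T z z0 S X)
    have h3 := Set.ncard_union_le {D ∈ T | (D.natAbs : ℝ) ≤ X ∧ ¬ ∃ p ∈ R, z0 < p ∧ p ∣ D.natAbs}
      {D ∈ T | (D.natAbs : ℝ) ≤ X ∧ S < (smo z D.natAbs : ℝ)}
    exact_mod_cast h1.trans (h2.trans (Nat.add_le_add_right h3 _))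
  -- first part
  have hb1 : (({D ∈ T | (D.natAbs : ℝ) ≤ X ∧ ¬ ∃ p ∈ R, z0 < p ∧ p ∣ D.natAbs}.ncard : ℕ) : ℝ) ≤
      (CH * Real.exp (B + C1')) * X / t * Real.exp (SP P X) * t ^ (-c) := by
    have h1 := hp1 B P R T hB hR0.sub hD.sq hD.mem z0 X hz0X (by linarith)
    have h2 := hSP X z0 hz03 hz0X
    rw [hlz0, ← ht] at h2
    have h3 : Real.log (t / t ^ (1 - ε)) = ε * Real.log t := by
      rw [Real.log_div ht0.ne' (Real.rpow_pos_of_pos ht0 _).ne', Real.log_rpow ht0]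
      ring
    rw [h3] at h2
    refine h1.trans ?_
    have h4 : Real.exp (SP P X + B - (SP R X - SP R z0)) ≤
        Real.exp (SP P X) * Real.exp (B + C1') * t ^ (-(c1 * ε)) := by
      rw [Real.rpow_def_of_pos ht0, ← Real.exp_add, ← Real.exp_add]
      refine Real.exp_le_exp.mpr ?_
      linarith
    calc CH * X / t * Real.exp (SP P X + B - (SP R X - SP R z0)) ≤
        CH * X / t * (Real.exp (SP P X) * Real.exp (B + C1') * t ^ (-(c1 * ε))) := by gcongr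
      _ ≤ CH * X / t * (Real.exp (SP P X) * Real.exp (B + C1') * t ^ (-c)) := by
          gcongr
      _ = _ := by ring
  -- second part
  have hb2 : (({D ∈ T | (D.natAbs : ℝ) ≤ X ∧ S < (smo z D.natAbs : ℝ)}.ncard : ℕ) : ℝ) ≤
      (CS * K) * X / t * Real.exp (SP P X) * t ^ (-c) := by
    have h1 := hp2 T hD.sq X z S (by linarith) (by linarith) hS1
    rw [hlS, hlz] at h1
    have h2 : t ^ (1 - ε) / (2 * q) / t ^ (1 - 2 * ε) = t ^ ε / (2 * q) := by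
      have h3 : t ^ (1 - ε) = t ^ ε * t ^ (1 - 2 * ε) := by
        rw [← Real.rpow_add ht0]
        congr 1
        ring
      rw [h3]
      have h4 : t ^ (1 - 2 * ε) ≠ 0 := (Real.rpow_pos_of_pos ht0 _).ne'
      field_simp
    rw [h2] at h1
    refine h1.trans ?_
    have h3 : t ^ (1 - 2 * ε) ≤ t := by
      calc t ^ (1 - 2 * ε) ≤ t ^ (1 : ℝ) := Real.rpow_le_rpow_of_exponent_le ht1 (by linarith)
        _ = t := Real.rpow_one t
    have h4 := hdec t ht1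
    have h5 : t ^ 3 * Real.exp (-(t ^ ε / (2 * q))) ≤ K / t ^ 2 := by
      rw [le_div_iff₀ (by positivity)]
      calc t ^ 3 * Real.exp (-(t ^ ε / (2 * q))) * t ^ 2 =
          t ^ 5 * Real.exp (-(t ^ ε / (2 * q))) := by ring
        _ ≤ K := h4
    have h6 : t⁻¹ ≤ t ^ (-c) := by
      have h7 := hpow 1 hcc
      rwa [Real.rpow_neg ht0.le, Real.rpow_one] at h7
    calc CS * X * (t ^ (1 - 2 * ε)) ^ 3 * Real.exp (-(t ^ ε / (2 * q)))
        ≤ CS * X * t ^ 3 * Real.exp (-(t ^ ε / (2 * q))) := by gcongr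
      _ = CS * X * (t ^ 3 * Real.exp (-(t ^ ε / (2 * q)))) := by ring
      _ ≤ CS * X * (K / t ^ 2) := by gcongr
      _ = (CS * K) * X / t * 1 * t⁻¹ := by field_simp
      _ ≤ (CS * K) * X / t * Real.exp (SP P X) * t ^ (-c) := by gcongr
  -- third part
  have hb3 : ((E3 R' T z z0 S X).ncard : ℝ) ≤ K3 * X / t * Real.exp (SP P X) * t ^ (-c) := by
    have h1 := e3 htwo hind hmset hG hRL hgrpC honeC hC1 hCo hD (X := X) (z := z) (by linarith) hZ3
      hZz0 hSZ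
    have h2 := hp3 P z X hz3 hzX
    have h2' : ∑ m ∈ Ms P X, (1 / (m : ℝ)) * ∏ l ∈ m.primeFactors,
          (if (l : ℝ) ≤ z then kap q l else (q : ℝ) ^ q) * Real.exp ((q : ℝ) / l) ≤
      CM * Real.exp (∑ l ∈ (pr X).filter (fun l => l ∈ P), kap q l / l) *
        (Real.log X / Real.log z) ^ ((q : ℝ) ^ q * Real.exp q) := h2
    rw [hlz, ← ht, ← hA0] at h2'
    have h3 := sum_kap hR0.sub hq3 hR0.ord X
    have h4 := hSP X 3 le_rfl hX
    have h5 : 0 ≤ SP R 3 := sum_nonneg fun l _ => by positivity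
    have hlog3 : Real.log (Real.log X / Real.log 3) ≥ Real.log t - 1 := by
      have ha : 0 < Real.log 3 := Real.log_pos (by norm_num)
      rw [← ht, Real.log_div ht0.ne' ha.ne']
      have hb : Real.log (Real.log 3) ≤ 1 := by
        have hc : Real.log 3 ≤ 3 - 1 := Real.log_le_sub_one_of_pos (by norm_num)
        have hd := Real.log_le_sub_one_of_pos ha
        linarith
      linarith
    have h6 : c1 * Real.log t - c1 - C1' ≤ SP R X := by
      have := mul_le_mul_of_nonneg_left hlog3 hc1.le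
      linarith
    have h7 : Real.exp (∑ l ∈ (pr X).filter (fun l => l ∈ P), kap q l / l) ≤
        Real.exp (SP P X) * Real.exp ((c1 + C1') / 2) * t ^ (-(c1 / 2)) := by
      rw [Real.rpow_def_of_pos ht0, ← Real.exp_add, ← Real.exp_add]
      refine Real.exp_le_exp.mpr ?_
      linarith
    have h8 : (t / t ^ (1 - 2 * ε)) ^ A0 = t ^ (2 * ε * A0) := by
      have h9 : t / t ^ (1 - 2 * ε) = t ^ (2 * ε) := by
        rw [eq_comm, eq_div_iff (Real.rpow_pos_of_pos ht0 _).ne', ← Real.rpow_add ht0]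
        have : 2 * ε + (1 - 2 * ε) = 1 := by ring
        rw [this, Real.rpow_one]
      rw [h9, ← Real.rpow_mul ht0.le]
    rw [h8] at h2'
    have h9 : Real.log Z ^ (-(1 - ε)) ≤ (4 * q) * t ^ (-1 + 2 * ε) := by
      rw [hlZ, Real.div_rpow (Real.rpow_pos_of_pos ht0 _).le (by positivity), ← Real.rpow_mul ht0.le,
        div_eq_mul_inv, ← Real.rpow_neg (by positivity), neg_neg, mul_comm]
      refine mul_le_mul ?_ ?_ (Real.rpow_pos_of_pos ht0 _).le (by positivity)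
      · calc (4 * (q : ℝ)) ^ (1 - ε) ≤ (4 * (q : ℝ)) ^ (1 : ℝ) :=
              Real.rpow_le_rpow_of_exponent_le (by linarith) (by linarith)
          _ = 4 * q := Real.rpow_one _
      · refine Real.rpow_le_rpow_of_exponent_le ht1 ?_
        have hee : (1 - ε) * -(1 - ε) = -1 + 2 * ε - ε ^ 2 := by ring
        rw [hee]
        linarith [sq_nonneg ε]
    have hM0 : 0 ≤ ∑ m ∈ Ms P X, (1 / (m : ℝ)) * ∏ l ∈ m.primeFactors,
          (if (l : ℝ) ≤ z then kap q l else (q : ℝ) ^ q) * Real.exp ((q : ℝ) / l) := by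
      refine sum_nonneg fun m _ => mul_nonneg (by positivity) (prod_nonneg fun l _ =>
        mul_nonneg ?_ (Real.exp_pos _).le)
      split_ifs
      · unfold kap; split_ifs <;> positivity
      · positivity
    refine h1.trans ?_
    have h10 : t ^ (-1 + 2 * ε) * (t ^ (-(c1 / 2)) * t ^ (2 * ε * A0)) ≤ t⁻¹ * t ^ (-c) := by
      rw [← Real.rpow_add ht0, ← Real.rpow_add ht0, ← Real.rpow_neg_one t, ← Real.rpow_add ht0]
      refine Real.rpow_le_rpow_of_exponent_le ht1 ?_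
      linarith
    calc 2 * B * (N0 * Co * C ^ q) * X * Real.log Z ^ (-(1 - ε)) *
        ∑ m ∈ Ms P X, (1 / (m : ℝ)) * ∏ l ∈ m.primeFactors,
          (if (l : ℝ) ≤ z then kap q l else (q : ℝ) ^ q) * Real.exp ((q : ℝ) / l)
        ≤ 2 * B * (N0 * Co * C ^ q) * X * ((4 * q) * t ^ (-1 + 2 * ε)) *
          (CM * (Real.exp (SP P X) * Real.exp ((c1 + C1') / 2) * t ^ (-(c1 / 2))) *
            t ^ (2 * ε * A0)) := by
          refine mul_le_mul ?_ ?_ hM0 (by positivity)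
          · exact mul_le_mul_of_nonneg_left h9 (by positivity)
          · refine h2'.trans ?_
            refine mul_le_mul_of_nonneg_right ?_ (Real.rpow_pos_of_pos ht0 _).le
            exact mul_le_mul_of_nonneg_left h7 hCM.le
      _ = (2 * B * (N0 * Co * C ^ q) * (4 * q) * CM * Real.exp ((c1 + C1') / 2)) * X *
          Real.exp (SP P X) * (t ^ (-1 + 2 * ε) * (t ^ (-(c1 / 2)) * t ^ (2 * ε * A0))) := by ring
      _ ≤ (2 * B * (N0 * Co * C ^ q) * (4 * q) * CM * Real.exp ((c1 + C1') / 2)) * X *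
          Real.exp (SP P X) * (t⁻¹ * t ^ (-c)) := by
          refine mul_le_mul_of_nonneg_left h10 (by positivity)
      _ = K3 * X / t * Real.exp (SP P X) * t ^ (-c) := by
          rw [hK3]
          field_simp
  calc (({D ∈ T | (D.natAbs : ℝ) ≤ X}.ncard : ℕ) : ℝ) ≤ _ := hcard
    _ ≤ (CH * Real.exp (B + C1')) * X / t * Real.exp (SP P X) * t ^ (-c) +
        (CS * K) * X / t * Real.exp (SP P X) * t ^ (-c) +
        K3 * X / t * Real.exp (SP P X) * t ^ (-c) := by linarith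
    _ = (CH * Real.exp (B + C1') + CS * K + K3) * X / t * Real.exp (SP P X) * t ^ (-c) := by ring
    _ ≤ (CH * Real.exp (B + C1') + CS * K + K3 + Kt) * X / t * Real.exp (SP P X) * t ^ (-c) := by
        have : 0 ≤ Kt := by positivity
        refine mul_le_mul_of_nonneg_right (mul_le_mul_of_nonneg_right (div_le_div_of_nonneg_right
          (mul_le_mul_of_nonneg_right ?_ hX0.le) ht0.le) (Real.exp_pos _).le) htc.le
        linarith

end Pool.Agent.Q51.ZC
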