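import Pool.Agent.Q86.ZC.Self
import Pool.Agent.Q86.ZC.PrGen
import Pool.Agent.Q86.ZC.Two
import Pool.Agent.Q86.ZC.One
import Pool.Agent.Q190.ZC.Cls
import Pool.Agent.Q190.ZC.Mset
import Pool.Agent.Q210.ZC.HT
import Pool.Agent.Q210.ZC.SMO
import Pool.Agent.Q210.ZC.SUMM
import Pool.Agent.Q38.ZC.Goodat
import Pool.Agent.Q190.ZC.Lag
import Pool.Agent.Q190.ZC.Tei
import Pool.Agent.Q190.ZC.Intp
import Pool.Agent.Q257.ZC.NRM
import Pool.Agent.Q257.ZC.TRN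
import Pool.Agent.Q257.ZC.APX
import Pool.Agent.Q257.ZC.EMB
import Pool.Agent.Q92.ZC.Lan
import Pool.Agent.Q92.ZC.Lmul
import Pool.Agent.Q241.ZC.L01
import Pool.Agent.Q241.ZC.Pl
import Pool.Agent.Q241.ZC.Tra
import Pool.Agent.Q299.ZC.ZEX
import Pool.Agent.Q299.ZC.EPR
import Pool.Agent.Q299.ZC.N1R
import Pool.Agent.Q150.ZC.Dec
import Pool.Agent.Q195.ZC.Lrg
import Pool.Agent.Q51.ZC.Eng5

/-! # Project ZC: all lemmas -/

set_option autoImplicit false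

namespace Pool.Agent.Q51.ZC

theorem t_ht : S_HT := Pool.Agent.Q210.ZC.ht
theorem t_smo : S_SMO := Pool.Agent.Q210.ZC.smo
theorem t_summ : S_SUMM := Pool.Agent.Q210.ZC.summ
theorem t_cls : S_CLS := Pool.Agent.Q190.ZC.cls
theorem t_mset : S_MSET := Pool.Agent.Q190.ZC.mset
theorem t_two : S_TWO := Pool.Agent.Q86.ZC.two
theorem t_ind : S_IND := Pool.Agent.Q86.ZC.ind_
theorem t_one : S_ONE := Pool.Agent.Q86.ZC.one t_cls
theorem t_prn : S_PRN := Pool.Agent.Q86.ZC.prn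
theorem t_self : S_SELF := Pool.Agent.Q86.ZC.self
theorem t_grp2 : S_GRP2 := grp2 t_prn t_self
theorem t_eng : S_ENG := eng t_ht t_smo t_summ t_mset t_two t_ind t_one t_grp2
theorem t_goodat : S_GOODAT := Pool.Agent.Q38.ZC.goodat
theorem t_unr : S_UNR := Pool.Agent.Q190.ZC.unr
theorem t_tei : S_TEI := Pool.Agent.Q190.ZC.tei
theorem t_intp : S_INTP := Pool.Agent.Q190.ZC.intp
theorem t_nrm : S_NRM := Pool.Agent.Q257.ZC.nrm_ev
theorem t_trn : S_TRN := Pool.Agent.Q257.ZC.trn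
theorem t_qdv : S_QDV := Pool.Agent.Q257.ZC.qdv t_unr t_trn
theorem t_apx : S_APX := Pool.Agent.Q257.ZC.apx
theorem t_emb : S_EMB := Pool.Agent.Q257.ZC.emb t_nrm
theorem t_lan : S_LAN := Pool.Agent.Q92.ZC.lan
theorem t_lmul : S_LMUL := Pool.Agent.Q92.ZC.lmul t_intp
theorem t_l0 : S_L0 := Pool.Agent.Q241.ZC.l0 t_emb t_lan t_trn t_intp
theorem t_l1 : S_L1 := Pool.Agent.Q241.ZC.l1 t_emb t_lan t_trn t_intp t_tei t_qdv
theorem t_zex : S_ZEX := Pool.Agent.Q299.ZC.zex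
theorem t_dec : S_DEC := Pool.Agent.Q150.ZC.dec t_nrm
theorem t_pl : S_PL := Pool.Agent.Q241.ZC.pl
theorem t_trau : S_TRAU := Pool.Agent.Q241.ZC.trau t_pl t_unr
theorem t_trap : S_TRAP := Pool.Agent.Q241.ZC.trap t_pl t_unr
theorem t_trar : S_TRAR := Pool.Agent.Q241.ZC.trar t_pl t_unr t_apx
theorem t_epr : S_EPR := Pool.Agent.Q299.ZC.epr
theorem t_n1r : S_N1R := Pool.Agent.Q299.ZC.n1r
theorem t_lrg : S_LRG := Pool.Agent.Q195.ZC.lrg

end Pool.Agent.Q51.ZC
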