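import Pool.Agent.Q51.ZC.Def

/-! # Project ZC: basic facts on evaluations -/

set_option autoImplicit false

namespace Pool.Agent.Q51.ZC

open Polynomial NumberField IsDedekindDomain Finset
open Pool.Agent.Q51.SE (Alg cl Point IsValue IsUnitAt)

section ev

variable {f : ℤ[X]} {F E : Type} [Field F] [Field E] (i : F →+* E) {ρ : E}

/-- `ρ` is a zero of `f` -/
def IsZ (f : ℤ[X]) {E : Type} [Field E] (ρ : E) : Prop := (f.map (Int.castRingHom E)).IsRoot ρ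

lemma eval2_map (ρ : E) : (f.map (Int.castRingHom F)).eval₂ i ρ = (f.map (Int.castRingHom E)).eval ρ := by
  rw [eval₂_map, eval_map]
  congr 1
  exact RingHom.ext_int _ _

lemma isZ_iff (ρ : E) : IsZ f ρ ↔ (f.map (Int.castRingHom F)).eval₂ i ρ = 0 := by
  rw [eval2_map]
  rfl

/-- the evaluation is a homomorphism of rings at the zeros of `f` -/
lemma ev_hom (h : IsZ f ρ) : ∃ φ : Alg f F →+* E, (∀ A, ev f i ρ A = φ A) ∧
    ∀ g : F[X], φ (cl f F g) = g.eval₂ i ρ := by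
  have h' := (isZ_iff (F := F) i ρ).mp h
  refine ⟨AdjoinRoot.lift i ρ h', fun A => ?_, fun g => ?_⟩
  · unfold ev
    rw [dif_pos h']
  · unfold cl
    exact AdjoinRoot.lift_mk _ _

lemma ev_cl (h : IsZ f ρ) (g : F[X]) : ev f i ρ (cl f F g) = g.eval₂ i ρ := by
  obtain ⟨φ, h1, h2⟩ := ev_hom i h
  rw [h1, h2]

lemma ev_mul (h : IsZ f ρ) (A B : Alg f F) : ev f i ρ (A * B) = ev f i ρ A * ev f i ρ B := by
  obtain ⟨φ, h1, -⟩ := ev_hom i h
  rw [h1, h1, h1, map_mul]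

lemma ev_sub (h : IsZ f ρ) (A B : Alg f F) : ev f i ρ (A - B) = ev f i ρ A - ev f i ρ B := by
  obtain ⟨φ, h1, -⟩ := ev_hom i h
  rw [h1, h1, h1, map_sub]

lemma ev_add (h : IsZ f ρ) (A B : Alg f F) : ev f i ρ (A + B) = ev f i ρ A + ev f i ρ B := by
  obtain ⟨φ, h1, -⟩ := ev_hom i h
  rw [h1, h1, h1, map_add]

lemma ev_one (h : IsZ f ρ) : ev f i ρ 1 = 1 := by
  obtain ⟨φ, h1, -⟩ := ev_hom i h
  rw [h1, map_one]

lemma ev_zero (h : IsZ f ρ) : ev f i ρ 0 = 0 := by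
  obtain ⟨φ, h1, -⟩ := ev_hom i h
  rw [h1, map_zero]

lemma ev_pow (h : IsZ f ρ) (A : Alg f F) (n : ℕ) : ev f i ρ (A ^ n) = ev f i ρ A ^ n := by
  obtain ⟨φ, h1, -⟩ := ev_hom i h
  rw [h1, h1, map_pow]

lemma ev_ne (h : IsZ f ρ) (A : (Alg f F)ˣ) : ev f i ρ A ≠ 0 := by
  intro h0
  have h1 := ev_mul i h (A : Alg f F) ((A⁻¹ : (Alg f F)ˣ) : Alg f F)
  rw [Units.mul_inv, ev_one i h, h0, zero_mul] at h1
  exact one_ne_zero h1

lemma ev_inv (h : IsZ f ρ) (A : (Alg f F)ˣ) :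
    ev f i ρ ((A⁻¹ : (Alg f F)ˣ) : Alg f F) = (ev f i ρ A)⁻¹ := by
  have h1 := ev_mul i h (A : Alg f F) ((A⁻¹ : (Alg f F)ˣ) : Alg f F)
  rw [Units.mul_inv, ev_one i h] at h1
  exact (inv_eq_of_mul_eq_one_right h1.symm).symm

lemma ev_zpow (h : IsZ f ρ) (A : (Alg f F)ˣ) (n : ℤ) :
    ev f i ρ ((A ^ n : (Alg f F)ˣ) : Alg f F) = ev f i ρ A ^ n := by
  rcases n with n | n
  · rw [Int.ofNat_eq_natCast, zpow_natCast, zpow_natCast, Units.val_pow_eq_pow_val, ev_pow i h]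
  · rw [zpow_negSucc, zpow_negSucc, ev_inv i h, Units.val_pow_eq_pow_val, ev_pow i h]

lemma ev_algebraMap (h : IsZ f ρ) (c : F) : ev f i ρ (algebraMap F (Alg f F) c) = i c := by
  have h1 : algebraMap F (Alg f F) c = cl f F (C c) := rfl
  rw [h1, ev_cl i h, eval₂_C]

/-- change of fields -/
lemma ev_comp {E' : Type} [Field E'] (j : E →+* E') (h : IsZ f ρ) (A : Alg f F) :
    ev f (j.comp i) (j ρ) A = j (ev f i ρ A) := by
  have h' : IsZ f (j ρ) := by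
    have h1 := (isZ_iff (F := F) i ρ).mp h
    rw [isZ_iff (F := F) (j.comp i), ← hom_eval₂, h1, map_zero]
  obtain ⟨φ, h1, h2⟩ := ev_hom i h
  obtain ⟨ψ, h3, h4⟩ := ev_hom (j.comp i) h'
  obtain ⟨g, rfl⟩ := AdjoinRoot.mk_surjective A
  have h5 := h2 g
  have h6 := h4 g
  unfold cl at h5 h6
  rw [h1, h3, h5, h6, hom_eval₂]

end ev

section l

variable {f : ℤ[X]} {l : ℕ} [Fact l.Prime]

lemma mem_Rt (hf : f ≠ 0) (ρ : Om l) : ρ ∈ Rt f l ↔ IsZ f ρ := by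
  classical
  unfold Rt
  rw [Multiset.mem_toFinset, mem_roots']
  constructor
  · exact fun h => h.2
  · intro h
    exact ⟨by
      intro h0
      exact hf (map_injective _ (RingHom.injective_int (Int.castRingHom (Om l))) (by rw [h0, Polynomial.map_zero])), h⟩

lemma isZ_of_mem {ρ : Om l} (h : ρ ∈ Rt f l) : IsZ f ρ := by
  classical
  unfold Rt at h
  rw [Multiset.mem_toFinset, mem_roots'] at h
  exact h.2

lemma aut_mem {ρ : Om l} (g : Om l ≃ₐ[ℚ_[l]] Om l) (h : ρ ∈ Rt f l) : g ρ ∈ Rt f l := by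
  classical
  unfold Rt at h ⊢
  rw [Multiset.mem_toFinset, mem_roots'] at h ⊢
  refine ⟨h.1, ?_⟩
  have h1 := h.2
  unfold IsRoot at h1 ⊢
  have h2 : (f.map (Int.castRingHom (Om l))).eval (g ρ) =
      g ((f.map (Int.castRingHom (Om l))).eval ρ) := by
    rw [eval_map, eval_map]
    have := hom_eval₂ f (Int.castRingHom (Om l)) (g : Om l →+* Om l) ρ
    rw [RingHom.coe_coe] at this
    rw [this]
    congr 1
    exact RingHom.ext_int _ _
  rw [h2, h1, map_zero]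

lemma evl_aut {ρ : Om l} (g : Om l ≃ₐ[ℚ_[l]] Om l) (h : ρ ∈ Rt f l) (A : Alg f ℚ_[l]) :
    evl f l (g ρ) A = g (evl f l ρ A) := by
  unfold evl
  have h1 := ev_comp (algebraMap ℚ_[l] (Om l)) (g : Om l →+* Om l) (isZ_of_mem h) A
  rw [RingHom.coe_coe] at h1
  rw [← h1]
  congr 1
  ext x
  simp

lemma norm_aut (g : Om l ≃ₐ[ℚ_[l]] Om l) (x : Om l) : ‖g x‖ = ‖x‖ := by
  have h := spectralNorm_eq_of_equiv (K := ℚ_[l]) g x
  rw [PadicAlgCl.spectralNorm_eq, PadicAlgCl.spectralNorm_eq] at h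
  exact h.symm

lemma norm_ext (x : ℚ_[l]) : ‖algebraMap ℚ_[l] (Om l) x‖ = ‖x‖ := PadicAlgCl.norm_extends l x

/-! The relation `‖a - b‖ < ‖a‖` is a congruence for the multiplication -/

lemma norm_eq_of_lt {a b : Om l} (h : ‖a - b‖ < ‖a‖) : ‖b‖ = ‖a‖ := by
  have h1 : b = a + (b - a) := by ring
  have h2 : a = b + (a - b) := by ring
  have h3 : ‖b‖ ≤ max ‖a‖ ‖b - a‖ := by
    conv_lhs => rw [h1]
    exact PadicAlgCl.isNonarchimedean l _ _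
  have h4 : ‖a‖ ≤ max ‖b‖ ‖a - b‖ := by
    conv_lhs => rw [h2]
    exact PadicAlgCl.isNonarchimedean l _ _
  rw [norm_sub_rev b a] at h3
  rcases le_max_iff.mp h4 with h5 | h5
  · exact le_antisymm (h3.trans (max_le le_rfl h.le)) h5
  · exact absurd h5 (not_le.mpr h)

lemma ap_symm {a b : Om l} (h : ‖a - b‖ < ‖a‖) : ‖b - a‖ < ‖b‖ := by
  rw [norm_sub_rev, norm_eq_of_lt h]
  exact h

lemma ap_trans {a b c : Om l} (h : ‖a - b‖ < ‖a‖) (h' : ‖b - c‖ < ‖b‖) : ‖a - c‖ < ‖a‖ := by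
  have h1 : a - c = (a - b) + (b - c) := by ring
  rw [h1]
  refine lt_of_le_of_lt (PadicAlgCl.isNonarchimedean l _ _) ?_
  rw [norm_eq_of_lt h] at h'
  exact max_lt h h'

lemma ap_mul {a b c d : Om l} (h : ‖a - b‖ < ‖a‖) (h' : ‖c - d‖ < ‖c‖) : ‖a * c - b * d‖ < ‖a * c‖ := by
  have h1 : a * c - b * d = (a - b) * c + b * (c - d) := by ring
  rw [h1]
  refine lt_of_le_of_lt (PadicAlgCl.isNonarchimedean l _ _) ?_
  have ha : 0 < ‖a‖ := lt_of_le_of_lt (norm_nonneg _) h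
  have hc : 0 < ‖c‖ := lt_of_le_of_lt (norm_nonneg _) h'
  refine max_lt ?_ ?_
  · rw [norm_mul, norm_mul]
    exact mul_lt_mul_of_pos_right h hc
  · rw [norm_mul, norm_mul, norm_eq_of_lt h]
    exact mul_lt_mul_of_pos_left h' ha

lemma ap_inv {a b : Om l} (h : ‖a - b‖ < ‖a‖) : ‖a⁻¹ - b⁻¹‖ < ‖a⁻¹‖ := by
  have ha : 0 < ‖a‖ := lt_of_le_of_lt (norm_nonneg _) h
  have ha0 : a ≠ 0 := norm_pos_iff.mp ha
  have hb0 : b ≠ 0 := norm_pos_iff.mp (by rw [norm_eq_of_lt h]; exact ha)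
  have h1 : a⁻¹ - b⁻¹ = a⁻¹ * b⁻¹ * (b - a) := by
    field_simp
  rw [h1, norm_mul, norm_mul, norm_sub_rev, norm_inv, norm_inv, norm_eq_of_lt h]
  calc ‖a‖⁻¹ * ‖a‖⁻¹ * ‖a - b‖ < ‖a‖⁻¹ * ‖a‖⁻¹ * ‖a‖ := by
        apply mul_lt_mul_of_pos_left h (by positivity)
    _ = ‖a‖⁻¹ := by field_simp

lemma ap_refl {a : Om l} (h : a ≠ 0) : ‖a - a‖ < ‖a‖ := by
  rw [sub_self, norm_zero]
  exact norm_pos_iff.mpr h

lemma ap_pow {a b : Om l} (h : ‖a - b‖ < ‖a‖) (n : ℕ) : ‖a ^ n - b ^ n‖ < ‖a ^ n‖ := by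
  induction n with
  | zero => simp
  | succ n ih => rw [pow_succ, pow_succ]; exact ap_mul ih h

lemma ap_zpow {a b : Om l} (h : ‖a - b‖ < ‖a‖) (n : ℤ) : ‖a ^ n - b ^ n‖ < ‖a ^ n‖ := by
  rcases n with n | n
  · rw [Int.ofNat_eq_natCast, zpow_natCast, zpow_natCast]; exact ap_pow h n
  · rw [zpow_negSucc, zpow_negSucc]; exact ap_inv (ap_pow h (n + 1))

lemma ap_prod {ι : Type*} (s : Finset ι) {a b : ι → Om l} (h : ∀ j ∈ s, ‖a j - b j‖ < ‖a j‖) :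
    ‖∏ j ∈ s, a j - ∏ j ∈ s, b j‖ < ‖∏ j ∈ s, a j‖ := by
  classical
  induction s using Finset.induction_on with
  | empty => simp
  | insert j s hj ih =>
    rw [prod_insert hj, prod_insert hj]
    exact ap_mul (h j (mem_insert_self _ _)) (ih fun k hk => h k (mem_insert_of_mem hk))

end l

end Pool.Agent.Q51.ZC
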