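import Pool.Agent.Q51.SE.Stm

/-!
# Project ZC (helper51): zero-cycles on the everywhere locally soluble Fermat curves, definitions

`n ≥ 3` odd, `a X ^ n + b` irreducible over `ℚ`, `C_D : D y ^ n = a x ^ n + b w ^ n`, `q` a prime factor of `n`.

GOAL.  For all but a proportion `O((log X) ^ (-δ))` of the squarefree `D`, `|D| ≤ X`, for which `C_D` is
everywhere locally soluble, no family of local zero-cycles of `C_D` of a degree prime to `q` is orthogonal to the
Brauer classes `A_χ = Cor_{L/ℚ} (χ, x ^ r - θ w ^ r)` (`r = n/q`, `L = ℚ(θ)`, `a θ ^ q + b = 0`, `χ` an idele class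
character of order `q` of `L`, trivial on the ideles of `ℚ`); so all closed points of `C_D` have degree divisible
by `q`.

This file: definitions for Part A (sieve) and Part B (local zero-cycles).
-/

set_option autoImplicit false

namespace Pool.Agent.Q51.ZC

open Polynomial NumberField IsDedekindDomain Finset
open Pool.Agent.Q51.EL (Abv N1 pr Setup Gf)
open Pool.Agent.Q51.SE (Parq Zc Alg cl Point IsValue IsUnitAt IdeleCharacter factPrime)

section L

variable {L : Type} [Field L] [NumberField L]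

/-- the degree of the residue field of the prime `v` above `l` -/
noncomputable def dg (l : ℕ) (v : HeightOneSpectrum (𝓞 L)) : ℕ :=
  padicValNat l (Ideal.absNorm v.asIdeal)

variable (L) in
open Classical in
/-- the primes above `l` (a finite set for `l ≠ 0`) -/
noncomputable def ab (l : ℕ) : Finset (HeightOneSpectrum (𝓞 L)) :=
  if h : {v : HeightOneSpectrum (𝓞 L) | Abv v l}.Finite then h.toFinset else ∅

/-- the valuations of `δ` at the primes above `l` are given by `M` modulo `q` -/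
def VecP (q l : ℕ) (δ : L) (M : HeightOneSpectrum (𝓞 L) → ℤ) : Prop :=
  ∀ v : HeightOneSpectrum (𝓞 L), Abv v l → Parq q v δ (M v)

/-- `∑ f_v M_v ≡ 1` modulo `q` -/
def Deg1 (q l : ℕ) (M : HeightOneSpectrum (𝓞 L) → ℤ) : Prop :=
  (q : ℤ) ∣ ∑ v ∈ ab L l, (dg l v : ℤ) * M v - 1

/-- `δ' = s1 * s2 ^ (M v) * g ^ q * δ` up to factors `≡ 1` modulo `v`, for all `v` above `l`; here `s1, s2` are
rational, `s2` is a unit at `l`, and `g` may depend on `v` -/
def Rel (q l : ℕ) (M : HeightOneSpectrum (𝓞 L) → ℤ) (δ δ' : L) : Prop :=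
  ∃ s1 s2 : ℚ, s1 ≠ 0 ∧ s2 ≠ 0 ∧ padicValRat l s2 = 0 ∧
    ∀ v : HeightOneSpectrum (𝓞 L), Abv v l → ∃ g : L, g ≠ 0 ∧
      v.valuation L (δ' - (s1 : L) * (s2 : L) ^ (M v) * g ^ q * δ) < v.valuation L δ'

variable (L) in
/-- a lower bound for the index of the subgroup of `(𝓞 / l)^*` given by the local conditions at `l` -/
noncomputable def ind (q l : ℕ) : ℝ :=
  if l % q = 1 then (q : ℝ) ^ (((ab L l).card : ℤ) - 2) else (q : ℝ) ^ (((ab L l).card : ℤ) - 1)

end L

/-- the ratio of the number of the possible vectors of valuations to `ind` -/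
noncomputable def kap (q l : ℕ) : ℝ := if l % q = 1 then 1 else 1 / (q : ℝ)

/-- the product of the primes `≤ z` dividing `m` -/
noncomputable def smo (z : ℝ) (m : ℕ) : ℕ := ∏ l ∈ m.primeFactors.filter (fun l : ℕ => (l : ℝ) ≤ z), l

/-! ## Part B -/

/-- the polynomial `a X ^ n + b` -/
noncomputable def fq (a b : ℤ) (n : ℕ) : ℤ[X] := C a * X ^ n + C b

/-- the algebraic closure of `ℚ_l`, a normed field -/
abbrev Om (l : ℕ) [Fact l.Prime] : Type := PadicAlgCl l

/-- evaluation `F[X]/(f) → E` at a zero `ρ` of `f` (and the homomorphism `i` of fields) -/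
noncomputable def ev (f : ℤ[X]) {F E : Type} [Field F] [Field E] (i : F →+* E) (ρ : E)
    (A : Alg f F) : E :=
  open Classical in
  if h : (f.map (Int.castRingHom F)).eval₂ i ρ = 0 then AdjoinRoot.lift i ρ h A else 0

/-- evaluation `ℚ_l[X]/(f) → Om l` at a zero `ρ` of `f` -/
noncomputable def evl (f : ℤ[X]) (l : ℕ) [Fact l.Prime] (ρ : Om l) (A : Alg f ℚ_[l]) : Om l :=
  ev f (algebraMap ℚ_[l] (Om l)) ρ A

open Classical in
/-- the zeros of `f` in `Om l` -/
noncomputable def Rt (f : ℤ[X]) (l : ℕ) [Fact l.Prime] : Finset (Om l) :=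
  (f.map (Int.castRingHom (Om l))).roots.toFinset

/-- `f` is good at the prime `l`: the leading coefficient is a unit, the zeros are integral and pairwise
incongruent -/
structure GoodAt (f : ℤ[X]) (l : ℕ) [Fact l.Prime] : Prop where
  lead : ¬ (l : ℤ) ∣ f.leadingCoeff
  card : (Rt f l).card = f.natDegree
  int : ∀ ρ ∈ Rt f l, ‖ρ‖ ≤ 1
  diff : ∀ ρ ∈ Rt f l, ∀ ρ' ∈ Rt f l, ρ ≠ ρ' → ‖ρ - ρ'‖ = 1

/-- the homomorphism `k[X]/(f) → K[X]/(f)` -/
noncomputable def bas (f : ℤ[X]) (k K : Type) [Field k] [Field K] [Algebra k K] :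
    Alg f k →+* Alg f K :=
  AdjoinRoot.map (algebraMap k K) (f.map (Int.castRingHom k)) (f.map (Int.castRingHom K)) (by
    rw [Polynomial.map_map]
    exact dvd_of_eq (congrArg (fun i => f.map i) (RingHom.ext_int _ _)))

/-- the norm from `K[X]/(f) = K ⊗ k[X]/(f)` to `k[X]/(f)` -/
noncomputable def nrm (f : ℤ[X]) (k K : Type) [Field k] [Field K] [Algebra k K] :
    Alg f K →* Alg f k :=
  letI := (bas f k K).toAlgebra
  Algebra.norm (Alg f k)

/-- A closed point, with coordinates in a finite extension `K` of `ℚ_p`, of the curve `D y ^ m = F(x, w)`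
over `ℚ_p`. -/
structure LPt (f : ℤ[X]) (m : ℕ) (D : ℤ) (p : ℕ) [Fact p.Prime] where
  /-- the field -/
  K : Type
  [fld : Field K]
  [alg : Algebra ℚ_[p] K]
  [fin : FiniteDimensional ℚ_[p] K]
  /-- the point -/
  pt : Point f m D K

attribute [instance] LPt.fld LPt.alg LPt.fin

/-- the degree of the closed point -/
noncomputable def LPt.deg {f : ℤ[X]} {m : ℕ} {D : ℤ} {p : ℕ} [Fact p.Prime] (P : LPt f m D p) : ℕ :=
  Module.finrank ℚ_[p] P.K

/-- `A` is the norm of a value of `x - θ w` at the point -/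
def LPt.IsVal {f : ℤ[X]} {m : ℕ} {D : ℤ} {p : ℕ} [Fact p.Prime] (q : ℕ) (P : LPt f m D p)
    (A : (Alg f ℚ_[p])ˣ) : Prop :=
  ∃ b : (Alg f P.K)ˣ, IsValue q P.pt b ∧ A = Units.map (nrm f ℚ_[p] P.K) b

/-- `M` is invariant under the automorphisms of `Om l` over `ℚ_l` -/
def GInv (l : ℕ) [Fact l.Prime] (M : Om l → ℤ) : Prop :=
  ∀ (g : Om l ≃ₐ[ℚ_[l]] Om l) (ρ : Om l), M (g ρ) = M ρ

/-- `A` is a rational number times a `q`-th power times a unit -/
def LocU (f : ℤ[X]) (q l : ℕ) [Fact l.Prime] (A : (Alg f ℚ_[l])ˣ) : Prop :=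
  ∃ (c : (ℚ_[l])ˣ) (κ : (Alg f ℚ_[l])ˣ), ∀ ρ ∈ Rt f l,
    ‖evl f l ρ A‖ = ‖(c : ℚ_[l])‖ * ‖evl f l ρ κ‖ ^ q

open Classical in
/-- the value of `x - θ w` at the divisor `∑ M ρ * (ρ, 0)` of branch points, in the component `ρ` -/
noncomputable def Wf (f : ℤ[X]) (l : ℕ) [Fact l.Prime] (D : ℤ) (M : Om l → ℤ) (ρ : Om l) : Om l :=
  (∏ ρ' ∈ (Rt f l).erase ρ, (ρ' - ρ) ^ M ρ') *
    ((D : Om l) / ((f.leadingCoeff : Om l) * ∏ ρ' ∈ (Rt f l).erase ρ, (ρ - ρ'))) ^ M ρ

/-- `A` is, up to a rational number, a `q`-th power and factors `≡ 1`, the value at a divisor of branch points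
of degree congruent to `d` modulo `q` -/
def LocP (f : ℤ[X]) (q l : ℕ) [Fact l.Prime] (D : ℤ) (A : (Alg f ℚ_[l])ˣ) (d : ℤ) : Prop :=
  ∃ (M : Om l → ℤ) (c : (ℚ_[l])ˣ) (κ : (Alg f ℚ_[l])ˣ), GInv l M ∧
    (q : ℤ) ∣ ∑ ρ ∈ Rt f l, M ρ - d ∧
    ∀ ρ ∈ Rt f l, ‖evl f l ρ A -
      algebraMap ℚ_[l] (Om l) (c : ℚ_[l]) * evl f l ρ κ ^ q * Wf f l D M ρ‖ < ‖evl f l ρ A‖

end Pool.Agent.Q51.ZC
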