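import Pool.Agent.Q86.ZC.Grp
import Pool.Agent.Q86.ZC.Two

/-! # Project ZC: one fibre (fixed sign, fixed part dividing `B`, fixed `m`, fixed valuations) -/

set_option autoImplicit false

namespace Pool.Agent.Q51.ZC

open Polynomial NumberField IsDedekindDomain Finset
open Pool.Agent.Q51.EL (Abv N1 pr Setup Gf)
open Pool.Agent.Q51.SE (Parq Zc)
open Pool.Agent.Q86.ZC (ratc parq_div val_nat_one val_nat_self)
open Pool.Agent.Q239.EL (prime_unique int_mem_iff mem_finite coe_ne nat_coe)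

/-- `S_GRP` with hypotheses only at the primes not dividing the final `B` -/
def S_GRP2 : Prop := ∀ (L : Type) [Field L] [NumberField L] (q : ℕ), 2 ≤ q → ∀ B0 : ℕ, B0 ≠ 0 →
  (∀ l : ℕ, l.Prime → ¬ l ∣ B0 → Squarefree (Ideal.span {(l : 𝓞 L)})) →
  ∃ (B N0 : ℕ) (C : ℝ), B ≠ 0 ∧ B0 ∣ B ∧ 0 < C ∧ 0 < N0 ∧
  ∀ (m : ℕ) (M : HeightOneSpectrum (𝓞 L) → ℤ) (𝒬 : Set ℕ) (δ : ℕ → L)
    (v0 : ℕ → HeightOneSpectrum (𝓞 L)), m ≠ 0 →
  (∀ p ∈ 𝒬, p.Prime ∧ ¬ p ∣ B ∧ ¬ p ∣ m ∧ δ p ≠ 0 ∧ Abv (v0 p) p ∧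
    (∀ l : ℕ, l.Prime → ¬ l ∣ B → ¬ l ∣ m → l ≠ p → ∃ e : ℤ, VecP q l (δ p) (fun _ => e)) ∧
    (∀ l : ℕ, l.Prime → ¬ l ∣ B → l ∣ m → ∃ e : ℤ, VecP q l (δ p) (fun v => M v + e)) ∧
    ∃ e : ℤ, Parq q (v0 p) (δ p) (e + 1) ∧
      ∀ v : HeightOneSpectrum (𝓞 L), Abv v p → v ≠ v0 p → Parq q v (δ p) e) →
  ∃ (κ : ℕ → Fin N0) (γ : ℕ → 𝓞 L), ∀ p ∈ 𝒬, γ p ≠ 0 ∧ γ p ∈ (v0 p).asIdeal ∧
    (∀ v : HeightOneSpectrum (𝓞 L), (B : 𝓞 L) ∉ v.asIdeal → v ≠ v0 p → γ p ∉ v.asIdeal) ∧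
    (∀ σ : L →+* ℂ, ‖σ (γ p : L)‖ ≤
      C * ((Ideal.absNorm (v0 p).asIdeal : ℕ) : ℝ) ^ ((1 : ℝ) / Module.finrank ℚ L)) ∧
    ∀ p' ∈ 𝒬, κ p = κ p' → ∃ (c : ℚ) (η : L), c ≠ 0 ∧ η ≠ 0 ∧
      (γ p' : L) * δ p * (c : L) * η ^ q = δ p' * γ p

theorem grp2 (h1 : S_PRN) (h2 : S_SELF) : S_GRP2 := by
  classical
  intro L _ _ q hq B0 hB0 hsq
  obtain ⟨B1, C, hB1, hC, hpr⟩ := h1 L
  choose g hg0 hg1 hg2 hg3 hg4 using hpr
  have hB : B0 * B1 ≠ 0 := mul_ne_zero hB0 hB1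
  obtain ⟨F, hF⟩ := h2 L q hq (B0 * B1) hB
  have hFne : F.Nonempty := by
    obtain ⟨y, hy, -⟩ := hF 1 one_ne_zero (fun v _ => ⟨0, by simp⟩)
    exact ⟨y, hy⟩
  refine ⟨B0 * B1, F.card, C, hB, Dvd.intro _ rfl, hC, Finset.card_pos.mpr hFne, ?_⟩
  intro m M 𝒬 δ v0 hm hQ
  have hB0v : ∀ v : HeightOneSpectrum (𝓞 L), ((B0 * B1 : ℕ) : 𝓞 L) ∉ v.asIdeal →
      (B0 : 𝓞 L) ∉ v.asIdeal ∧ (B1 : 𝓞 L) ∉ v.asIdeal := by
    intro v hv
    rw [Nat.cast_mul] at hv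
    exact ⟨fun h => hv (Ideal.mul_mem_right _ _ h), fun h => hv (Ideal.mul_mem_left _ _ h)⟩
  have hsq' : ∀ l : ℕ, l.Prime → ¬ l ∣ B0 * B1 → Squarefree (Ideal.span {(l : 𝓞 L)}) :=
    fun l hl hlB => hsq l hl (fun h => hlB (h.mul_right _))
  set M' : HeightOneSpectrum (𝓞 L) → ℤ := fun v => if (m : 𝓞 L) ∈ v.asIdeal then M v else 0
    with hM'
  have hmv : ∀ (l : ℕ) (v : HeightOneSpectrum (𝓞 L)), l.Prime → Abv v l →
      ((m : 𝓞 L) ∈ v.asIdeal ↔ l ∣ m) := by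
    intro l v hl hv
    have h3 := int_mem_iff hl hv (m : ℤ)
    rw [Int.cast_natCast] at h3
    rw [h3]
    exact Int.natCast_dvd_natCast
  -- the normalized elements
  have key : ∀ p ∈ 𝒬, ∃ c : ℚ, c ≠ 0 ∧ ∀ v : HeightOneSpectrum (𝓞 L),
      ((B0 * B1 : ℕ) : 𝓞 L) ∉ v.asIdeal → Parq q v ((c : L) * δ p / (g (v0 p) : L)) (M' v) := by
    intro p hp
    obtain ⟨hpp, hpB, hpm, hδ, hA, hout, hin, e0, he0, he0'⟩ := hQ p hp
    obtain ⟨c, hc, hcv⟩ := ratc (q := q) hsq' hδ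
      (fun v => (if v = v0 p then 1 else 0) + M' v) (by
        refine ((Set.finite_singleton (v0 p)).union
          (mem_finite (x := (m : 𝓞 L)) (by exact_mod_cast hm))).subset ?_
        intro v hv
        by_contra hcon
        rw [Set.mem_union, not_or] at hcon
        apply hv
        have h3 : ¬ v = v0 p := hcon.1
        have h4 : ¬ (m : 𝓞 L) ∈ v.asIdeal := hcon.2
        simp [hM', h3, h4]) (by
        intro l hl hlB
        by_cases hlp : l = p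
        · subst hlp
          refine ⟨e0, fun v hv => ?_⟩
          have h3 : M' v = 0 := by
            simp only [hM']
            rw [if_neg (fun h => hpm ((hmv l v hl hv).mp h))]
          rw [h3]
          by_cases hvv : v = v0 l
          · rw [if_pos hvv, hvv, add_zero, add_comm]
            exact he0
          · rw [if_neg hvv, add_zero, zero_add]
            exact he0' v hv hvv
        · have hvv : ∀ v : HeightOneSpectrum (𝓞 L), Abv v l → ¬ v = v0 p := by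
            intro v hv h3
            rw [h3] at hv
            exact hlp (prime_unique hl hpp hv hA)
          by_cases hlm : l ∣ m
          · obtain ⟨e, he⟩ := hin l hl hlB hlm
            refine ⟨e, fun v hv => ?_⟩
            have h3 : M' v = M v := by
              simp only [hM']
              rw [if_pos ((hmv l v hl hv).mpr hlm)]
            rw [h3, if_neg (hvv v hv), zero_add]
            exact he v hv
          · obtain ⟨e, he⟩ := hout l hl hlB hlm hlp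
            refine ⟨e, fun v hv => ?_⟩
            have h3 : M' v = 0 := by
              simp only [hM']
              rw [if_neg (fun h => hlm ((hmv l v hl hv).mp h))]
            rw [h3, if_neg (hvv v hv), zero_add, zero_add]
            exact he v hv)
    refine ⟨c, hc, fun v hv => ?_⟩
    obtain ⟨hv1, hv2⟩ := hB0v v hv
    have h3 : Parq q v (g (v0 p) : L) (if v = v0 p then 1 else 0) := by
      refine ⟨0, ?_⟩
      by_cases hvv : v = v0 p
      · rw [if_pos hvv, hvv, hg3 (v0 p) (hvv ▸ hv2)]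
        norm_num
      · rw [if_neg hvv, (HeightOneSpectrum.valuation_eq_one_iff_notMem v).mpr
          (hg2 (v0 p) v hv2 hvv)]
        simp
    have h4 := parq_div (hcv v hv) h3
    simpa using h4
  rcases Set.eq_empty_or_nonempty 𝒬 with hemp | ⟨p0, hp0⟩
  · refine ⟨fun _ => ⟨0, Finset.card_pos.mpr hFne⟩, fun _ => 0, fun p hp => ?_⟩
    rw [hemp] at hp
    exact absurd hp (Set.notMem_empty p)
  choose! c hc0 hc1 using key
  have hgL : ∀ v, (g v : L) ≠ 0 := fun v => coe_ne (hg0 v)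
  have hδ0 : ∀ p ∈ 𝒬, δ p ≠ 0 := fun p hp => (hQ p hp).2.2.2.1
  have hcL : ∀ p ∈ 𝒬, (c p : L) ≠ 0 := fun p hp => by
    have := hc0 p hp
    exact_mod_cast this
  set z : ℕ → L := fun p => (c p : L) * δ p / (g (v0 p) : L) with hz
  have hz0 : ∀ p ∈ 𝒬, z p ≠ 0 := fun p hp =>
    div_ne_zero (mul_ne_zero (hcL p hp) (hδ0 p hp)) (hgL _)
  have hcl : ∀ p ∈ 𝒬, ∃ y ∈ F, ∃ η : L, η ≠ 0 ∧ z p / z p0 = y * η ^ q := by
    intro p hp
    refine hF _ (div_ne_zero (hz0 p hp) (hz0 p0 hp0)) fun v hv => ?_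
    have h3 := parq_div (hc1 p hp v hv) (hc1 p0 hp0 v hv)
    rw [sub_self] at h3
    exact h3
  choose! y hyF η hη hyη using hcl
  let eF : F ≃ Fin F.card := F.equivFin
  refine ⟨fun p => if hp : p ∈ 𝒬 then eF ⟨y p, hyF p hp⟩ else ⟨0, Finset.card_pos.mpr hFne⟩,
    fun p => g (v0 p), fun p hp => ⟨hg0 _, hg1 _, fun v hv hvv => hg2 _ v (hB0v v hv).2 hvv,
      fun σ => hg4 _ σ, fun p' hp' hκ => ?_⟩⟩
  simp only [dif_pos hp, dif_pos hp'] at hκ
  have hyy : y p = y p' := by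
    have := eF.injective hκ
    exact congrArg Subtype.val this
  have e1 := hyη p hp
  have e2 := hyη p' hp'
  rw [← hyy] at e2
  have hy0 : y p ≠ 0 := by
    intro h0
    rw [h0, zero_mul] at e1
    exact div_ne_zero (hz0 p hp) (hz0 p0 hp0) e1
  refine ⟨c p / c p', η p' / η p, div_ne_zero (hc0 p hp) (hc0 p' hp'),
    div_ne_zero (hη p' hp') (hη p hp), ?_⟩
  have e3 : z p' * η p ^ q = z p * η p' ^ q := by
    have h3 : z p' = y p * η p' ^ q * z p0 := by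
      rw [← e2, div_mul_cancel₀ _ (hz0 p0 hp0)]
    have h4 : z p = y p * η p ^ q * z p0 := by
      rw [← e1, div_mul_cancel₀ _ (hz0 p0 hp0)]
    rw [h3, h4]
    ring
  simp only [hz] at e3
  have a1 := hgL (v0 p)
  have a2 := hgL (v0 p')
  have a3 := hcL p' hp'
  have a4 := hη p hp
  rw [div_pow]
  push_cast
  field_simp at e3 ⊢
  linear_combination -e3

section
variable {L : Type} [Field L] [NumberField L]

/-- the relation `Rel` passes from `δ` to `γ` -/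
lemma rel_pass {q l : ℕ} {M : HeightOneSpectrum (𝓞 L) → ℤ} {δ δ' γ γ' : L}
    (h : Rel q l M δ δ') {c : ℚ} {η : L} (hc : c ≠ 0) (hη : η ≠ 0) (hδ : δ ≠ 0) (hγ : γ ≠ 0)
    (he : γ' * δ * (c : L) * η ^ q = δ' * γ) : Rel q l M γ γ' := by
  obtain ⟨s1, s2, h1, h2, h3, h4⟩ := h
  have hcL : (c : L) ≠ 0 := by exact_mod_cast hc
  refine ⟨s1 / c, s2, div_ne_zero h1 hc, h2, h3, fun v hv => ?_⟩
  obtain ⟨g, hg, hlt⟩ := h4 v hv
  refine ⟨g / η, div_ne_zero hg hη, ?_⟩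
  have h5 : γ' = γ / (δ * c * η ^ q) * δ' := by
    field_simp
    linear_combination he
  have h6 : γ' - ((s1 / c : ℚ) : L) * (s2 : L) ^ (M v) * (g / η) ^ q * γ =
      γ / (δ * c * η ^ q) * (δ' - (s1 : L) * (s2 : L) ^ (M v) * g ^ q * δ) := by
    rw [h5, div_pow]
    push_cast
    field_simp
  rw [h6, h5, map_mul, map_mul]
  have h7 : γ / (δ * c * η ^ q) ≠ 0 :=
    div_ne_zero hγ (mul_ne_zero (mul_ne_zero hδ hcL) (pow_ne_zero _ hη))
  have h8 : 0 < v.valuation L (γ / (δ * c * η ^ q)) := by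
    rw [zero_lt_iff]
    exact (Valuation.ne_zero_iff _).mpr h7
  exact mul_lt_mul_of_pos_left hlt h8

lemma parq_congr {q : ℕ} {v : HeightOneSpectrum (𝓞 L)} {x : L} {e e' : ℤ} (h : Parq q v x e)
    (he : (q : ℤ) ∣ e - e') : Parq q v x e' := by
  obtain ⟨k, hk⟩ := h
  obtain ⟨j, hj⟩ := he
  refine ⟨k + j, ?_⟩
  rw [hk]
  congr 1
  linear_combination -hj

end

end Pool.Agent.Q51.ZC
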