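import Pool.Agent.Q51.ZC.Eng1

/-! # Project ZC: one fibre -/

set_option autoImplicit false

namespace Pool.Agent.Q51.ZC

open Polynomial NumberField IsDedekindDomain Finset
open Pool.Agent.Q51.EL (Abv N1 pr Setup Gf)
open Pool.Agent.Q51.SE (Parq Zc)
open Pool.Agent.Q239.EL (prime_unique int_mem_iff mem_finite coe_ne nat_coe)

variable (L : Type) [Field L] [NumberField L]

/-- the conclusion of `S_GRP2` -/
def GrpC (q B N0 : ℕ) (C : ℝ) : Prop :=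
  ∀ (m : ℕ) (M : HeightOneSpectrum (𝓞 L) → ℤ) (𝒬 : Set ℕ) (δ : ℕ → L)
    (v0 : ℕ → HeightOneSpectrum (𝓞 L)), m ≠ 0 →
  (∀ p ∈ 𝒬, p.Prime ∧ ¬ p ∣ B ∧ ¬ p ∣ m ∧ δ p ≠ 0 ∧ Abv (v0 p) p ∧
    (∀ l : ℕ, l.Prime → ¬ l ∣ B → ¬ l ∣ m → l ≠ p → ∃ e : ℤ, VecP q l (δ p) (fun _ => e)) ∧
    (∀ l : ℕ, l.Prime → ¬ l ∣ B → l ∣ m → ∃ e : ℤ, VecP q l (δ p) (fun v => M v + e)) ∧
    ∃ e : ℤ, Parq q (v0 p) (δ p) (e + 1) ∧
      ∀ v : HeightOneSpectrum (𝓞 L), Abv v p → v ≠ v0 p → Parq q v (δ p) e) →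
  ∃ (κ : ℕ → Fin N0) (γ : ℕ → 𝓞 L), ∀ p ∈ 𝒬, γ p ≠ 0 ∧ γ p ∈ (v0 p).asIdeal ∧
    (∀ v : HeightOneSpectrum (𝓞 L), (B : 𝓞 L) ∉ v.asIdeal → v ≠ v0 p → γ p ∉ v.asIdeal) ∧
    (∀ σ : L →+* ℂ, ‖σ (γ p : L)‖ ≤
      C * ((Ideal.absNorm (v0 p).asIdeal : ℕ) : ℝ) ^ ((1 : ℝ) / Module.finrank ℚ L)) ∧
    ∀ p' ∈ 𝒬, κ p = κ p' → ∃ (c : ℚ) (η : L), c ≠ 0 ∧ η ≠ 0 ∧
      (γ p' : L) * δ p * (c : L) * η ^ q = δ p' * γ p

/-- the conclusion of `S_ONE` -/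
def OneC (q B : ℕ) (ε C : ℝ) : Prop :=
  ∀ (m : ℕ) (M : HeightOneSpectrum (𝓞 L) → ℤ) (z Z Y : ℝ) (T : Set (𝓞 L)),
  Squarefree m → m.Coprime B → 3 ≤ Z → (smo z m : ℝ) * Z ^ 2 ≤ Y →
  (∀ γ ∈ T, ∀ l : ℕ, l.Prime → (l : ℝ) ≤ Z → ¬ l ∣ B → ¬ l ∣ m →
    ∀ v : HeightOneSpectrum (𝓞 L), Abv v l → γ ∉ v.asIdeal) →
  (∀ l : ℕ, l.Prime → l ∣ m → (l : ℝ) ≤ z →
    (∀ γ ∈ T, ∀ v : HeightOneSpectrum (𝓞 L), Abv v l → γ ∉ v.asIdeal) ∧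
    ∀ γ ∈ T, ∀ γ' ∈ T, Rel q l M (γ : L) (γ' : L)) →
  {γ ∈ T | ∀ σ : L →+* ℂ, ‖σ (γ : L)‖ ≤ Y}.Finite ∧
  (({γ ∈ T | ∀ σ : L →+* ℂ, ‖σ (γ : L)‖ ≤ Y}.ncard : ℕ) : ℝ) ≤
    C * Y ^ q * (∏ l ∈ m.primeFactors.filter (fun l : ℕ => (l : ℝ) ≤ z), (ind L q l)⁻¹) *
      (∏ l ∈ m.primeFactors, Real.exp ((q : ℝ) / l)) * Real.log Z ^ (-(1 - ε))

variable {L}

/-- the fibre: the primes `p` with `± d m p ∈ T` and the given valuations at `m` -/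
def Fib (q : ℕ) (R : Set ℕ) (T : Set ℤ) (δ : ℤ → L) (s : ℤ) (d m : ℕ)
    (M : HeightOneSpectrum (𝓞 L) → ℤ) (z0 X : ℝ) : Set ℕ :=
  {p | p ∈ R ∧ z0 < p ∧ ¬ p ∣ m ∧ s * ((d * m * p : ℕ) : ℤ) ∈ T ∧ ((d * m * p : ℕ) : ℝ) ≤ X ∧
    ∀ l ∈ m.primeFactors, ∃ e : ℤ, VecP q l (δ (s * ((d * m * p : ℕ) : ℤ))) (fun v => M v + e)}

lemma sdvd {s : ℤ} (hs : s = 1 ∨ s = -1) (l n : ℕ) : (l : ℤ) ∣ s * (n : ℤ) ↔ l ∣ n := by
  rcases hs with h | h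
  · rw [h, one_mul, Int.natCast_dvd_natCast]
  · rw [h, neg_one_mul, dvd_neg, Int.natCast_dvd_natCast]

/-- the factor in the bound -/
noncomputable def Wt (L : Type) [Field L] [NumberField L] (q : ℕ) (z : ℝ) (m : ℕ) : ℝ :=
  (∏ l ∈ m.primeFactors.filter (fun l : ℕ => (l : ℝ) ≤ z), (ind L q l)⁻¹) *
      (∏ l ∈ m.primeFactors, Real.exp ((q : ℝ) / l))

lemma ind_pos (q l : ℕ) (hq : 0 < q) : 0 < ind L q l := by
  unfold ind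
  split_ifs <;> positivity

lemma Wt_nonneg (q : ℕ) (hq : 0 < q) (z : ℝ) (m : ℕ) : 0 ≤ Wt L q z m := by
  unfold Wt
  refine mul_nonneg (prod_nonneg fun l _ => ?_) (prod_nonneg fun l _ => (Real.exp_pos _).le)
  exact inv_nonneg.mpr (ind_pos q l hq).le

lemma fib {q B N0 : ℕ} {P R : Set ℕ} {C ε C1 : ℝ} (htwo : S_TWO) (hG : Good L q B)
    (hR : Large L q B P R) (hgrp : GrpC L q B N0 C) (hone : OneC L q B ε C1) (hC : 1 ≤ C)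
    (hC1 : 0 < C1) {T : Set ℤ} {δ : ℤ → L} (hD : Data L q B P T δ) {s : ℤ} (hs : s = 1 ∨ s = -1)
    {d m : ℕ} (hd : d ∣ B) (hm : Squarefree m) (hmB : m.Coprime B)
    (M : HeightOneSpectrum (𝓞 L) → ℤ) {z Z z0 X S : ℝ} (hX : 1 ≤ X) (hZ : 3 ≤ Z) (hZz : Z ≤ z0)
    (hS : (smo z m : ℝ) ≤ S) (hSZ : S * Z ^ 2 ≤ z0 ^ ((1 : ℝ) / q)) :
    (Fib q R T δ s d m M z0 X).Finite ∧
    ((Fib q R T δ s d m M z0 X).ncard : ℝ) ≤
      N0 * (C1 * (C * (X / m) ^ ((1 : ℝ) / q)) ^ q * Wt L q z m * Real.log Z ^ (-(1 - ε))) := by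
  classical
  have hq0 : 0 < q := hG.pr.pos
  have hd0 : 0 < d := Nat.pos_of_dvd_of_pos hd (Nat.pos_of_ne_zero hG.ne)
  have hm0 : 0 < m := Nat.pos_of_ne_zero hm.ne_zero
  have hfin : (Fib q R T δ s d m M z0 X).Finite := by
    refine (Set.finite_Iic ⌊X⌋₊).subset ?_
    rintro p ⟨-, -, -, -, h5, -⟩
    rw [Set.mem_Iic]
    refine Nat.le_floor (le_trans ?_ h5)
    exact_mod_cast Nat.le_mul_of_pos_left p (Nat.mul_pos hd0 hm0)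
  refine ⟨hfin, ?_⟩
  have hRHS : 0 ≤ C1 * (C * (X / m) ^ ((1 : ℝ) / q)) ^ q * Wt L q z m * Real.log Z ^ (-(1 - ε)) := by
    refine mul_nonneg (mul_nonneg (mul_nonneg hC1.le ?_) (Wt_nonneg q hq0 z m)) ?_
    · positivity
    · exact Real.rpow_nonneg (Real.log_nonneg (by linarith)) _
  rcases Set.eq_empty_or_nonempty (Fib q R T δ s d m M z0 X) with hemp | ⟨p1, hp1⟩
  · rw [hemp, Set.ncard_empty]
    push_cast
    positivity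
  set 𝒬 := Fib q R T δ s d m M z0 X with h𝒬
  -- the primes `v0`
  have htw : ∀ p : ℕ, ∃ v0 : HeightOneSpectrum (𝓞 L), p ∈ R → Abv v0 p ∧
      Ideal.absNorm v0.asIdeal = p ∧ ∀ M : HeightOneSpectrum (𝓞 L) → ℤ, Deg1 q p M →
      ∀ v : HeightOneSpectrum (𝓞 L), Abv v p → v ≠ v0 → (q : ℤ) ∣ M v0 - (M v + 1) := by
    intro p
    by_cases hp : p ∈ R
    · obtain ⟨v0, h1, h2, h3⟩ := htwo L q B hG p (hR.pr p hp) (hR.nd p hp) (hR.one p hp) (hR.ord p hp)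
      exact ⟨v0, fun _ => ⟨h1, h2, h3⟩⟩
    · obtain ⟨v0, -⟩ := htwo L q B hG p1 (hR.pr p1 hp1.1) (hR.nd p1 hp1.1) (hR.one p1 hp1.1)
        (hR.ord p1 hp1.1)
      exact ⟨v0, fun h => absurd h hp⟩
  choose v0 hv0 using htw
  have hcase : ∀ p ∈ 𝒬, ∀ l : ℕ, l.Prime → ¬ l ∣ B → ¬ l ∣ m → l ≠ p →
      ¬ (l : ℤ) ∣ s * ((d * m * p : ℕ) : ℤ) := by
    intro p hp l hl hlB hlm hlp h
    rw [sdvd hs] at h
    rcases (hl.dvd_mul).mp h with h | h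
    · rcases (hl.dvd_mul).mp h with h | h
      · exact hlB (h.trans hd)
      · exact hlm h
    · exact hlp ((Nat.prime_dvd_prime_iff_eq hl (hR.pr p hp.1)).mp h)
  obtain ⟨κ, γ, hκγ⟩ := hgrp m M 𝒬 (fun p => δ (s * ((d * m * p : ℕ) : ℤ))) v0 hm0.ne' (by
    intro p hp
    obtain ⟨hpR, hpz, hpm, hpT, hpX, hpM⟩ := hp
    obtain ⟨ha, hn, hM⟩ := hv0 p hpR
    refine ⟨hR.pr p hpR, hR.nd p hpR, hpm, hD.nz _ hpT, ha, ?_, ?_, ?_⟩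
    · intro l hl hlB hlm hlp
      exact hD.out _ hpT l hl hlB (hcase p ⟨hpR, hpz, hpm, hpT, hpX, hpM⟩ l hl hlB hlm hlp)
    · intro l hl hlB hlm
      exact hpM l (Nat.mem_primeFactors.mpr ⟨hl, hlm, hm0.ne'⟩)
    · obtain ⟨M', hM1, hM2⟩ := hD.inn _ hpT p (hR.pr p hpR) (hR.nd p hpR)
        ((sdvd hs p _).mpr (Dvd.intro_left _ rfl))
      refine ⟨M' (v0 p) - 1, ?_, fun v hv hne => ?_⟩
      · have := hM1 (v0 p) ha
        rw [sub_add_cancel]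
        exact this
      · refine parq_congr (hM1 v hv) ?_
        have h := hM M' hM2 v hv hne
        have h2 : M' v - (M' (v0 p) - 1) = -(M' (v0 p) - (M' v + 1)) := by ring
        rw [h2]
        exact (dvd_neg).mpr h)
  have hBv : ∀ (l : ℕ) (v : HeightOneSpectrum (𝓞 L)), l.Prime → Abv v l → ¬ l ∣ B →
      (B : 𝓞 L) ∉ v.asIdeal := by
    intro l v hl hv hlB h
    have h3 := int_mem_iff hl hv (B : ℤ)
    rw [Int.cast_natCast] at h3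
    exact hlB (Int.natCast_dvd_natCast.mp (h3.mp h))
  set Y : ℝ := C * (X / m) ^ ((1 : ℝ) / q) with hY
  have hXm : ∀ p ∈ 𝒬, (p : ℝ) ≤ X / m := by
    intro p hp
    rw [le_div_iff₀ (by exact_mod_cast hm0)]
    refine le_trans ?_ hp.2.2.2.2.1
    have : p * m ≤ d * m * p := by nlinarith [Nat.mul_le_mul_right (m * p) hd0]
    exact_mod_cast this
  have hz0X : z0 ≤ X / m := hp1.2.1.le.trans (hXm p1 hp1)
  have hz0p : 0 < z0 := by linarith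
  have hsmoY : (smo z m : ℝ) * Z ^ 2 ≤ Y := by
    calc (smo z m : ℝ) * Z ^ 2 ≤ S * Z ^ 2 := mul_le_mul_of_nonneg_right hS (by positivity)
      _ ≤ z0 ^ ((1 : ℝ) / q) := hSZ
      _ ≤ (X / m) ^ ((1 : ℝ) / q) := Real.rpow_le_rpow hz0p.le hz0X (by positivity)
      _ ≤ Y := le_mul_of_one_le_left (Real.rpow_nonneg (hz0p.le.trans hz0X) _) hC
  have hnot : ∀ p ∈ 𝒬, ∀ (l : ℕ) (v : HeightOneSpectrum (𝓞 L)), l.Prime → Abv v l → ¬ l ∣ B →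
      l ≠ p → γ p ∉ v.asIdeal := by
    intro p hp l v hl hv hlB hlp
    refine (hκγ p hp).2.2.1 v (hBv l v hl hv hlB) ?_
    intro h
    rw [h] at hv
    exact hlp (prime_unique hl (hR.pr p hp.1) hv (hv0 p hp.1).1)
  have hfinF := hfin
  have hbound : ∀ k : Fin N0, ((hfin.toFinset.filter (fun p => κ p = k)).card : ℝ) ≤
      C1 * Y ^ q * Wt L q z m * Real.log Z ^ (-(1 - ε)) := by
    intro k
    obtain ⟨h1, h2⟩ := hone m M z Z Y (γ '' {p ∈ 𝒬 | κ p = k}) hm hmB hZ hsmoY (by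
      rintro _ ⟨p, ⟨hp, -⟩, rfl⟩ l hl hlZ hlB hlm v hv
      refine hnot p hp l v hl hv hlB ?_
      rintro rfl
      have := hp.2.1
      linarith) (by
      intro l hl hlm hlz
      have hlB : ¬ l ∣ B := fun h => hl.one_lt.ne' (Nat.eq_one_of_dvd_coprimes hmB hlm h)
      refine ⟨?_, ?_⟩
      · rintro _ ⟨p, ⟨hp, -⟩, rfl⟩ v hv
        refine hnot p hp l v hl hv hlB ?_
        rintro rfl
        exact hp.2.2.1 hlm
      · rintro _ ⟨p, ⟨hp, hpk⟩, rfl⟩ _ ⟨p', ⟨hp', hpk'⟩, rfl⟩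
        obtain ⟨c, η, hc, hη, he⟩ := (hκγ p hp).2.2.2.2 p' hp' (hpk.trans hpk'.symm)
        have hrel := hD.rel _ hp.2.2.2.1 _ hp'.2.2.2.1 l hl hlB
          ((sdvd hs l _).mpr ((hlm.mul_left d).mul_right p))
          ((sdvd hs l _).mpr ((hlm.mul_left d).mul_right p')) M
          (hp.2.2.2.2.2 l (Nat.mem_primeFactors.mpr ⟨hl, hlm, hm0.ne'⟩))
          (hp'.2.2.2.2.2 l (Nat.mem_primeFactors.mpr ⟨hl, hlm, hm0.ne'⟩))
        exact rel_pass hrel hc hη (hD.nz _ hp.2.2.2.1) (coe_ne (hκγ p hp).1) he)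
    have h3 : ((hfin.toFinset.filter (fun p => κ p = k)).card : ℝ) ≤
        ((({γ' ∈ γ '' {p ∈ 𝒬 | κ p = k} | ∀ σ : L →+* ℂ, ‖σ (γ' : L)‖ ≤ Y}).ncard : ℕ) : ℝ) := by
      rw [← Set.ncard_coe_finset]
      have h4 : ((hfin.toFinset.filter (fun p => κ p = k) : Finset ℕ) : Set ℕ).ncard ≤
          ({γ' ∈ γ '' {p ∈ 𝒬 | κ p = k} | ∀ σ : L →+* ℂ, ‖σ (γ' : L)‖ ≤ Y}).ncard := by
        refine Set.ncard_le_ncard_of_injOn γ ?_ ?_ h1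
        · intro p hp
          rw [Finset.mem_coe, mem_filter, Set.Finite.mem_toFinset] at hp
          refine ⟨⟨p, hp, rfl⟩, fun σ => ?_⟩
          refine ((hκγ p hp.1).2.2.2.1 σ).trans ?_
          rw [(hv0 p hp.1.1).2.1, hG.deg]
          exact mul_le_mul_of_nonneg_left
            (Real.rpow_le_rpow (Nat.cast_nonneg p) (hXm p hp.1) (by positivity)) (by linarith)
        · intro p hp p' hp' he
          rw [Finset.mem_coe, mem_filter, Set.Finite.mem_toFinset] at hp hp'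
          by_contra hne
          have h5 := hnot p hp.1 p' (v0 p') (hR.pr p' hp'.1.1) (hv0 p' hp'.1.1).1 (hR.nd p' hp'.1.1)
            (fun h => hne h.symm)
          rw [he] at h5
          exact h5 (hκγ p' hp'.1).2.1
      exact_mod_cast h4
    refine h3.trans (h2.trans (le_of_eq ?_))
    unfold Wt
    ring
  have hcard : 𝒬.ncard = ∑ k : Fin N0, (hfin.toFinset.filter (fun p => κ p = k)).card := by
    rw [Set.ncard_eq_toFinset_card _ hfin]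
    exact card_eq_sum_card_fiberwise (fun p _ => Finset.mem_coe.mpr (mem_univ (κ p)))
  rw [hcard]
  push_cast
  refine (sum_le_sum fun k _ => hbound k).trans ?_
  rw [sum_const, card_univ, Fintype.card_fin, nsmul_eq_mul]

end Pool.Agent.Q51.ZC
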