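import Pool.Agent.Q51.ZC.Eng2

/-! # Project ZC: the sum over the fibres -/

set_option autoImplicit false

namespace Pool.Agent.Q51.ZC

open Polynomial NumberField IsDedekindDomain Finset
open Pool.Agent.Q51.EL (Abv N1 pr Setup Gf)
open Pool.Agent.Q51.SE (Parq Zc)
open Pool.Agent.Q239.EL (prime_unique int_mem_iff mem_finite coe_ne nat_coe)

variable {L : Type} [Field L] [NumberField L]

/-- the main part of `T` -/
def E3 (R : Set ℕ) (T : Set ℤ) (z z0 S X : ℝ) : Set ℤ :=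
  {D ∈ T | (D.natAbs : ℝ) ≤ X ∧ (∃ p ∈ R, z0 < p ∧ p ∣ D.natAbs) ∧ (smo z D.natAbs : ℝ) ≤ S}

lemma smo_mono {m n : ℕ} (h : m ∣ n) (hn : n ≠ 0) (z : ℝ) : smo z m ≤ smo z n := by
  unfold smo
  refine prod_le_prod_of_subset_of_one_le' ?_ ?_
  · exact filter_subset_filter _ (Nat.primeFactors_mono h hn)
  · intro l hl _
    rw [mem_filter] at hl
    exact (Nat.prime_of_mem_primeFactors hl.1).one_lt.le

/-- the decomposition `n = d m p` -/
lemma decomp {n B p : ℕ} (hn : Squarefree n) (_ : B ≠ 0) (hp : p.Prime) (hpB : ¬ p ∣ B)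
    (hpn : p ∣ n) : ∃ d m : ℕ, d ∣ B ∧ m.Coprime B ∧ n = d * m * p ∧ ¬ p ∣ m ∧ Squarefree m := by
  have hn0 := hn.ne_zero
  obtain ⟨n1, hn1⟩ : n.gcd B ∣ n := Nat.gcd_dvd_left _ _
  have hpd : ¬ p ∣ n.gcd B := fun h => hpB (h.trans (Nat.gcd_dvd_right _ _))
  have hpn1 : p ∣ n1 := by
    have := hpn
    rw [hn1] at this
    rcases hp.dvd_mul.mp this with h | h
    · exact absurd h hpd
    · exact h
  obtain ⟨m, hm⟩ := hpn1
  refine ⟨n.gcd B, m, Nat.gcd_dvd_right _ _, ?_, ?_, ?_, ?_⟩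
  · rw [Nat.coprime_iff_gcd_eq_one]
    by_contra h
    obtain ⟨l, hl, hlg⟩ := Nat.exists_prime_and_dvd h
    have h1 : l ∣ m := hlg.trans (Nat.gcd_dvd_left _ _)
    have h2 : l ∣ B := hlg.trans (Nat.gcd_dvd_right _ _)
    have h3 : l ∣ n.gcd B := by
      refine Nat.dvd_gcd ?_ h2
      rw [hn1, hm]
      exact (h1.mul_left p).mul_left _
    have h4 : l * l ∣ n := by
      rw [hn1, hm]
      exact mul_dvd_mul h3 (h1.mul_left p)
    exact hl.one_lt.ne' (Nat.isUnit_iff.mp (hn l h4))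
  · rw [mul_assoc, mul_comm m p, ← hm]
    exact hn1
  · intro h
    have h4 : p * p ∣ n := by
      rw [hn1, hm]
      exact ((mul_dvd_mul dvd_rfl h)).mul_left _
    exact hp.one_lt.ne' (Nat.isUnit_iff.mp (hn p h4))
  · refine hn.squarefree_of_dvd ?_
    rw [hn1, hm]
    exact (dvd_mul_left m p).mul_left _

open Classical in
/-- the set of the `m` -/
noncomputable def Ms (P : Set ℕ) (X : ℝ) : Finset ℕ :=
  (Icc 1 ⌊X⌋₊).filter (fun m : ℕ => Squarefree m ∧ ∀ l : ℕ, l.Prime → l ∣ m → l ∈ P)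

lemma card_wt {q B : ℕ} (hind : S_IND) (hG : Good L q B) {m : ℕ} (hmB : m.Coprime B) (z : ℝ) :
    (∏ l ∈ m.primeFactors, (q : ℝ) ^ (((ab L l).card : ℤ) - 2)) * Wt L q z m ≤
      ∏ l ∈ m.primeFactors, (if (l : ℝ) ≤ z then kap q l else (q : ℝ) ^ q) *
        Real.exp ((q : ℝ) / l) := by
  have hq : (0 : ℝ) < q := by exact_mod_cast hG.pr.pos
  unfold Wt
  rw [prod_filter, ← prod_mul_distrib, ← prod_mul_distrib]
  refine prod_le_prod (fun l _ => ?_) (fun l hl => ?_)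
  · refine mul_nonneg (by positivity) (mul_nonneg ?_ (Real.exp_pos _).le)
    split_ifs
    · exact inv_nonneg.mpr (ind_pos q l hG.pr.pos).le
    · norm_num
  · have hlp := Nat.prime_of_mem_primeFactors hl
    have hlB : ¬ l ∣ B := fun h => hlp.one_lt.ne'
      (Nat.eq_one_of_dvd_coprimes hmB (Nat.dvd_of_mem_primeFactors hl) h)
    obtain ⟨h1, h2⟩ := hind L q B hG l hlp hlB
    rw [← mul_assoc]
    refine mul_le_mul_of_nonneg_right ?_ (Real.exp_pos _).le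
    split_ifs
    · exact h1.le
    · rw [mul_one]; exact h2

lemma e3 {q B N0 : ℕ} {P R : Set ℕ} {C ε C1 : ℝ} (htwo : S_TWO) (hind : S_IND) (hmset : S_MSET)
    (hG : Good L q B)
    (hR : Large L q B P R) (hgrp : GrpC L q B N0 C) (hone : OneC L q B ε C1) (hC : 1 ≤ C)
    (hC1 : 0 < C1) {T : Set ℤ} {δ : ℤ → L} (hD : Data L q B P T δ)
    {z Z z0 X S : ℝ} (hX : 1 ≤ X) (hZ : 3 ≤ Z) (hZz : Z ≤ z0)
    (hSZ : S * Z ^ 2 ≤ z0 ^ ((1 : ℝ) / q)) :
    ((E3 R T z z0 S X).ncard : ℝ) ≤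
      2 * B * (N0 * C1 * C ^ q) * X * Real.log Z ^ (-(1 - ε)) *
        ∑ m ∈ Ms P X, (1 / (m : ℝ)) * ∏ l ∈ m.primeFactors,
          (if (l : ℝ) ≤ z then kap q l else (q : ℝ) ^ q) * Real.exp ((q : ℝ) / l) := by
  classical
  have hq0 : 0 < q := hG.pr.pos
  have hchoice : ∀ m : ℕ, ∃ ℳ : Finset (HeightOneSpectrum (𝓞 L) → ℤ), Squarefree m → m.Coprime B →
    ((ℳ.card : ℕ) : ℝ) ≤ ∏ l ∈ m.primeFactors, (q : ℝ) ^ (((ab L l).card : ℤ) - 2) ∧
    ∀ M' : ℕ → HeightOneSpectrum (𝓞 L) → ℤ, (∀ l ∈ m.primeFactors, Deg1 q l (M' l)) →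
    ∃ M ∈ ℳ, ∀ l ∈ m.primeFactors, ∃ e : ℤ, ∀ v : HeightOneSpectrum (𝓞 L), Abv v l →
      (q : ℤ) ∣ M' l v - (M v + e) := by
    intro m
    by_cases h : Squarefree m ∧ m.Coprime B
    · obtain ⟨ℳ, h1, h2⟩ := hmset L q B hG m h.1 h.2
      exact ⟨ℳ, fun _ _ => ⟨h1, h2⟩⟩
    · exact ⟨∅, fun h1 h2 => absurd ⟨h1, h2⟩ h⟩
  choose ℳ hℳ using hchoice
  let Ms' : Finset ℕ := (Ms P X).filter (fun m => m.Coprime B ∧ (smo z m : ℝ) ≤ S)
  have hsub : E3 R T z z0 S X ⊆ ⋃ s ∈ ({1, -1} : Finset ℤ), ⋃ d ∈ B.divisors, ⋃ m ∈ Ms', ⋃ M ∈ ℳ m,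
      (fun p : ℕ => s * ((d * m * p : ℕ) : ℤ)) '' Fib q R T δ s d m M z0 X := by
    rintro D ⟨hDT, hDX, ⟨p, hpR, hpz, hpD⟩, hsmo⟩
    have hDsq : Squarefree D.natAbs := Int.squarefree_natAbs.mpr (hD.sq D hDT)
    obtain ⟨d, m, hd, hmB, hn, hpm, hm⟩ := decomp hDsq hG.ne (hR.pr p hpR) (hR.nd p hpR) hpD
    have hd0 : 0 < d := Nat.pos_of_dvd_of_pos hd (Nat.pos_of_ne_zero hG.ne)
    have hm0 : 0 < m := Nat.pos_of_ne_zero hm.ne_zero
    have hp0 : 0 < p := (hR.pr p hpR).pos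
    obtain ⟨s, hs, hsD⟩ : ∃ s : ℤ, (s = 1 ∨ s = -1) ∧ s * ((d * m * p : ℕ) : ℤ) = D := by
      rw [← hn]
      rcases Int.natAbs_eq D with h | h
      · exact ⟨1, Or.inl rfl, by rw [one_mul]; exact h.symm⟩
      · exact ⟨-1, Or.inr rfl, by rw [neg_one_mul]; exact h.symm⟩
    have hmn : m ∣ D.natAbs := by
      rw [hn]; exact (dvd_mul_left m d).mul_right p
    have hlB : ∀ l ∈ m.primeFactors, ¬ l ∣ B := fun l hl h =>
      (Nat.prime_of_mem_primeFactors hl).one_lt.ne'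
        (Nat.eq_one_of_dvd_coprimes hmB (Nat.dvd_of_mem_primeFactors hl) h)
    have hlD : ∀ l ∈ m.primeFactors, (l : ℤ) ∣ D := fun l hl =>
      Int.natCast_dvd.mpr ((Nat.dvd_of_mem_primeFactors hl).trans hmn)
    have hM' : ∀ l : ℕ, ∃ M' : HeightOneSpectrum (𝓞 L) → ℤ, l ∈ m.primeFactors →
        VecP q l (δ D) M' ∧ Deg1 q l M' := by
      intro l
      by_cases hl : l ∈ m.primeFactors
      · obtain ⟨M', h1, h2⟩ := hD.inn D hDT l (Nat.prime_of_mem_primeFactors hl) (hlB l hl) (hlD l hl)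
        exact ⟨M', fun _ => ⟨h1, h2⟩⟩
      · exact ⟨fun _ => 0, fun h => absurd h hl⟩
    choose M' hM' using hM'
    obtain ⟨M, hM, hMe⟩ := (hℳ m hm hmB).2 M' (fun l hl => (hM' l hl).2)
    simp only [Set.mem_iUnion, exists_prop]
    refine ⟨s, ?_, d, ?_, m, ?_, M, hM, p, ⟨hpR, hpz, hpm, ?_, ?_, ?_⟩, hsD⟩
    · rcases hs with h | h <;> simp [h]
    · exact Nat.mem_divisors.mpr ⟨hd, hG.ne⟩
    · simp only [Ms', Ms, mem_filter, mem_Icc]
      refine ⟨⟨⟨hm0, ?_⟩, hm, ?_⟩, hmB, ?_⟩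
      · refine Nat.le_floor (le_trans ?_ hDX)
        exact_mod_cast Nat.le_of_dvd (Nat.pos_of_ne_zero hDsq.ne_zero) hmn
      · intro l hl hlm
        have hl' : l ∈ m.primeFactors := Nat.mem_primeFactors.mpr ⟨hl, hlm, hm0.ne'⟩
        exact hD.mem D hDT l hl (hlD l hl') (hlB l hl')
      · refine le_trans ?_ hsmo
        exact_mod_cast smo_mono hmn hDsq.ne_zero z
    · rw [hsD]; exact hDT
    · rw [← hn]; exact hDX
    · intro l hl
      obtain ⟨e, he⟩ := hMe l hl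
      refine ⟨e, fun v hv => ?_⟩
      rw [hsD]
      exact parq_congr ((hM' l hl).1 v hv) (he v hv)
  have hfinU : (⋃ s ∈ ({1, -1} : Finset ℤ), ⋃ d ∈ B.divisors, ⋃ m ∈ Ms', ⋃ M ∈ ℳ m,
      (fun p : ℕ => s * ((d * m * p : ℕ) : ℤ)) '' Fib q R T δ s d m M z0 X).Finite := by
    refine Set.Finite.biUnion (Finset.finite_toSet _) fun s hs => ?_
    refine Set.Finite.biUnion (Finset.finite_toSet _) fun d hd => ?_
    refine Set.Finite.biUnion (Finset.finite_toSet _) fun m hm => ?_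
    refine Set.Finite.biUnion (Finset.finite_toSet _) fun M hM => ?_
    have hs' : s = 1 ∨ s = -1 := by simpa using hs
    have hm' : m ∈ Ms' := hm
    simp only [Ms', Ms, mem_filter, mem_Icc] at hm'
    exact (fib htwo hG hR hgrp hone hC hC1 hD hs' (Nat.dvd_of_mem_divisors hd) hm'.1.2.1 hm'.2.1 M
      hX hZ hZz hm'.2.2 hSZ).1.image _
  have h1 : (E3 R T z z0 S X).ncard ≤ ∑ s ∈ ({1, -1} : Finset ℤ), ∑ d ∈ B.divisors, ∑ m ∈ Ms',
      ∑ M ∈ ℳ m, ((fun p : ℕ => s * ((d * m * p : ℕ) : ℤ)) '' Fib q R T δ s d m M z0 X).ncard := by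
    refine (Set.ncard_le_ncard hsub hfinU).trans ?_
    refine (Finset.set_ncard_biUnion_le _ _).trans (sum_le_sum fun s _ => ?_)
    refine (Finset.set_ncard_biUnion_le _ _).trans (sum_le_sum fun d _ => ?_)
    refine (Finset.set_ncard_biUnion_le _ _).trans (sum_le_sum fun m _ => ?_)
    exact Finset.set_ncard_biUnion_le _ _
  have h2 : ((E3 R T z z0 S X).ncard : ℝ) ≤ ∑ s ∈ ({1, -1} : Finset ℤ), ∑ d ∈ B.divisors,
      ∑ m ∈ Ms', ∑ M ∈ ℳ m,
        N0 * (C1 * (C * (X / m) ^ ((1 : ℝ) / q)) ^ q * Wt L q z m * Real.log Z ^ (-(1 - ε))) := by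
    refine le_trans (Nat.cast_le (α := ℝ).mpr h1) ?_
    simp only [Nat.cast_sum]
    refine sum_le_sum fun s hs => sum_le_sum fun d hd => sum_le_sum fun m hm =>
      sum_le_sum fun M hM => ?_
    have hs' : s = 1 ∨ s = -1 := by simpa using hs
    have hm' := hm
    simp only [Ms', Ms, mem_filter, mem_Icc] at hm'
    obtain ⟨hf, hb⟩ := fib htwo hG hR hgrp hone hC hC1 hD hs' (Nat.dvd_of_mem_divisors hd)
      hm'.1.2.1 hm'.2.1 M hX hZ hZz hm'.2.2 hSZ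
    refine le_trans ?_ hb
    exact_mod_cast Set.ncard_image_le hf
  refine h2.trans ?_
  have hlog : 0 ≤ Real.log Z ^ (-(1 - ε)) := Real.rpow_nonneg (Real.log_nonneg (by linarith)) _
  have hX0 : 0 < X := by linarith
  have h3 : ∀ m ∈ Ms', ∑ M ∈ ℳ m,
      N0 * (C1 * (C * (X / m) ^ ((1 : ℝ) / q)) ^ q * Wt L q z m * Real.log Z ^ (-(1 - ε))) ≤
      (N0 * C1 * C ^ q) * X * Real.log Z ^ (-(1 - ε)) * ((1 / (m : ℝ)) * ∏ l ∈ m.primeFactors,
          (if (l : ℝ) ≤ z then kap q l else (q : ℝ) ^ q) * Real.exp ((q : ℝ) / l)) := by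
    intro m hm
    simp only [Ms', Ms, mem_filter, mem_Icc] at hm
    have hm0 : (0 : ℝ) < m := by exact_mod_cast hm.1.1.1
    rw [sum_const, nsmul_eq_mul]
    have h4 : (C * (X / m) ^ ((1 : ℝ) / q)) ^ q = C ^ q * (X / m) := by
      rw [mul_pow]
      congr 1
      rw [← Real.rpow_natCast ((X / m) ^ ((1 : ℝ) / q)) q, ← Real.rpow_mul (by positivity),
        one_div, inv_mul_cancel₀ (by exact_mod_cast hq0.ne'), Real.rpow_one]
    rw [h4]
    have h5 := (hℳ m hm.1.2.1 hm.2.1).1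
    have h6 := card_wt hind hG hm.2.1 z
    have h7 : ((ℳ m).card : ℝ) * Wt L q z m ≤ ∏ l ∈ m.primeFactors,
        (if (l : ℝ) ≤ z then kap q l else (q : ℝ) ^ q) * Real.exp ((q : ℝ) / l) :=
      (mul_le_mul_of_nonneg_right h5 (Wt_nonneg q hq0 z m)).trans h6
    calc ((ℳ m).card : ℝ) * (N0 * (C1 * (C ^ q * (X / m)) * Wt L q z m * Real.log Z ^ (-(1 - ε))))
        = (N0 * C1 * C ^ q) * X * Real.log Z ^ (-(1 - ε)) * (1 / m) *
          (((ℳ m).card : ℝ) * Wt L q z m) := by ring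
      _ ≤ (N0 * C1 * C ^ q) * X * Real.log Z ^ (-(1 - ε)) * (1 / m) * _ :=
          mul_le_mul_of_nonneg_left h7 (by positivity)
      _ = _ := by ring
  have h8 : ∑ m ∈ Ms', ∑ M ∈ ℳ m,
      N0 * (C1 * (C * (X / m) ^ ((1 : ℝ) / q)) ^ q * Wt L q z m * Real.log Z ^ (-(1 - ε))) ≤
      (N0 * C1 * C ^ q) * X * Real.log Z ^ (-(1 - ε)) * ∑ m ∈ Ms P X,
        (1 / (m : ℝ)) * ∏ l ∈ m.primeFactors,
          (if (l : ℝ) ≤ z then kap q l else (q : ℝ) ^ q) * Real.exp ((q : ℝ) / l) := by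
    refine (sum_le_sum h3).trans ?_
    rw [← mul_sum]
    refine mul_le_mul_of_nonneg_left ?_ (by positivity)
    refine sum_le_sum_of_subset_of_nonneg (filter_subset _ _) fun m _ _ => ?_
    refine mul_nonneg (by positivity) (prod_nonneg fun l _ => mul_nonneg ?_ (Real.exp_pos _).le)
    split_ifs
    · unfold kap; split_ifs <;> positivity
    · positivity
  calc ∑ s ∈ ({1, -1} : Finset ℤ), ∑ d ∈ B.divisors,
      ∑ m ∈ Ms', ∑ M ∈ ℳ m,
        N0 * (C1 * (C * (X / m) ^ ((1 : ℝ) / q)) ^ q * Wt L q z m * Real.log Z ^ (-(1 - ε)))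
      ≤ ∑ s ∈ ({1, -1} : Finset ℤ), ∑ d ∈ B.divisors,
        ((N0 * C1 * C ^ q) * X * Real.log Z ^ (-(1 - ε)) * ∑ m ∈ Ms P X,
        (1 / (m : ℝ)) * ∏ l ∈ m.primeFactors,
          (if (l : ℝ) ≤ z then kap q l else (q : ℝ) ^ q) * Real.exp ((q : ℝ) / l)) :=
        sum_le_sum fun s _ => sum_le_sum fun d _ => h8
    _ = 2 * (B.divisors.card : ℝ) * ((N0 * C1 * C ^ q) * X * Real.log Z ^ (-(1 - ε)) *
        ∑ m ∈ Ms P X, (1 / (m : ℝ)) * ∏ l ∈ m.primeFactors,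
          (if (l : ℝ) ≤ z then kap q l else (q : ℝ) ^ q) * Real.exp ((q : ℝ) / l)) := by
        rw [sum_const, sum_const, nsmul_eq_mul, nsmul_eq_mul]
        have : (({1, -1} : Finset ℤ).card : ℝ) = 2 := by norm_num
        rw [this]
        ring
    _ ≤ 2 * (B : ℝ) * ((N0 * C1 * C ^ q) * X * Real.log Z ^ (-(1 - ε)) *
        ∑ m ∈ Ms P X, (1 / (m : ℝ)) * ∏ l ∈ m.primeFactors,
          (if (l : ℝ) ≤ z then kap q l else (q : ℝ) ^ q) * Real.exp ((q : ℝ) / l)) := by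
        refine mul_le_mul_of_nonneg_right ?_ ?_
        · have : (B.divisors.card : ℝ) ≤ B := by exact_mod_cast Nat.card_divisors_le_self B
          linarith
        · refine mul_nonneg (by positivity) (sum_nonneg fun m _ => mul_nonneg (by positivity)
            (prod_nonneg fun l _ => mul_nonneg ?_ (Real.exp_pos _).le))
          split_ifs
          · unfold kap; split_ifs <;> positivity
          · positivity
    _ = _ := by ring

end Pool.Agent.Q51.ZC
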