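import Pool.Agent.Q51.ZC.Eng3

/-! # Project ZC: the bound `S_ENG` -/

set_option autoImplicit false

namespace Pool.Agent.Q51.ZC

open Polynomial NumberField IsDedekindDomain Finset
open Pool.Agent.Q51.EL (Abv N1 pr Setup Gf)
open Pool.Agent.Q51.SE (Parq Zc)

lemma ncard_abs (A : Set ℤ) (F : Finset ℕ) (h : ∀ D ∈ A, D.natAbs ∈ F) : A.ncard ≤ 2 * F.card := by
  classical
  have hsub : A ⊆ ((F.image (fun n : ℕ => (n : ℤ)) ∪ F.image (fun n : ℕ => -(n : ℤ)) : Finset ℤ) :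
      Set ℤ) := by
    intro D hD
    rw [Finset.mem_coe, mem_union, mem_image, mem_image]
    rcases Int.natAbs_eq D with h1 | h1
    · exact Or.inl ⟨D.natAbs, h D hD, h1.symm⟩
    · exact Or.inr ⟨D.natAbs, h D hD, h1.symm⟩
  have h1 := Set.ncard_le_ncard hsub (Finset.finite_toSet _)
  rw [Set.ncard_coe_finset] at h1
  refine h1.trans ((card_union_le _ _).trans ?_)
  have h2 := card_image_le (s := F) (f := fun n : ℕ => (n : ℤ))
  have h3 := card_image_le (s := F) (f := fun n : ℕ => -(n : ℤ))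
  omega

open Classical in
/-- the primes outside of `R` above `z0` -/
lemma sum_P1 {P R : Set ℕ} (hRP : R ⊆ P) {B : ℕ} (hB : B ≠ 0) {z0 X : ℝ} (hz : z0 ≤ X) :
    ∑ l ∈ (pr X).filter (fun l => (l ∈ P ∨ l ∣ B) ∧ ¬ (l ∈ R ∧ z0 < l)), (1 : ℝ) / l ≤
      SP P X + B - (SP R X - SP R z0) := by
  have h1 : SP R X - SP R z0 = ∑ l ∈ (pr X).filter (fun l => l ∈ R ∧ z0 < l), (1 : ℝ) / l := by
    unfold SP
    have h2 : (pr X).filter (fun l => l ∈ R) =
        (pr z0).filter (fun l => l ∈ R) ∪ (pr X).filter (fun l => l ∈ R ∧ z0 < l) := by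
      ext l
      simp only [mem_union, mem_filter, pr, mem_Icc]
      constructor
      · rintro ⟨⟨⟨ha, hb⟩, hc⟩, hd⟩
        by_cases he : z0 < l
        · exact Or.inr ⟨⟨⟨ha, hb⟩, hc⟩, hd, he⟩
        · exact Or.inl ⟨⟨⟨ha, Nat.le_floor (not_lt.mp he)⟩, hc⟩, hd⟩
      · rintro (⟨⟨⟨ha, hb⟩, hc⟩, hd⟩ | ⟨⟨⟨ha, hb⟩, hc⟩, hd, he⟩)
        · exact ⟨⟨⟨ha, hb.trans (Nat.floor_le_floor hz)⟩, hc⟩, hd⟩
        · exact ⟨⟨⟨ha, hb⟩, hc⟩, hd⟩
    have h3 : Disjoint ((pr z0).filter (fun l => l ∈ R))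
        ((pr X).filter (fun l => l ∈ R ∧ z0 < l)) := by
      rw [Finset.disjoint_left]
      intro l hl hl'
      simp only [mem_filter, pr, mem_Icc] at hl hl'
      have h4 : (l : ℝ) ≤ z0 := by
        have h5 : l ≤ ⌊z0⌋₊ := hl.1.1.2
        have h6 : 0 < l := hl.1.1.1
        exact (Nat.le_floor_iff' h6.ne').mp h5
      linarith [hl'.2.2]
    rw [h2, sum_union h3]
    ring
  rw [h1]
  have h2 : ∑ l ∈ (pr X).filter (fun l => (l ∈ P ∨ l ∣ B) ∧ ¬ (l ∈ R ∧ z0 < l)), (1 : ℝ) / l +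
      ∑ l ∈ (pr X).filter (fun l => l ∈ R ∧ z0 < l), (1 : ℝ) / l ≤
      SP P X + ∑ l ∈ (pr X).filter (fun l => l ∣ B), (1 : ℝ) / l := by
    have h3 : ∑ l ∈ (pr X).filter (fun l => (l ∈ P ∨ l ∣ B) ∧ ¬ (l ∈ R ∧ z0 < l)), (1 : ℝ) / l +
        ∑ l ∈ (pr X).filter (fun l => l ∈ R ∧ z0 < l), (1 : ℝ) / l =
        ∑ l ∈ (pr X).filter (fun l => (l ∈ P ∨ l ∣ B)), (1 : ℝ) / l := by
      rw [← sum_union]
      · congr 1
        ext l
        simp only [mem_union, mem_filter]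
        constructor
        · rintro (⟨ha, hb, hc⟩ | ⟨ha, hb, hc⟩)
          · exact ⟨ha, hb⟩
          · exact ⟨ha, Or.inl (hRP hb)⟩
        · rintro ⟨ha, hb⟩
          by_cases hc : l ∈ R ∧ z0 < l
          · exact Or.inr ⟨ha, hc⟩
          · exact Or.inl ⟨ha, hb, hc⟩
      · rw [Finset.disjoint_left]
        intro l hl hl'
        rw [mem_filter] at hl hl'
        exact hl.2.2 hl'.2
    rw [h3]
    unfold SP
    have h4 : (pr X).filter (fun l => (l ∈ P ∨ l ∣ B)) =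
        (pr X).filter (fun l => l ∈ P) ∪ (pr X).filter (fun l => l ∣ B) := by
      ext l
      simp only [mem_union, mem_filter]
      tauto
    rw [h4]
    refine le_trans (le_of_eq_of_le rfl ?_) (le_refl _)
    have h5 := sum_union_inter (s₁ := (pr X).filter (fun l => l ∈ P))
      (s₂ := (pr X).filter (fun l => l ∣ B)) (f := fun l : ℕ => (1 : ℝ) / l)
    have h6 : 0 ≤ ∑ l ∈ (pr X).filter (fun l => l ∈ P) ∩ (pr X).filter (fun l => l ∣ B),
        (1 : ℝ) / l := sum_nonneg fun l _ => by positivity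
    linarith
  have h3 : ∑ l ∈ (pr X).filter (fun l => l ∣ B), (1 : ℝ) / l ≤ B := by
    calc ∑ l ∈ (pr X).filter (fun l => l ∣ B), (1 : ℝ) / l ≤
        ∑ l ∈ (pr X).filter (fun l => l ∣ B), (1 : ℝ) := by
          refine sum_le_sum fun l hl => ?_
          simp only [mem_filter, pr, mem_Icc] at hl
          have : (1 : ℝ) ≤ l := by exact_mod_cast hl.1.1.1
          rw [div_le_one (by linarith)]
          exact this
      _ ≤ ((B.divisors.card : ℕ) : ℝ) := by
          rw [sum_const, nsmul_eq_mul, mul_one]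
          have : (pr X).filter (fun l => l ∣ B) ⊆ B.divisors := by
            intro l hl
            rw [mem_filter] at hl
            exact Nat.mem_divisors.mpr ⟨hl.2, hB⟩
          exact_mod_cast card_le_card this
      _ ≤ B := by exact_mod_cast Nat.card_divisors_le_self B
  linarith

open Classical in
lemma sum_kap {P R : Set ℕ} (hRP : R ⊆ P) {q : ℕ} (hq : 3 ≤ q)
    (hR : ∀ p ∈ R, orderOf (p : ZMod q) = q - 1) (X : ℝ) :
    ∑ l ∈ (pr X).filter (fun l => l ∈ P), kap q l / l ≤ SP P X - (1 / 2) * SP R X := by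
  have hq0 : (0 : ℝ) < q := by exact_mod_cast (by omega : 0 < q)
  have h1 : SP P X = ∑ l ∈ (pr X).filter (fun l => l ∈ P), (1 : ℝ) / l := rfl
  have h2 : (1 / 2) * SP R X ≤ ∑ l ∈ (pr X).filter (fun l => l ∈ P), (1 - kap q l) / l := by
    unfold SP
    rw [mul_sum]
    have h3 : (pr X).filter (fun l => l ∈ R) ⊆ (pr X).filter (fun l => l ∈ P) := by
      intro l hl
      rw [mem_filter] at hl ⊢
      exact ⟨hl.1, hRP hl.2⟩
    refine le_trans (sum_le_sum fun l hl => ?_) (sum_le_sum_of_subset_of_nonneg h3 fun l _ _ => ?_)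
    · rw [mem_filter] at hl
      have h4 : l % q ≠ 1 := by
        intro h5
        have h6 := hR l hl.2
        have h7 : (l : ZMod q) = 1 := by
          have : ((l % q : ℕ) : ZMod q) = ((1 : ℕ) : ZMod q) := by rw [h5]
          rw [ZMod.natCast_mod] at this
          rw [this, Nat.cast_one]
        rw [h7, orderOf_one] at h6
        omega
      unfold kap
      rw [if_neg h4]
      have h5 : (1 : ℝ) / q ≤ 1 / 2 := by
        apply one_div_le_one_div_of_le (by norm_num)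
        exact_mod_cast (by omega : 2 ≤ q)
      rw [mul_one_div]
      exact div_le_div_of_nonneg_right (by linarith) (Nat.cast_nonneg l)
    · refine div_nonneg ?_ (Nat.cast_nonneg l)
      unfold kap
      split_ifs
      · norm_num
      · have : (1 : ℝ) / q ≤ 1 := by
          rw [div_le_one hq0]
          exact_mod_cast (by omega : 1 ≤ q)
        linarith
  have h3 : ∑ l ∈ (pr X).filter (fun l => l ∈ P), kap q l / l =
      SP P X - ∑ l ∈ (pr X).filter (fun l => l ∈ P), (1 - kap q l) / l := by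
    rw [h1, ← sum_sub_distrib]
    refine sum_congr rfl fun l _ => ?_
    ring
  rw [h3]
  linarith

/-- powers against the exponential function -/
lemma exp_decay {ε : ℝ} (hε : 0 < ε) {a : ℝ} (ha : 0 < a) (N : ℕ) : ∃ K : ℝ, 0 < K ∧
    ∀ t : ℝ, 1 ≤ t → t ^ N * Real.exp (-(t ^ ε / a)) ≤ K := by
  obtain ⟨k, hk⟩ := exists_nat_ge ((N : ℝ) / ε)
  refine ⟨a ^ k * (k.factorial : ℝ), by positivity, fun t ht => ?_⟩
  have ht0 : 0 < t := by linarith
  have h1 : (t ^ ε / a) ^ k / (k.factorial : ℝ) ≤ Real.exp (t ^ ε / a) :=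
    Real.pow_div_factorial_le_exp _ (by positivity) k
  have h2 : t ^ N ≤ (t ^ ε) ^ k := by
    rw [← Real.rpow_natCast t N, ← Real.rpow_natCast (t ^ ε) k, ← Real.rpow_mul ht0.le]
    refine Real.rpow_le_rpow_of_exponent_le ht ?_
    rw [div_le_iff₀ hε] at hk
    linarith
  rw [Real.exp_neg, ← div_eq_mul_inv, div_le_iff₀ (Real.exp_pos _)]
  have h3 : a ^ k * (k.factorial : ℝ) * ((t ^ ε / a) ^ k / (k.factorial : ℝ)) = (t ^ ε) ^ k := by
    rw [div_pow]
    field_simp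
  calc t ^ N ≤ (t ^ ε) ^ k := h2
    _ = a ^ k * (k.factorial : ℝ) * ((t ^ ε / a) ^ k / (k.factorial : ℝ)) := h3.symm
    _ ≤ a ^ k * (k.factorial : ℝ) * Real.exp (t ^ ε / a) :=
        mul_le_mul_of_nonneg_left h1 (by positivity)

section
variable {L : Type} [Field L] [NumberField L]

lemma good_mono {q B B' : ℕ} (h : Good L q B) (hB : B ∣ B') (hB' : B' ≠ 0) : Good L q B' where
  pr := h.pr
  ge := h.ge
  deg := h.deg
  ne := hB'
  ram := fun l hl hlB => h.ram l hl (fun h1 => hlB (h1.trans hB))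
  zc := fun l hl hlB => h.zc l hl (fun h1 => hlB (h1.trans hB))

lemma data_mono {q B B' : ℕ} {P : Set ℕ} {T : Set ℤ} {δ : ℤ → L} (h : Data L q B P T δ)
    (hB : B ∣ B') : Data L q B' P T δ where
  sq := h.sq
  nz := h.nz
  mem := fun D hD l hl hlD hlB => h.mem D hD l hl hlD (fun h1 => hlB (h1.trans hB))
  out := fun D hD l hl hlB => h.out D hD l hl (fun h1 => hlB (h1.trans hB))
  inn := fun D hD l hl hlB => h.inn D hD l hl (fun h1 => hlB (h1.trans hB))
  rel := fun D hD D' hD' l hl hlB => h.rel D hD D' hD' l hl (fun h1 => hlB (h1.trans hB))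

lemma grp_mono {q B N0 : ℕ} {C C' : ℝ} (h : GrpC L q B N0 C) (hC : C ≤ C') :
    GrpC L q B N0 C' := by
  intro m M 𝒬 δ v0 hm hQ
  obtain ⟨κ, γ, hκ⟩ := h m M 𝒬 δ v0 hm hQ
  refine ⟨κ, γ, fun p hp => ?_⟩
  obtain ⟨h1, h2, h3, h4, h5⟩ := hκ p hp
  refine ⟨h1, h2, h3, fun σ => (h4 σ).trans ?_, h5⟩
  exact mul_le_mul_of_nonneg_right hC (by positivity)

end

end Pool.Agent.Q51.ZC
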