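import Pool.Agent.Q51.ZC.All
import Pool.Agent.Q51.SE.All
import Pool.Agent.Q51.EL.All

/-! # Project ZC: descent for orthogonal families of local zero-cycles -/

set_option autoImplicit false

namespace Pool.Agent.Q51.ZC

open Polynomial NumberField IsDedekindDomain Finset
open Pool.Agent.Q51.EL (Abv N1 pr Setup Gf)
open Pool.Agent.Q51.SE (Parq Zc Alg cl Point IsValue IsUnitAt IdeleCharacter factPrime)

section loc

variable {f : ℤ[X]} {q l : ℕ} [Fact l.Prime]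

lemma unit_one (hf : GoodAt f l) : IsUnitAt f l (1 : (Alg f ℚ_[l])ˣ) :=
  ⟨1, 1, by simp [cl], by simp [cl]⟩

lemma locU_one (hg : GoodAt f l) : LocU f q l 1 := by
  have h := (t_lmul f q l hg).2.2.1 1 1 1 (unit_one hg)
  unfold cst at h
  rwa [map_one, one_pow, one_mul, one_mul] at h

lemma locU_zpow (hg : GoodAt f l) {A : (Alg f ℚ_[l])ˣ} (h : LocU f q l A) (n : ℤ) :
    LocU f q l (A ^ n) := by
  have hn : ∀ k : ℕ, LocU f q l (A ^ k) := by
    intro k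
    induction k with
    | zero => rw [pow_zero]; exact locU_one hg
    | succ k ih => rw [pow_succ]; exact (t_lmul f q l hg).1 _ _ ih h
  rcases n with n | n
  · rw [Int.ofNat_eq_natCast, zpow_natCast]; exact hn n
  · rw [zpow_negSucc]; exact (t_lmul f q l hg).2.1 _ (hn (n + 1))

lemma locP_zpow (hg : GoodAt f l) {D : ℤ} (hD : D ≠ 0) {A : (Alg f ℚ_[l])ˣ} {d : ℤ}
    (h : LocP f q l D A d) (n : ℤ) : LocP f q l D (A ^ n) (n * d) := by
  obtain ⟨h0, h1, h2, -⟩ := (t_lmul f q l hg).2.2.2 D hD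
  have hn : ∀ k : ℕ, LocP f q l D (A ^ k) (k * d) := by
    intro k
    induction k with
    | zero => rw [pow_zero, Nat.cast_zero, zero_mul]; exact h0
    | succ k ih =>
      rw [pow_succ]
      have := h1 _ _ _ _ ih h
      have e : ((k + 1 : ℕ) : ℤ) * d = (k : ℤ) * d + d := by push_cast; ring
      rw [e]
      exact this
  rcases n with n | n
  · rw [Int.ofNat_eq_natCast, zpow_natCast]; exact hn n
  · rw [zpow_negSucc]
    have := h2 _ _ (hn (n + 1))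
    have e : Int.negSucc n * d = -(((n + 1 : ℕ) : ℤ) * d) := by
      rw [Int.negSucc_eq]; push_cast; ring
    rw [e]
    exact this

/-- the values of the zero-cycles at the primes not dividing `D` -/
lemma zloc0 (hf : Irreducible (f.map (Int.castRingHom ℚ))) {m : ℕ} {D : ℤ} (hq : 0 < q)
    (hqn : q ∣ f.natDegree) (hg : GoodAt f l) (hD : ¬ (l : ℤ) ∣ D) (z : List (ℤ × LPt f m D l)) :
    ∀ A : (Alg f ℚ_[l])ˣ, ZVal q z A → LocU f q l A := by
  induction z with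
  | nil => intro A hA; rw [show A = 1 from hA]; exact locU_one hg
  | cons t z ih =>
    rintro A ⟨A1, A2, h1, h2, rfl⟩
    exact (t_lmul f q l hg).1 _ _ (locU_zpow hg (t_l0 f hf q m D l hq hqn hg hD t.2 A1 h1) _)
      (ih A2 h2)

/-- the values of the zero-cycles at the primes dividing `D` -/
lemma zloc1 (hf : Irreducible (f.map (Int.castRingHom ℚ))) {m : ℕ} {D : ℤ} (hq : q.Prime)
    (hqn : q ∣ f.natDegree) (hg : GoodAt f l) (hD : (l : ℤ) ∣ D) (hD2 : ¬ (l : ℤ) ^ 2 ∣ D)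
    (z : List (ℤ × LPt f m D l)) :
    ∀ A : (Alg f ℚ_[l])ˣ, ZVal q z A → LocP f q l D A (zdeg z) := by
  have hD0 : D ≠ 0 := by rintro rfl; exact hD2 (dvd_zero _)
  induction z with
  | nil =>
    intro A hA
    rw [show A = 1 from hA]
    exact ((t_lmul f q l hg).2.2.2 D hD0).1
  | cons t z ih =>
    rintro A ⟨A1, A2, h1, h2, rfl⟩
    have h3 := locP_zpow hg hD0 (t_l1 f hf q m D l hq hqn hg hD hD2 t.2 A1 h1) t.1
    have h4 := ((t_lmul f q l hg).2.2.2 D hD0).2.1 _ _ _ _ h3 (ih A2 h2)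
    have e : zdeg (t :: z) = t.1 * (t.2.deg : ℤ) + zdeg z := by
      unfold zdeg
      rw [List.map_cons, List.sum_cons]
    rw [e]
    exact h4

/-- an element with `LocU` is a product of a constant, a `q`-th power and a unit -/
lemma locU_unit (hg : GoodAt f l) {A : (Alg f ℚ_[l])ˣ} (h : LocU f q l A) :
    ∃ (c : (ℚ_[l])ˣ) (g u : (Alg f ℚ_[l])ˣ), IsUnitAt f l u ∧ A = cst f c * g ^ q * u := by
  obtain ⟨c, κ, hκ⟩ := h
  obtain ⟨h1, h2, -⟩ := t_intp f l hg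
  set v : (Alg f ℚ_[l])ˣ := A * (cst f c * κ ^ q)⁻¹ with hv
  obtain ⟨u, hu1, hu2⟩ := h1 (fun ρ => evl f l ρ v) (fun g ρ hρ => evl_aut g hρ _)
    (fun ρ hρ => ev_ne _ (isZ_of_mem hρ) v)
  have huv : u = v := by
    apply Units.ext
    exact h2 _ _ hu1
  refine ⟨c, κ, v, ?_, ?_⟩
  · rw [← huv]
    refine hu2 fun ρ hρ => ?_
    have hz := isZ_of_mem hρ
    have e1 : evl f l ρ (v : Alg f ℚ_[l]) * (evl f l ρ ((cst f c * κ ^ q : (Alg f ℚ_[l])ˣ) : Alg f ℚ_[l]))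
        = evl f l ρ (A : Alg f ℚ_[l]) := by
      unfold evl
      rw [← ev_mul _ hz, ← Units.val_mul, hv, inv_mul_cancel_right]
    have e2 : evl f l ρ ((cst f c * κ ^ q : (Alg f ℚ_[l])ˣ) : Alg f ℚ_[l]) =
        algebraMap ℚ_[l] (Om l) c * evl f l ρ (κ : Alg f ℚ_[l]) ^ q := by
      unfold evl
      rw [Units.val_mul, ev_mul _ hz, Units.val_pow_eq_pow_val, ev_pow _ hz]
      congr 1
      exact ev_algebraMap _ hz _
    have e3 := hκ ρ hρ
    have e4 := congrArg norm e1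
    rw [norm_mul, e2, norm_mul, norm_pow, norm_ext, e3] at e4
    have e5 : ‖(c : ℚ_[l])‖ * ‖evl f l ρ (κ : Alg f ℚ_[l])‖ ^ q ≠ 0 := by
      refine mul_ne_zero (norm_ne_zero_iff.mpr c.ne_zero) (pow_ne_zero _ (norm_ne_zero_iff.mpr ?_))
      exact ev_ne _ hz κ
    exact mul_right_cancel₀ e5 (by rw [one_mul]; exact e4)
  · rw [hv, mul_comm A, mul_inv_cancel_left]

end loc

/-- an orthogonal family of local zero-cycles, with values `A p` -/
structure OFam (f : ℤ[X]) (q m : ℕ) (D : ℤ) (d : ℤ) : Prop where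
  ex : ∃ (z : ∀ p : Nat.Primes, List (ℤ × LPt f m D (p : ℕ)))
    (A : ∀ p : Nat.Primes, (Alg f ℚ_[(p : ℕ)])ˣ), (∀ p, (q : ℤ) ∣ zdeg (z p) - d) ∧
    (∀ p, ZVal q (z p) (A p)) ∧ ∀ χ : IdeleCharacter f q, ∏ᶠ p : Nat.Primes, χ.loc p (A p) = 1

lemma locP_congr {f : ℤ[X]} {q l : ℕ} [Fact l.Prime] {D : ℤ} {A : (Alg f ℚ_[l])ˣ} {d e : ℤ}
    (h : LocP f q l D A d) (he : (q : ℤ) ∣ d - e) : LocP f q l D A e := by
  obtain ⟨M, c, κ, h1, h2, h3⟩ := h
  refine ⟨M, c, κ, h1, ?_, h3⟩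
  have h4 : ∑ ρ ∈ Rt f l, M ρ - e = (∑ ρ ∈ Rt f l, M ρ - d) + (d - e) := by ring
  rw [h4]
  exact dvd_add h2 he

lemma finprod_zpow' {f : ℤ[X]} {q : ℕ} (χ : IdeleCharacter f q)
    (A : ∀ p : Nat.Primes, (Alg f ℚ_[(p : ℕ)])ˣ) (r : ℕ) (hr : 0 < r)
    (h : ∏ᶠ p : Nat.Primes, χ.loc p (A p) = 1)
    (hfin : {p : Nat.Primes | χ.loc p (A p) ≠ 1}.Finite) :
    ∏ᶠ p : Nat.Primes, χ.loc p (A p ^ r) = 1 := by
  have h1 : ∀ p : Nat.Primes, χ.loc p (A p ^ r) = (χ.loc p (A p)) ^ r := fun p => map_pow _ _ _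
  rw [finprod_congr h1, ← finprod_pow hfin, h, one_pow]

/-- the descent -/
lemma desc1 {f : ℤ[X]} (hf : Irreducible (f.map (Int.castRingHom ℚ))) {q m : ℕ} (hq : q.Prime)
    (hqn : q ∣ f.natDegree) {B : ℕ} (hB : B ≠ 0)
    (hgood : ∀ (l : ℕ) [Fact l.Prime], ¬ l ∣ B → GoodAt f l) {D : ℤ} (hD : Squarefree D) {d : ℤ}
    (hd : ¬ (q : ℤ) ∣ d) (h : OFam f q m D d) :
    ∃ g : ℚ[X], IsCoprime (f.map (Int.castRingHom ℚ)) g ∧ ∀ (l : ℕ) [Fact l.Prime], ¬ l ∣ B →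
      ∃ A : (Alg f ℚ_[l])ˣ, (A : Alg f ℚ_[l]) = cl f ℚ_[l] (g.map (Rat.castHom ℚ_[l])) ∧
        (¬ (l : ℤ) ∣ D → LocU f q l A) ∧ ((l : ℤ) ∣ D → LocP f q l D A 1) := by
  classical
  obtain ⟨z, A, hz, hA, horth⟩ := h.ex
  have hD0 : D ≠ 0 := hD.ne_zero
  have hsq : ∀ l : ℕ, l.Prime → ¬ (l : ℤ) ^ 2 ∣ D := by
    intro l hl h2
    rw [pow_two] at h2
    have h3 := hD _ h2
    rw [Int.isUnit_iff_natAbs_eq, Int.natAbs_natCast] at h3
    exact hl.one_lt.ne' h3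
  -- the local structure of the values
  have hU : ∀ (l : Nat.Primes), ¬ (l : ℕ) ∣ B → ¬ ((l : ℕ) : ℤ) ∣ D → LocU f q l (A l) :=
    fun l hl hlD => zloc0 hf hq.pos hqn (hgood l hl) hlD (z l) (A l) (hA l)
  have hP : ∀ (l : Nat.Primes), ¬ (l : ℕ) ∣ B → ((l : ℕ) : ℤ) ∣ D → LocP f q l D (A l) d :=
    fun l hl hlD => locP_congr (zloc1 hf hq hqn (hgood l hl) hlD (hsq l l.2) (z l) (A l) (hA l)) (hz l)
  -- the exponent
  obtain ⟨r, hr0, hr⟩ : ∃ r : ℕ, 0 < r ∧ (q : ℤ) ∣ (r : ℤ) * d - 1 := by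
    have hcop : IsCoprime d (q : ℤ) :=
      ((Nat.prime_iff_prime_int.mp hq).coprime_iff_not_dvd.mpr hd).symm
    obtain ⟨u, v, huv⟩ := hcop
    refine ⟨(u % q + q).toNat, ?_, ?_⟩
    · have h1 : 0 ≤ u % (q : ℤ) := Int.emod_nonneg _ (by exact_mod_cast hq.ne_zero)
      have h2 : (0 : ℤ) < q := by exact_mod_cast hq.pos
      omega
    · have h1 : 0 ≤ u % (q : ℤ) := Int.emod_nonneg _ (by exact_mod_cast hq.ne_zero)
      have h2 : (0 : ℤ) < q := by exact_mod_cast hq.pos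
      rw [Int.toNat_of_nonneg (by omega)]
      have h3 : (u % q + q) * d - 1 = (q : ℤ) * (d - (u / q) * d - v) := by
        have h4 := Int.emod_add_mul_ediv u q
        have h5 : u % (q : ℤ) = u - q * (u / q) := by linarith
        rw [h5]
        linear_combination huv
      rw [h3]
      exact dvd_mul_right _ _
  have hunit : ∀ p : Nat.Primes, ¬ (p : ℕ) ∣ B * D.natAbs →
      ∃ (c : (ℚ_[(p : ℕ)])ˣ) (g u : (Alg f ℚ_[(p : ℕ)])ˣ), IsUnitAt f (p : ℕ) u ∧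
        A p = cst f c * g ^ q * u := by
    intro p hp
    have hpB : ¬ (p : ℕ) ∣ B := fun h => hp (h.mul_right _)
    have hpD : ¬ ((p : ℕ) : ℤ) ∣ D := fun h => hp ((Int.natCast_dvd.mp h).mul_left _)
    exact locU_unit (hgood p hpB) (hU p hpB hpD)
  have hfin : ∀ χ : IdeleCharacter f q, {p : Nat.Primes | χ.loc p (A p) ≠ 1}.Finite := by
    intro χ
    obtain ⟨B2, hB2, h2⟩ := χ.unr
    have hfin : {p : Nat.Primes | (p : ℕ) ∣ B * D.natAbs * B2}.Finite := by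
      apply Set.Finite.of_finite_image (f := fun p : Nat.Primes => (p : ℕ)) _
        (fun p _ p' _ h => Subtype.ext h)
      apply (Set.finite_Iic (B * D.natAbs * B2)).subset
      rintro _ ⟨p, hp, rfl⟩
      exact Nat.le_of_dvd (Nat.pos_of_ne_zero
        (mul_ne_zero (mul_ne_zero hB (Int.natAbs_ne_zero.mpr hD0)) hB2)) hp
    refine hfin.subset ?_
    intro p hp
    by_contra hB'
    apply hp
    obtain ⟨c, g, u, hu, hacu⟩ := hunit p (fun h => hB' (h.mul_right _))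
    rw [hacu, map_mul, map_mul, map_pow, Pool.Agent.Q51.SE.mpow, mul_one]
    have h3 : χ.loc p (cst f c) = 1 := χ.rat p c
    rw [h3, one_mul]
    exact h2 p (fun h => hB' (h.mul_left _)) u hu
  obtain ⟨g, hcop, hg⟩ := Pool.Agent.Q51.SE.t_dual f hf q hq (fun p => A p ^ r) (B * D.natAbs)
    (B * D.natAbs) (mul_ne_zero hB (Int.natAbs_ne_zero.mpr hD0))
    (mul_ne_zero hB (Int.natAbs_ne_zero.mpr hD0)) (by
      intro p hp
      obtain ⟨c, g, u, hu, hacu⟩ := hunit p hp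
      have hpB : ¬ (p : ℕ) ∣ B := fun h => hp (h.mul_right _)
      have hpD : ¬ ((p : ℕ) : ℤ) ∣ D := fun h => hp ((Int.natCast_dvd.mp h).mul_left _)
      have h1 := locU_zpow (hgood p hpB) (hU p hpB hpD) r
      rw [zpow_natCast] at h1
      exact locU_unit (hgood p hpB) h1)
    (fun χ => finprod_zpow' χ A r hr0 (horth χ) (hfin χ))
  refine ⟨g, hcop, fun l hlF hlB => ?_⟩
  have hgl := hgood l hlB
  obtain ⟨c, g1, u, hu1, hu2, he⟩ := hg ⟨l, hlF.out⟩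
  set Ar : (Alg f ℚ_[l])ˣ := A ⟨l, hlF.out⟩ ^ r with hAr
  set w : (Alg f ℚ_[l])ˣ := Ar * (cst f c * g1 ^ q * u)⁻¹ with hw
  have hwcl : (w : Alg f ℚ_[l]) = cl f ℚ_[l] (g.map (Rat.castHom ℚ_[l])) := by
    have he' : (Ar : Alg f ℚ_[l]) = cl f ℚ_[l] (g.map (Rat.castHom ℚ_[l])) *
      ((cst f c * g1 ^ q * u : (Alg f ℚ_[l])ˣ) : Alg f ℚ_[l]) := he
    rw [hw, Units.val_mul, he', mul_assoc, Units.mul_inv, mul_one]
  refine ⟨w, hwcl, fun hlD => ?_, fun hlD => ?_⟩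
  · have h1 := locU_zpow hgl (hU ⟨l, hlF.out⟩ hlB hlD) r
    rw [zpow_natCast] at h1
    have h2 : LocU f q l (cst f c * g1 ^ q * u) :=
      (t_lmul f q l hgl).2.2.1 c g1 u (hu1 (fun h => by
        rcases (Nat.Prime.dvd_mul hlF.out).mp h with h | h
        · exact hlB h
        · exact hlD (Int.natCast_dvd.mpr h)))
    exact (t_lmul f q l hgl).1 _ _ h1 ((t_lmul f q l hgl).2.1 _ h2)
  · have hu : u = 1 := hu2 ((Int.natCast_dvd.mp hlD).mul_left _)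
    have h1 := locP_zpow hgl hD0 (hP ⟨l, hlF.out⟩ hlB hlD) r
    rw [zpow_natCast] at h1
    obtain ⟨-, h3, h4, h5⟩ := (t_lmul f q l hgl).2.2.2 D hD0
    have h6 := h3 _ _ _ _ h1 (h4 _ _ (h5 c g1))
    have h7 : w = Ar * (cst f c * g1 ^ q)⁻¹ := by rw [hw, hu, mul_one]
    rw [h7]
    refine locP_congr h6 ?_
    have h8 : (r : ℤ) * d + -0 - 1 = r * d - 1 := by ring
    rw [h8]
    exact hr

end Pool.Agent.Q51.ZC
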