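import Pool.Agent.Q51.ZC.Fin

/-! # Project ZC: the upper bound for one `q` -/

set_option autoImplicit false

namespace Pool.Agent.Q51.ZC

open Polynomial NumberField IsDedekindDomain Finset
open Pool.Agent.Q51.EL (Abv N1 pr Setup Gf)
open Pool.Agent.Q51.SE (Parq Zc Alg cl Point IsValue IsUnitAt IdeleCharacter factPrime)

lemma fq_coeff0 (a b : ℤ) {n : ℕ} (hn : 0 < n) : (fq a b n).coeff 0 = b := by
  unfold fq
  rw [coeff_add, coeff_C_mul, coeff_X_pow, if_neg hn.ne, mul_zero, zero_add, coeff_C_zero]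

lemma fq_deg {a : ℤ} (ha : a ≠ 0) (b : ℤ) {n : ℕ} (hn : 0 < n) : (fq a b n).natDegree = n := by
  unfold fq
  compute_degree!
  rw [if_neg hn.ne']
  simpa using ha

lemma fq_lead {a : ℤ} (ha : a ≠ 0) (b : ℤ) {n : ℕ} (hn : 0 < n) :
    (fq a b n).leadingCoeff = a := by
  rw [leadingCoeff, fq_deg ha b hn]
  unfold fq
  rw [coeff_add, coeff_C_mul, coeff_X_pow_self, mul_one, coeff_C, if_neg hn.ne', add_zero]

lemma fq_eval (a b : ℤ) (n : ℕ) (r : ℤ) : (fq a b n).eval r = a * r ^ n + b := by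
  unfold fq; simp

lemma fq_map (a b : ℤ) (n : ℕ) (F : Type) [Field F] :
    (fq a b n).map (Int.castRingHom F) = C (a : F) * X ^ n + C (b : F) := by
  unfold fq; simp

lemma fq_ne {a b : ℤ} {n : ℕ} (hn : 2 ≤ n)
    (h : Irreducible ((fq a b n).map (Int.castRingHom ℚ))) : a ≠ 0 ∧ b ≠ 0 := by
  rw [fq_map] at h
  constructor
  · rintro rfl
    rw [Int.cast_zero, C_0, zero_mul, zero_add] at h
    by_cases hb : b = 0
    · rw [hb, Int.cast_zero, C_0] at h
      exact h.ne_zero rfl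
    · exact h.not_isUnit (isUnit_C.mpr (isUnit_iff_ne_zero.mpr (by exact_mod_cast hb)))
  · rintro rfl
    rw [Int.cast_zero, C_0, add_zero] at h
    by_cases ha : a = 0
    · rw [ha, Int.cast_zero, C_0, zero_mul] at h
      exact h.ne_zero rfl
    obtain ⟨k, rfl⟩ : ∃ k, n = k + 2 := ⟨n - 2, by omega⟩
    have h1 : C (a : ℚ) * X ^ (k + 2) = X * (C (a : ℚ) * X ^ (k + 1)) := by ring
    rw [h1] at h
    rcases h.isUnit_or_isUnit rfl with h2 | h2
    · exact not_isUnit_X h2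
    · have h3 : (X : ℚ[X]) ∣ C (a : ℚ) * X ^ (k + 1) := by
        rw [pow_succ]
        exact (Dvd.intro_left _ rfl : X ∣ X ^ k * X).mul_left _
      exact not_isUnit_X (isUnit_of_dvd_unit h3 h2)

lemma fq_irr {a b : ℤ} {n q : ℕ} (hn : 0 < n) (hqn : q ∣ n)
    (h : Irreducible ((fq a b n).map (Int.castRingHom ℚ))) :
    Irreducible ((fq a b q).map (Int.castRingHom ℚ)) := by
  obtain ⟨r, rfl⟩ := hqn
  have hr : r ≠ 0 := by rintro rfl; simp at hn
  have h1 : (fq a b (q * r)).map (Int.castRingHom ℚ) =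
      expand ℚ r ((fq a b q).map (Int.castRingHom ℚ)) := by
    rw [fq_map, fq_map, map_add, map_mul, expand_C, expand_C, map_pow, expand_X, ← pow_mul,
      mul_comm r q]
  rw [h1] at h
  exact of_irreducible_expand hr h

/-- the primes modulo which `f` has a zero -/
def Pf (f : ℤ[X]) : Set ℕ := {l | l.Prime ∧ ∃ r : ℤ, (l : ℤ) ∣ f.eval r}

/-- the set of the soluble twists with an orthogonal family -/
def Tq (a b : ℤ) (n m q : ℕ) : Set ℤ :=
  {D | Squarefree D ∧ (∀ (p : ℕ) [Fact p.Prime], Nonempty (Point (fq a b n) m D ℚ_[p])) ∧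
    ∃ d : ℤ, ¬ (q : ℤ) ∣ d ∧ OFam (fq a b q) q q D d}

theorem tq_bound {a b : ℤ} {n m q : ℕ} (hn : Odd n) (hm : 2 ≤ m) (hmn : m ∣ n) (hq : q.Prime)
    (hqm : q ∣ m) (hirr : Irreducible ((fq a b n).map (Int.castRingHom ℚ))) :
    ∃ c C : ℝ, 0 < c ∧ ∀ X : ℝ, 3 ≤ X →
      (({D ∈ Tq a b n m q | (D.natAbs : ℝ) ≤ X}.ncard : ℕ) : ℝ) ≤
        C * X / Real.log X * Real.exp (SP (Pf (fq a b n)) X) * Real.log X ^ (-c) := by
  classical
  have hn0 : 0 < n := hn.pos
  have hn2 : 2 ≤ n := hm.trans (Nat.le_of_dvd hn0 hmn)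
  have hqn : q ∣ n := hqm.trans hmn
  have hq3 : 3 ≤ q := by
    have h2 := hq.two_le
    have h3 : q ≠ 2 := by
      rintro rfl
      exact (Nat.not_even_iff_odd.mpr hn) (even_iff_two_dvd.mpr hqn)
    omega
  obtain ⟨ha, hb⟩ := fq_ne hn2 hirr
  have hf := fq_irr hn0 hqn hirr
  set f : ℤ[X] := fq a b q with hfdef
  have hfdeg : f.natDegree = q := fq_deg ha b hq.pos
  have : Fact (Irreducible (f.map (Int.castRingHom ℚ))) := ⟨hf⟩
  set L := AdjoinRoot (f.map (Int.castRingHom ℚ)) with hL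
  have hfd : FiniteDimensional ℚ L := PowerBasis.finite (AdjoinRoot.powerBasis hf.ne_zero)
  have : CharZero L := algebraRat.charZero L
  have : NumberField L := { to_charZero := inferInstance, to_finiteDimensional := hfd }
  set θ : L := AdjoinRoot.root (f.map (Int.castRingHom ℚ)) with hθ
  have hnd : (f.map (Int.castRingHom ℚ)).natDegree = f.natDegree :=
    natDegree_map_eq_of_injective (Int.castRingHom ℚ).injective_int f
  have hset : Setup f L θ := by
    refine ⟨hf, ?_, ?_⟩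
    · have h1 := AdjoinRoot.eval₂_root (f.map (Int.castRingHom ℚ))
      rw [eval₂_map] at h1
      rw [aeval_def, ← h1]
      congr 1
    · rw [(AdjoinRoot.powerBasis hf.ne_zero).finrank, AdjoinRoot.powerBasis_dim, hnd]
  have haev : ∀ d : ℚ[X], aeval θ d = AdjoinRoot.mk (f.map (Int.castRingHom ℚ)) d := by
    intro d; rw [hθ]; exact AdjoinRoot.aeval_eq d
  obtain ⟨B1, hB1, hgood⟩ := t_goodat f hf
  obtain ⟨B2, hB2, hram⟩ := (Pool.Agent.Q91.EL.ram L).1
  obtain ⟨B3, hB3, hzc⟩ := Pool.Agent.Q51.SE.zeta f q hq (by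
    have h := Pool.Agent.Q51.SE.fermat_cond hq 1 ha hb
    rw [pow_one] at h
    exact h) L θ hset
  obtain ⟨B4, hB4, hn1⟩ := t_n1r f L θ hset
  set B : ℕ := B1 * B2 * B3 * B4 * a.natAbs with hB
  have hB0 : B ≠ 0 := mul_ne_zero (mul_ne_zero (mul_ne_zero (mul_ne_zero hB1 hB2) hB3) hB4)
    (Int.natAbs_ne_zero.mpr ha)
  have d1 : B1 ∣ B := ⟨B2 * B3 * B4 * a.natAbs, by rw [hB]; ring⟩
  have d2 : B2 ∣ B := ⟨B1 * B3 * B4 * a.natAbs, by rw [hB]; ring⟩
  have d3 : B3 ∣ B := ⟨B1 * B2 * B4 * a.natAbs, by rw [hB]; ring⟩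
  have d4 : B4 ∣ B := ⟨B1 * B2 * B3 * a.natAbs, by rw [hB]; ring⟩
  have d5 : a.natAbs ∣ B := ⟨B1 * B2 * B3 * B4, by rw [hB]; ring⟩
  have hG : Good L q B :=
    { pr := hq
      ge := hq3
      deg := by rw [hset.deg, hfdeg]
      ne := hB0
      ram := fun l hl hlB => hram l hl (fun h => hlB (h.trans d2))
      zc := fun l hl hlB => hzc l hl (fun h => hlB (h.trans d3)) }
  obtain ⟨R, c1, C1, hc1, hR, hSP⟩ := t_lrg a b n q hn hq hqn ha hb B hB0
  have hLg : Large L q B (Pf (fq a b n)) R :=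
    { sub := fun p hp => ⟨(hR p hp).1, (hR p hp).2.2.2⟩
      pr := fun p hp => (hR p hp).1
      nd := fun p hp => (hR p hp).2.1
      one := fun p hp => by
        obtain ⟨h1, h2, h3, r, hr⟩ := hR p hp
        refine hn1 p h1 (fun h => h2 (h.trans d4)) ⟨r ^ (n / q), ?_⟩
        rw [hfdef, fq_eval, ← pow_mul, Nat.div_mul_cancel hqn]
        rwa [fq_eval] at hr
      ord := fun p hp => (hR p hp).2.2.1 }
  obtain ⟨c, C, hc, heng⟩ := t_eng L q B (Pf (fq a b n)) R hG hLg c1 C1 hc1 hSP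
  refine ⟨c, C, hc, fun X hX => ?_⟩
  have hgood' : ∀ (l : ℕ) [Fact l.Prime], ¬ l ∣ B → GoodAt f l := fun l _ hl =>
    hgood l (fun h => hl (h.trans d1))
  have hqf : q ∣ f.natDegree := by rw [hfdeg]
  have hdesc : ∀ D ∈ Tq a b n m q, ∃ g : ℚ[X], IsCoprime (f.map (Int.castRingHom ℚ)) g ∧
      ∀ (l : ℕ) [Fact l.Prime], ¬ l ∣ B →
      ∃ A : (Alg f ℚ_[l])ˣ, (A : Alg f ℚ_[l]) = cl f ℚ_[l] (g.map (Rat.castHom ℚ_[l])) ∧
        (¬ (l : ℤ) ∣ D → LocU f q l A) ∧ ((l : ℤ) ∣ D → LocP f q l D A 1) := by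
    rintro D ⟨hDs, -, d, hd, hfam⟩
    exact desc1 hf hq hqf hB0 hgood' hDs hd hfam
  choose! g hcop hg using hdesc
  have hsq : ∀ D ∈ Tq a b n m q, ∀ l : ℕ, l.Prime → ¬ (l : ℤ) ^ 2 ∣ D := by
    intro D hD l hl h2
    rw [pow_two] at h2
    have h3 := hD.1 _ h2
    rw [Int.isUnit_iff_natAbs_eq, Int.natAbs_natCast] at h3
    exact hl.one_lt.ne' h3
  have hdata : Data L q B (Pf (fq a b n)) (Tq a b n m q) (fun D => aeval θ (g D)) :=
    { sq := fun D hD => hD.1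
      nz := fun D hD h0 => by
        rw [haev, AdjoinRoot.mk_eq_zero] at h0
        exact hf.not_isUnit ((hcop D hD).isUnit_of_dvd' dvd_rfl h0)
      mem := fun D hD l hl hlD hlB => by
        have : Fact l.Prime := ⟨hl⟩
        refine ⟨hl, t_epr (fq a b n) m D l hm (by rw [fq_deg ha b hn0]; exact hmn) ?_ hlD
          (hsq D hD l hl) (hD.2.1 l)⟩
        rw [fq_lead ha b hn0]
        exact fun h => hlB ((Int.natCast_dvd.mp h).trans d5)
      out := fun D hD l hl hlB hlD => by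
        have : Fact l.Prime := ⟨hl⟩
        obtain ⟨A, hA1, hA2, -⟩ := hg D hD l hlB
        exact t_trau f L θ hset q l (hgood' l hlB) (hG.ram l hl hlB) (g D) A hA1 (hA2 hlD)
      inn := fun D hD l hl hlB hlD => by
        have : Fact l.Prime := ⟨hl⟩
        obtain ⟨A, hA1, -, hA2⟩ := hg D hD l hlB
        exact t_trap f L θ hset q l hq hqf (hgood' l hlB) (hG.ram l hl hlB) D hlD (hsq D hD l hl)
          (g D) A 1 hA1 (by simp) (hA2 hlD)
      rel := fun D hD D' hD' l hl hlB hlD hlD' M hM hM' => by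
        have : Fact l.Prime := ⟨hl⟩
        obtain ⟨A, hA1, -, hA2⟩ := hg D hD l hlB
        obtain ⟨A', hA1', -, hA2'⟩ := hg D' hD' l hlB
        exact t_trar f L θ hset q l hq hqf (hgood' l hlB) (hG.ram l hl hlB) D D' hlD
          (hsq D hD l hl) hlD' (hsq D' hD' l hl) (g D) (g D') A A' 1 1 hA1 hA1' (hA2 hlD)
          (hA2' hlD') M hM hM' }
  exact heng _ _ hdata X hX

end Pool.Agent.Q51.ZC
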