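import Pool.Agent.Q51.ZC.Zer4

/-! # Project ZC: points of small degree -/

set_option autoImplicit false

namespace Pool.Agent.Q51.ZC

open Polynomial

/-- There is a point of degree at most `m`. -/
lemma small_point {a b : ℤ} {n m : ℕ} (hn : 0 < n) (hm : 0 < m) (ha : a ≠ 0) {D : ℤ} (hD : D ≠ 0) :
    ∃ (K : Type) (_ : Field K) (_ : NumberField K), Module.finrank ℚ K ≤ m ∧
      Nonempty (CPoint a b n m D K) := by
  classical
  set f : ℚ[X] := C (D : ℚ) * X ^ m - C (a : ℚ) with hf
  have hD' : (D : ℚ) ≠ 0 := by exact_mod_cast hD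
  have hdeg : f.natDegree = m := by
    rw [hf, sub_eq_add_neg, ← C_neg]
    compute_degree!
    rw [if_neg hm.ne']
    simpa using hD
  have hf0 : f ≠ 0 := by
    intro h
    rw [h, natDegree_zero] at hdeg
    omega
  have hnu : ¬ IsUnit f := by
    intro h
    have := natDegree_eq_zero_of_isUnit h
    omega
  obtain ⟨g, hg, hgf⟩ := WfDvdMonoid.exists_irreducible_factor hnu hf0
  have : Fact (Irreducible g) := ⟨hg⟩
  have hfd : FiniteDimensional ℚ (AdjoinRoot g) :=
    PowerBasis.finite (AdjoinRoot.powerBasis hg.ne_zero)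
  have : CharZero (AdjoinRoot g) := algebraRat.charZero _
  refine ⟨AdjoinRoot g, inferInstance,
    { to_charZero := inferInstance, to_finiteDimensional := hfd }, ?_, ?_⟩
  · rw [(AdjoinRoot.powerBasis hg.ne_zero).finrank, AdjoinRoot.powerBasis_dim, ← hdeg]
    exact natDegree_le_of_dvd hgf hf0
  · refine ⟨⟨1, 0, AdjoinRoot.root g, Or.inl one_ne_zero, ?_⟩⟩
    have h1 : eval₂ (AdjoinRoot.of g) (AdjoinRoot.root g) f = 0 := by
      obtain ⟨h, hh⟩ := hgf
      rw [hh, eval₂_mul, AdjoinRoot.eval₂_root, zero_mul]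
    rw [hf, eval₂_sub, eval₂_mul, eval₂_pow, eval₂_X, eval₂_C, eval₂_C, sub_eq_zero, map_intCast,
      map_intCast] at h1
    rw [one_pow, mul_one, zero_pow hn.ne', mul_zero, add_zero]
    exact h1

end Pool.Agent.Q51.ZC
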