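import Pool.Agent.Q51.ZC.Zer4
import Pool.Agent.Q51.ZC.Zer5

/-!
# Project ZC (helper51): zero-cycles on `C_D` over the completions of a number field, definitions

`K` is a number field.  The completions of `K` at the places above `p` are the residue fields `K_v` of the ring
`ℚ_p ⊗ K`.  For a closed point of `C_D` over `K_v` the local invariant of the restriction of `A_χ` to `(C_D)_K` is the
invariant of `A_χ` at the same point considered as a closed point over `ℚ_p` (its direct image).
-/

set_option autoImplicit false

namespace Pool.Agent.Q51.ZC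

open Polynomial Finset TensorProduct
open Pool.Agent.Q51.SE (polOver polNorm ClassCharacter LocalCharacter count)

/-- The algebra `ℚ_p ⊗ K`. -/
abbrev QpK (K : Type) [Field K] [NumberField K] (p : Nat.Primes) : Type := ℚ_[(p : ℕ)] ⊗[ℚ] K

/-- The places of the number field `K` above `p`, given by the maximal ideals of `ℚ_p ⊗ K`. -/
def PlacesAbove (K : Type) [Field K] [NumberField K] (p : Nat.Primes) : Type :=
  MaximalSpectrum (QpK K p)

/-- The maximal ideal of `ℚ_p ⊗ K` given by a place above `p`. -/
def PlacesAbove.ideal {K : Type} [Field K] [NumberField K] {p : Nat.Primes}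
    (v : PlacesAbove K p) : Ideal (QpK K p) := MaximalSpectrum.asIdeal v

instance PlacesAbove.isMaximal {K : Type} [Field K] [NumberField K] {p : Nat.Primes}
    (v : PlacesAbove K p) : v.ideal.IsMaximal := MaximalSpectrum.isMaximal v

/-- The completion `K_v` of the number field `K` at a place above `p`. -/
def Kv (K : Type) [Field K] [NumberField K] (p : Nat.Primes) (v : PlacesAbove K p) : Type :=
  QpK K p ⧸ v.ideal

/-- `K_v` is a field. -/
noncomputable def kvField (K : Type) [Field K] [NumberField K] (p : Nat.Primes)
    (v : PlacesAbove K p) : Field (Kv K p v) :=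
  Ideal.Quotient.field v.ideal

attribute [instance] kvField

/-- The map from `ℚ_p ⊗ K` to its residue field `K_v`. -/
noncomputable def mkKv (K : Type) [Field K] [NumberField K] (p : Nat.Primes)
    (v : PlacesAbove K p) : QpK K p →+* Kv K p v :=
  Ideal.Quotient.mk v.ideal

lemma mkKv_surj {K : Type} [Field K] [NumberField K] {p : Nat.Primes} (v : PlacesAbove K p) :
    Function.Surjective (mkKv K p v) :=
  Ideal.Quotient.mk_surjective

lemma mkKv_zero {K : Type} [Field K] [NumberField K] {p : Nat.Primes} (v : PlacesAbove K p)
    (x : QpK K p) : mkKv K p v x = 0 ↔ x ∈ v.ideal :=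
  Ideal.Quotient.eq_zero_iff_mem

/-- `K_v` is an algebra over `ℚ_p`. -/
noncomputable instance kvAlgebra (K : Type) [Field K] [NumberField K] (p : Nat.Primes)
    (v : PlacesAbove K p) : Algebra ℚ_[(p : ℕ)] (Kv K p v) :=
  ((mkKv K p v).comp (algebraMap ℚ_[(p : ℕ)] (QpK K p))).toAlgebra

/-- The map from `ℚ_p ⊗ K` to `K_v` as a homomorphism of algebras. -/
noncomputable def mkKvA (K : Type) [Field K] [NumberField K] (p : Nat.Primes)
    (v : PlacesAbove K p) : QpK K p →ₐ[ℚ_[(p : ℕ)]] Kv K p v :=
  { mkKv K p v with commutes' := fun _ => rfl }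

instance kvFinite (K : Type) [Field K] [NumberField K] (p : Nat.Primes)
    (v : PlacesAbove K p) : FiniteDimensional ℚ_[(p : ℕ)] (Kv K p v) :=
  Module.Finite.of_surjective (mkKvA K p v).toLinearMap (mkKv_surj v)

/-- A closed point of `C_D` over `K_v` (with a finite extension `M` of `K_v` containing its coordinates). -/
structure ClosedPointOver (a b : ℤ) (n m : ℕ) (D : ℤ) (K : Type) [Field K] [NumberField K]
    (p : Nat.Primes) (v : PlacesAbove K p) where
  /-- the field -/
  M : Type
  [field : Field M]
  [algebra : Algebra (Kv K p v) M]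
  [finite : FiniteDimensional (Kv K p v) M]
  /-- the point -/
  point : CPoint a b n m D M

attribute [instance] ClosedPointOver.field ClosedPointOver.algebra ClosedPointOver.finite

section

variable {a b : ℤ} {n m : ℕ} {D : ℤ} {K : Type} [Field K] [NumberField K] {p : Nat.Primes}
  {v : PlacesAbove K p}

/-- The degree over `K_v` of the closed point. -/
noncomputable def ClosedPointOver.degree (P : ClosedPointOver a b n m D K p v) : ℕ :=
  Module.finrank (Kv K p v) P.M

/-- The field of the closed point as an extension of `ℚ_p`. -/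
noncomputable abbrev ClosedPointOver.alg (P : ClosedPointOver a b n m D K p v) :
    Algebra ℚ_[(p : ℕ)] P.M :=
  ((algebraMap (Kv K p v) P.M).comp (algebraMap ℚ_[(p : ℕ)] (Kv K p v))).toAlgebra

lemma ClosedPointOver.tower (P : ClosedPointOver a b n m D K p v) :
    letI := P.alg
    IsScalarTower ℚ_[(p : ℕ)] (Kv K p v) P.M :=
  letI := P.alg
  IsScalarTower.of_algebraMap_eq' rfl

lemma ClosedPointOver.fin (P : ClosedPointOver a b n m D K p v) :
    letI := P.alg
    FiniteDimensional ℚ_[(p : ℕ)] P.M :=
  letI := P.alg
  haveI := P.tower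
  Module.Finite.trans (Kv K p v) P.M

/-- The closed point, considered as a closed point over `ℚ_p`. -/
noncomputable def ClosedPointOver.overQp (P : ClosedPointOver a b n m D K p v) :
    ClosedPoint a b n m D p where
  K := P.M
  algebra := P.alg
  finite := P.fin
  point := P.point

/-- The local invariant of the restriction of `A_χ` at the closed point. -/
noncomputable def ClosedPointOver.inv {q : ℕ} (P : ClosedPointOver a b n m D K p v)
    (χ : ClassCharacter (fq a b q) q) : ZMod q :=
  P.overQp.inv χ

end

/-- The zero-cycles of `C_D` over `K_v`, given by lists of closed points with multiplicities. -/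
abbrev ZeroCycleOver (a b : ℤ) (n m : ℕ) (D : ℤ) (K : Type) [Field K] [NumberField K]
    (p : Nat.Primes) (v : PlacesAbove K p) : Type 1 :=
  List (ℤ × ClosedPointOver a b n m D K p v)

section

variable {a b : ℤ} {n m : ℕ} {D : ℤ} {K : Type} [Field K] [NumberField K] {p : Nat.Primes}
  {v : PlacesAbove K p}

/-- The degree over `K_v` of a zero-cycle. -/
noncomputable def ZeroCycleOver.degree (z : ZeroCycleOver a b n m D K p v) : ℤ :=
  (z.map fun t => t.1 * (t.2.degree : ℤ)).sum

/-- The local invariant of the restriction of `A_χ` at a zero-cycle. -/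
noncomputable def ZeroCycleOver.inv {q : ℕ} (z : ZeroCycleOver a b n m D K p v)
    (χ : ClassCharacter (fq a b q) q) : ZMod q :=
  (z.map fun t => (t.1 : ZMod q) * t.2.inv χ).sum

end

/-- There is a family of zero-cycles of `C_D` over the completions `K_v` of `K` at its finite places, of degrees
congruent to `d` modulo `q`, which is orthogonal to the restrictions of all classes `A_χ` to `(C_D)_K`: the sum of
the local invariants is zero. -/
def HasOrthogonalFamilyOver (a b : ℤ) (n m : ℕ) (D : ℤ) (K : Type) [Field K] [NumberField K] (q : ℕ)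
    (d : ℤ) : Prop :=
  ∃ z : ∀ (p : Nat.Primes) (v : PlacesAbove K p), ZeroCycleOver a b n m D K p v,
    (∀ p v, (q : ℤ) ∣ (z p v).degree - d) ∧
    ∀ χ : ClassCharacter (fq a b q) q,
      ∑ᶠ p : Nat.Primes, ∑ᶠ v : PlacesAbove K p, (z p v).inv χ = 0

/-- For some number field `K` and some prime factor `q` of `m` which does not divide `[K : ℚ]` there is an
orthogonal family of local zero-cycles of a degree prime to `q`, over the completions of `K`. -/
def Unobstructed (a b : ℤ) (n m : ℕ) (D : ℤ) : Prop :=
  ∃ q : ℕ, q.Prime ∧ q ∣ m ∧ ∃ (K : Type) (_ : Field K) (_ : NumberField K),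
    ¬ q ∣ Module.finrank ℚ K ∧ ∃ d : ℤ, ¬ (q : ℤ) ∣ d ∧ HasOrthogonalFamilyOver a b n m D K q d

end Pool.Agent.Q51.ZC
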