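import Pool.Agent.Q51.ZC.KZer

/-! # Project ZC: the direct image of zero-cycles over the completions of a number field -/

set_option autoImplicit false

namespace Pool.Agent.Q51.ZC

open Polynomial Finset TensorProduct
open Pool.Agent.Q51.SE (polOver polNorm ClassCharacter LocalCharacter count)

lemma places_artinian (K : Type) [Field K] [NumberField K] (p : Nat.Primes) :
    IsArtinianRing (QpK K p) := IsArtinianRing.of_finite ℚ_[(p : ℕ)] _

lemma places_reduced (K : Type) [Field K] [NumberField K] (p : Nat.Primes) :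
    IsReduced (QpK K p) := by
  have := Algebra.FormallyUnramified.of_isSeparable ℚ K
  have h : Algebra.FormallyUnramified ℚ_[(p : ℕ)] (ℚ_[(p : ℕ)] ⊗[ℚ] K) := inferInstance
  exact Algebra.FormallyUnramified.isReduced_of_field ℚ_[(p : ℕ)] _

instance places_finite (K : Type) [Field K] [NumberField K] (p : Nat.Primes) :
    Finite (PlacesAbove K p) := by
  have := places_artinian K p
  exact inferInstanceAs (Finite (MaximalSpectrum (QpK K p)))

lemma finrank_kv (K : Type) [Field K] [NumberField K] (p : Nat.Primes) (v : PlacesAbove K p) :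
    Module.finrank ℚ_[(p : ℕ)] (QpK K p ⧸ v.ideal) = Module.finrank ℚ_[(p : ℕ)] (Kv K p v) := by
  let e : (QpK K p ⧸ v.ideal) →ₗ[ℚ_[(p : ℕ)]] Kv K p v :=
    { toFun := fun x => x
      map_add' := fun _ _ => rfl
      map_smul' := by
        intro r x
        obtain ⟨y, rfl⟩ := Ideal.Quotient.mk_surjective x
        have h1 : r • (Ideal.Quotient.mk v.ideal) y = Ideal.Quotient.mk v.ideal (r • y) := rfl
        rw [h1, Algebra.smul_def, map_mul]
        rfl }
  exact (LinearEquiv.ofBijective e ⟨fun _ _ h => h, fun x => ⟨x, rfl⟩⟩).finrank_eq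

/-- The sum of the local degrees is the degree. -/
lemma sum_degrees (K : Type) [Field K] [NumberField K] (p : Nat.Primes) [Fintype (PlacesAbove K p)] :
    ∑ v : PlacesAbove K p, Module.finrank ℚ_[(p : ℕ)] (Kv K p v) = Module.finrank ℚ K := by
  have := places_artinian K p
  have := places_reduced K p
  letI : Fintype (MaximalSpectrum (QpK K p)) := inferInstanceAs (Fintype (PlacesAbove K p))
  let e : QpK K p ≃ₗ[ℚ_[(p : ℕ)]] (∀ I : MaximalSpectrum (QpK K p), QpK K p ⧸ I.asIdeal) :=
    ((IsArtinianRing.equivPi (QpK K p)).restrictScalars ℚ_[(p : ℕ)]).toLinearEquiv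
  have h := e.finrank_eq
  rw [Module.finrank_pi_fintype, Module.finrank_baseChange] at h
  rw [h]
  exact Finset.sum_congr rfl fun v _ => (finrank_kv K p v).symm

section

variable {a b : ℤ} {n m : ℕ} {D : ℤ} {K : Type} [Field K] [NumberField K] {p : Nat.Primes}

lemma overQp_degree {v : PlacesAbove K p} (P : ClosedPointOver a b n m D K p v) :
    P.overQp.degree = Module.finrank ℚ_[(p : ℕ)] (Kv K p v) * P.degree := by
  letI := P.alg
  haveI := P.tower
  haveI := P.fin
  exact (Module.finrank_mul_finrank ℚ_[(p : ℕ)] (Kv K p v) P.M).symm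

/-- the direct image of one zero-cycle -/
noncomputable def push1 {v : PlacesAbove K p} (z : ZeroCycleOver a b n m D K p v) :
    ZeroCycle a b n m D p :=
  z.map fun t => (t.1, t.2.overQp)

/-- the direct image of a family of zero-cycles -/
noncomputable def push [Fintype (PlacesAbove K p)]
    (z : ∀ v : PlacesAbove K p, ZeroCycleOver a b n m D K p v) : ZeroCycle a b n m D p :=
  (Finset.univ : Finset (PlacesAbove K p)).toList.flatMap fun v => push1 (z v)

lemma push1_degree {v : PlacesAbove K p} (z : ZeroCycleOver a b n m D K p v) :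
    ZeroCycle.degree (push1 z) = (Module.finrank ℚ_[(p : ℕ)] (Kv K p v) : ℤ) * z.degree := by
  unfold ZeroCycle.degree ZeroCycleOver.degree push1
  rw [List.map_map, ← List.sum_map_mul_left]
  congr 1
  refine List.map_congr_left fun t _ => ?_
  simp only [Function.comp]
  rw [overQp_degree]
  push_cast
  ring

lemma push1_inv {q : ℕ} {v : PlacesAbove K p} (z : ZeroCycleOver a b n m D K p v)
    (χ : ClassCharacter (fq a b q) q) : ZeroCycle.inv (push1 z) χ = z.inv χ := by
  unfold ZeroCycle.inv ZeroCycleOver.inv push1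
  rw [List.map_map]
  rfl

lemma flatMap_degree {ι : Type} (l : List ι) (f : ι → ZeroCycle a b n m D p) :
    ZeroCycle.degree (l.flatMap f) = (l.map fun i => ZeroCycle.degree (f i)).sum := by
  induction l with
  | nil => rfl
  | cons i l ih =>
    rw [List.flatMap_cons, List.map_cons, List.sum_cons, ← ih]
    unfold ZeroCycle.degree
    rw [List.map_append, List.sum_append]

lemma flatMap_inv {q : ℕ} (χ : ClassCharacter (fq a b q) q) {ι : Type} (l : List ι)
    (f : ι → ZeroCycle a b n m D p) :
    ZeroCycle.inv (l.flatMap f) χ = (l.map fun i => ZeroCycle.inv (f i) χ).sum := by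
  induction l with
  | nil => rfl
  | cons i l ih =>
    rw [List.flatMap_cons, List.map_cons, List.sum_cons, ← ih]
    unfold ZeroCycle.inv
    rw [List.map_append, List.sum_append]

lemma push_degree [Fintype (PlacesAbove K p)]
    (z : ∀ v : PlacesAbove K p, ZeroCycleOver a b n m D K p v) :
    ZeroCycle.degree (push z) =
      ∑ v, (Module.finrank ℚ_[(p : ℕ)] (Kv K p v) : ℤ) * ZeroCycleOver.degree (z v) := by
  unfold push
  rw [flatMap_degree, Finset.sum_map_toList]
  exact Finset.sum_congr rfl fun v _ => push1_degree (z v)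

lemma push_inv [Fintype (PlacesAbove K p)] {q : ℕ}
    (z : ∀ v : PlacesAbove K p, ZeroCycleOver a b n m D K p v)
    (χ : ClassCharacter (fq a b q) q) :
    ZeroCycle.inv (push z) χ = ∑ᶠ v, ZeroCycleOver.inv (z v) χ := by
  unfold push
  rw [flatMap_inv, finsum_eq_sum_of_fintype, Finset.sum_map_toList]
  exact Finset.sum_congr rfl fun v _ => push1_inv (z v) χ

end

/-- The direct image of an orthogonal family over the completions of `K` is an orthogonal family over the
fields `ℚ_p`. -/
lemma ortho_push {a b : ℤ} {n m : ℕ} {D : ℤ} (K : Type) [Field K] [NumberField K] {q : ℕ} {d : ℤ}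
    (h : HasOrthogonalFamilyOver a b n m D K q d) :
    HasOrthogonalFamily a b n m D q (d * Module.finrank ℚ K) := by
  classical
  obtain ⟨z, hz1, hz2⟩ := h
  have : ∀ p, Nonempty (Fintype (PlacesAbove K p)) := fun p => ⟨Fintype.ofFinite _⟩
  let I : ∀ p, Fintype (PlacesAbove K p) := fun p => Classical.choice (this p)
  refine ⟨fun p => letI := I p; push (z p), fun p => ?_, fun χ => ?_⟩
  · letI := I p
    show (q : ℤ) ∣ ZeroCycle.degree (push (z p)) - _
    rw [push_degree, ← sum_degrees K p]
    push_cast
    rw [Finset.mul_sum, ← Finset.sum_sub_distrib]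
    refine Finset.dvd_sum fun v _ => ?_
    obtain ⟨k, hk⟩ := hz1 p v
    refine ⟨Module.finrank ℚ_[(p : ℕ)] (Kv K p v) * k, ?_⟩
    linear_combination (Module.finrank ℚ_[(p : ℕ)] (Kv K p v) : ℤ) * hk
  · refine Eq.trans (finsum_congr fun p => ?_) (hz2 χ)
    letI := I p
    exact push_inv (z p) χ

lemma unob_push {a b : ℤ} {n m : ℕ} {D : ℤ} (h : Unobstructed a b n m D) :
    UnobstructedOverQ a b n m D := by
  obtain ⟨q, hq, hqm, K, hK, hKn, hd, d, hqd, h⟩ := h
  refine ⟨q, hq, hqm, d * Module.finrank ℚ K, ?_, ortho_push K h⟩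
  intro h2
  rcases (Nat.prime_iff_prime_int.mp hq).dvd_or_dvd h2 with h3 | h3
  · exact hqd h3
  · exact hd (by exact_mod_cast h3)

end Pool.Agent.Q51.ZC
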