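import Pool.Agent.Q51.ZC.KZer2

/-! # Project ZC: the theorem on zero-cycles, over all number fields -/

set_option autoImplicit false

namespace Pool.Agent.Q51.ZC

open Polynomial Finset TensorProduct
open Pool.Agent.Q51.SE (polOver polNorm ClassCharacter LocalCharacter count)

/-- The number of the squarefree `D` with `|D| ≤ X` for which `C_D` is everywhere locally soluble and one of the
following holds: there is an unobstructed family of local zero-cycles of a degree not divisible by all prime
factors of `m`, over `ℚ` or over a number field `K` (`Unobstructed`), or there is a closed point of a degree not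
divisible by all prime factors of `m`. -/
noncomputable def numExceptional (a b : ℤ) (n m : ℕ) (X : ℝ) : ℝ :=
  count (fun D => Soluble a b n m D ∧
    (UnobstructedOverQ a b n m D ∨ Unobstructed a b n m D ∨ IndexNotDivisible a b n m D)) X

section

variable {a b : ℤ} {n m : ℕ}

/-- Over the completions of `K` almost all local invariants of a family of zero-cycles vanish. -/
lemma fin_supp_over (ha : a ≠ 0) {q : ℕ} (hq : q.Prime) (hn : 0 < n) (hqn : q ∣ n)
    (hqm : q ∣ m) (hf : Irreducible ((fq a b q).map (Int.castRingHom ℚ))) {D : ℤ} (hD : D ≠ 0)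
    (K : Type) [Field K] [NumberField K]
    (z : ∀ (p : Nat.Primes) (v : PlacesAbove K p), ZeroCycleOver a b n m D K p v)
    (χ : ClassCharacter (fq a b q) q) :
    {p : Nat.Primes | ∃ v, (z p v).inv χ ≠ 0}.Finite := by
  classical
  set w : ∀ p : Nat.Primes, ZeroCycle a b n m D p := fun p =>
    if h : ∃ v, (z p v).inv χ ≠ 0 then push1 (z p (Classical.choose h)) else [] with hw
  refine (fin_supp ha hq hn hqn hqm hf hD w χ).subset ?_
  intro p hp
  rw [Set.mem_ofPred_eq] at hp ⊢
  rw [hw]
  simp only
  rw [dif_pos hp, push1_inv]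
  exact Classical.choose_spec hp

theorem main_over (hn : Odd n) (hm : 1 < m) (hmn : m ∣ n)
    (hirr : Irreducible (C (a : ℚ) * X ^ n + C (b : ℚ))) :
    ∃ δ C : ℝ, 0 < δ ∧ ∀ X : ℝ, 3 ≤ X →
      numExceptional a b n m X ≤ C * Real.log X ^ (-δ) * numLocSoluble a b n m X := by
  obtain ⟨h1, ⟨δ, C, hδ, h2⟩, -⟩ := main hn hm hmn hirr
  refine ⟨δ, C, hδ, fun X hX => le_trans ?_ (h2 X hX).1⟩
  unfold numExceptional numUnobstructedOverQ
  exact_mod_cast count_mono (fun D hD h => by
    refine ⟨h.1, ?_⟩
    rcases h.2 with h | h | h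
    · exact h
    · exact unob_push h
    · obtain ⟨K, hK, hKn, ⟨P⟩, q, hq, hqm, hd⟩ := h
      refine ⟨q, hq, hqm, Module.finrank ℚ K, ?_, (h1 D hD.ne_zero q hq hqm).2.2 K P⟩
      intro h2
      exact hd (by exact_mod_cast h2)) X

/-- For squarefree `m` the index is exactly `m`. -/
lemma index_eq (hn : 0 < n) (hm : 0 < m) (ha : a ≠ 0) (hsq : Squarefree m) {D : ℤ} (hD : D ≠ 0)
    (h : ¬ IndexNotDivisible a b n m D) :
    (∀ (K : Type) [Field K] [NumberField K], CPoint a b n m D K → m ∣ Module.finrank ℚ K) ∧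
    ∃ (K : Type) (_ : Field K) (_ : NumberField K), Module.finrank ℚ K = m ∧
      Nonempty (CPoint a b n m D K) := by
  have h1 : ∀ (K : Type) [Field K] [NumberField K], CPoint a b n m D K →
      m ∣ Module.finrank ℚ K := by
    intro K _ _ P
    rw [← Nat.prod_primeFactors_of_squarefree hsq]
    refine Finset.prod_primes_dvd _ (fun q hq => (Nat.prime_of_mem_primeFactors hq).prime)
      fun q hq => ?_
    by_contra h2
    exact h ⟨K, inferInstance, inferInstance, ⟨P⟩, q, Nat.prime_of_mem_primeFactors hq,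
      Nat.dvd_of_mem_primeFactors hq, h2⟩
  refine ⟨h1, ?_⟩
  obtain ⟨K, hK, hKn, hle, ⟨P⟩⟩ := small_point (b := b) hn hm ha hD
  refine ⟨K, hK, hKn, ?_, ⟨P⟩⟩
  have h2 := Nat.le_of_dvd Module.finrank_pos (h1 K P)
  omega

end

end Pool.Agent.Q51.ZC
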