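import Pool.Agent.Q51.ZC.Def

/-!
# Project ZC (helper51), Part A: the sieve

The setting of Part A.  `q ≥ 3` is prime, `L` a number field of degree `q`, `B ≠ 0` such that every prime
`l ∤ B` is unramified in `L` and satisfies `Zc L q l` (the residue fields above `l` of order `≠ l` contain the
`q`-th roots of unity, and `l ≡ 1 mod q` if there are two primes of norm `l`).  `T` is a set of squarefree
integers `D`, with an element `δ_D ∈ L^*` for each, such that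

* for every prime `l ∤ B D` the valuations of `δ_D` at all primes above `l` are congruent modulo `q`;
* for every prime `l ∣ D`, `l ∤ B`, they satisfy `∑ f_v M_v ≡ 1 mod q`;
* for two elements `D, D'` of `T` divisible by `l ∤ B` with the same valuations (up to a constant) the elements
  `δ_D`, `δ_D'` are related at `l` by `Rel`.

The number of the `D ∈ T` with `|D| ≤ X` whose prime factors are (essentially) in a set `P` is then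
`≤ C X / log X * exp (∑_{l ∈ P} 1/l) * (log X) ^ (-c)`.  PROOF: write `D = ± d m p`, `d ∣ B`, `p` a large prime for
which `L` has exactly two primes above `p`, of degrees `1` and `q - 1`.  For fixed `d, m` and fixed valuations
above `m` the `δ_D` belong to boundedly many classes, and in each class to elements `γ_p ∈ 𝓞 L` in the box
`|σ γ| ≤ C p ^ (1/q)` which lie in a fixed coset of a subgroup of index `ind` of `(𝓞/l)^*` for `l ∣ m`, and which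
are units at the other small primes (`S_GRP`); their number is bounded by the large sieve (`S_ONE`).  Finally
sum over the valuations and over `m`.
-/

set_option autoImplicit false

namespace Pool.Agent.Q51.ZC

open Polynomial NumberField IsDedekindDomain Finset
open Pool.Agent.Q51.EL (Abv N1 pr Setup Gf)
open Pool.Agent.Q51.SE (Parq Zc)

/-- `L` has degree `q`, the primes not dividing `B` are good -/
structure Good (L : Type) [Field L] [NumberField L] (q B : ℕ) : Prop where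
  pr : q.Prime
  ge : 3 ≤ q
  deg : Module.finrank ℚ L = q
  ne : B ≠ 0
  ram : ∀ l : ℕ, l.Prime → ¬ l ∣ B → Squarefree (Ideal.span {(l : 𝓞 L)})
  zc : ∀ l : ℕ, l.Prime → ¬ l ∣ B → Zc L q l

/-! ### Integers -/

open Classical in
/-- JOB HT. Upper bound for the number of the squarefree integers composed of the primes of a set.
Proof.  Let `g` be the indicator function of these integers, `X ≥ 2`.
`∑_{m ≤ X} g(m) log m = ∑_m g(m) ∑_{l ∣ m} log l ≤ ∑_{k ≤ X} g(k) ∑_{l ≤ X/k} log l ≤ C X ∑_{k ≤ X} g(k)/k` (Chebyshev;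
`m = k l`, `g(m) ≤ g(k)`), and `∑_m g(m) log (X/m) ≤ ∑ g(m) X/m`.  So `log X * ∑ g(m) ≤ (C + 1) X ∑_{k ≤ X} g(k)/k` and
`∑_{k ≤ X} g(k)/k ≤ ∏_{l ∈ P, l ≤ X} (1 + 1/l) ≤ exp (∑ 1/l)`. -/
def S_HT : Prop := ∃ C : ℝ, 0 < C ∧ ∀ (P : Set ℕ) (X : ℝ), 2 ≤ X →
  (((Icc 1 ⌊X⌋₊).filter (fun m : ℕ => Squarefree m ∧
    ∀ l : ℕ, l.Prime → l ∣ m → l ∈ P)).card : ℝ) ≤
  C * X / Real.log X * Real.exp (∑ l ∈ (pr X).filter (fun l => l ∈ P), (1 : ℝ) / l)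

/-- JOB SMO. Few integers have a large smooth part.
Proof (Rankin).  `κ = 1 / log z`.  The number is at most `∑_s X / s`, the sum over the squarefree `s > S`
composed of primes `≤ z`, `≤ X S^(-κ) ∏_{l ≤ z} (1 + l^(κ-1))`; `l^κ ≤ e` for `l ≤ z`, so the product is
`≤ exp (e ∑_{l ≤ z} 1/l) ≤ C (log z)^e ≤ C' (log z)^3` (Mertens; `2 ≤ z`, `e < 3`). -/
def S_SMO : Prop := ∃ C : ℝ, 0 < C ∧ ∀ X z S : ℝ, 1 ≤ X → 2 ≤ z → 1 ≤ S →
  (((Icc 1 ⌊X⌋₊).filter (fun m : ℕ => Squarefree m ∧ S < (smo z m : ℝ))).card : ℝ) ≤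
    C * X * Real.log z ^ 3 * Real.exp (-(Real.log S / Real.log z))

open Classical in
/-- JOB SUMM. The final sum over `m`.
Proof.  The sum is `≤ ∏_{l ∈ P, l ≤ X} (1 + h(l)/l) ≤ exp (∑ h(l)/l)`, `h(l)` the factor at `l`.  For `l ≤ z`:
`e^(q/l) ≤ 1 + q e^q / l`, so `h(l)/l ≤ kap/l + q e^q/l²`, and `∑ 1/l²` converges.  For `z < l ≤ X`:
`h(l) ≤ q^q e^q` and `∑_{z < l ≤ X} 1/l ≤ log (log X / log z) + C` (Mertens, e.g. `mertens_ap 1` in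
`Pool/Agent/Y405/CQ/MER.lean`). -/
def S_SUMM : Prop := ∀ q : ℕ, 3 ≤ q → ∃ C : ℝ, 0 < C ∧ ∀ (P : Set ℕ) (z X : ℝ), 3 ≤ z → z ≤ X →
  ∑ m ∈ (Icc 1 ⌊X⌋₊).filter (fun m : ℕ => Squarefree m ∧ ∀ l : ℕ, l.Prime → l ∣ m → l ∈ P),
    (1 / (m : ℝ)) * ∏ l ∈ m.primeFactors,
      (if (l : ℝ) ≤ z then kap q l else (q : ℝ) ^ q) * Real.exp ((q : ℝ) / l) ≤
  C * Real.exp (∑ l ∈ (pr X).filter (fun l => l ∈ P), kap q l / l) *
    (Real.log X / Real.log z) ^ ((q : ℝ) ^ q * Real.exp q)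

/-! ### Residue classes and valuations -/

/-- JOB CLS. The number of the residue classes allowed by `Rel`.
Proof.  `T` may be assumed nonempty; fix `γ0 ∈ T`, `k = #ab L l`, `n = [L : ℚ]`, `k_v = 𝓞/v`.  Let `γ ∈ T`,
`γ ≡ s1 s2^(M v) g^q γ0` (relatively modulo `v`), where `v(γ) = v(γ0) = 0`; so `v(s1 g^q) = 0` (`s2` is a unit at
`l`), i.e. `ord_l(s1) + q ord_v(g) = 0` (`l` is unramified: `(l)` is squarefree), so `ord_l(s1) = q t`; replace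
`s1` by `s1 l^(-q t)` and `g` by `g l^t`: now `s1, s2` and `g` are units at `v`.  So the residue class of `γ` in
`(𝓞/l)^* = ∏ k_v^*` lies in the coset `γ0 H`, `H` the set of the `(s t^(M v) g_v^q)_v`, `s, t ∈ F_l^*`,
`g_v ∈ k_v^*`.  `H` contains `H0 = ∏ k_v^{*q}`, and `H/H0` is generated by the images of two groups
`F_l^*/F_l^{*q}`.
If `l ≡ 1 mod q`: all `|k_v| - 1` are divisible by `q`, `|H0| = |∏ k_v^*| q^(-k)`, `|H/H0| ≤ q²`, so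
`|H| ≤ l^n q^(2-k)`.  If `l ≢ 1 mod q`: `F_l^{*q} = F_l^*`, so `H = H0`; by `Zc` at most one of the `k_v` has
`|k_v| = l` and `q ∣ |k_v| - 1` for the others, so `|H0| ≤ l^n q^(-(k-1))`. -/
def S_CLS : Prop := ∀ (L : Type) [Field L] [NumberField L] (q l : ℕ), q.Prime → l.Prime →
  Squarefree (Ideal.span {(l : 𝓞 L)}) → Zc L q l → ∀ (M : HeightOneSpectrum (𝓞 L) → ℤ) (T : Set (𝓞 L)),
  (∀ γ ∈ T, ∀ v : HeightOneSpectrum (𝓞 L), Abv v l → γ ∉ v.asIdeal) →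
  (∀ γ ∈ T, ∀ γ' ∈ T, Rel q l M (γ : L) (γ' : L)) →
  (((Ideal.Quotient.mk (Ideal.span {(l : 𝓞 L)}) '' T).ncard : ℕ) : ℝ) ≤
    (l : ℝ) ^ Module.finrank ℚ L * (ind L q l)⁻¹

/-- JOB MSET. The possible vectors of valuations modulo `q` at the primes above the prime factors of `m`.
Proof.  Let `l ∣ m` be prime.  `∑_{v ∣ l} dg l v = [L : ℚ] = q` (`l` is unramified, `Ideal.sum_ramification_inertia`;
`absNorm v = l ^ f_v`).  If there is no `v` above `l` with `q ∤ dg l v`, then `Deg1` is impossible at `l`, the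
second assertion is empty, and the empty set will do.  Otherwise there is such a `v1`, and a second one `v* ≠ v1`
(the sum is divisible by `q`); so `k_l = #ab L l ≥ 2`.  Normal form of a vector `M'` with `Deg1`: subtract the
constant `M' v*` (this changes `∑ dg * M'` by a multiple of `q`), and reduce modulo `q` to `0 ≤ M v < q`; then
`M v* = 0`, the `M v`, `v ≠ v*, v1`, are arbitrary (`q^(k_l - 2)` choices), and `M v1` is determined by `Deg1`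
(`dg l v1` is invertible modulo `q`).  `ℳ` = the set of the `M` that are in normal form at all `l ∣ m` and `0` at the
other `v` (a prime `v` lies above only one `l`). -/
def S_MSET : Prop := ∀ (L : Type) [Field L] [NumberField L] (q B : ℕ), Good L q B →
  ∀ m : ℕ, Squarefree m → m.Coprime B →
  ∃ ℳ : Finset (HeightOneSpectrum (𝓞 L) → ℤ),
    ((ℳ.card : ℕ) : ℝ) ≤ ∏ l ∈ m.primeFactors, (q : ℝ) ^ (((ab L l).card : ℤ) - 2) ∧
    ∀ M' : ℕ → HeightOneSpectrum (𝓞 L) → ℤ, (∀ l ∈ m.primeFactors, Deg1 q l (M' l)) →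
    ∃ M ∈ ℳ, ∀ l ∈ m.primeFactors, ∃ e : ℤ, ∀ v : HeightOneSpectrum (𝓞 L), Abv v l →
      (q : ℤ) ∣ M' l v - (M v + e)

/-- JOB TWO. The large prime `p`: if `p` has order `q - 1` modulo `q` and `L` has a prime of norm `p`, then
`Deg1` determines the valuations up to a constant.
Proof.  `p ≢ 1 mod q`.  Let `v0` be a prime of norm `p`.  By `Zc` every other `v` above `p` satisfies
`N v ≠ p`, `N v = p^(dg v) ≡ 1 mod q`, so `q - 1 ∣ dg v`.  As `∑ dg = q`, there is exactly one other `v`, and its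
degree is `q - 1`.  `Deg1`: `M v0 + (q - 1) M v ≡ 1`, i.e. `M v0 ≡ M v + 1 mod q`. -/
def S_TWO : Prop := ∀ (L : Type) [Field L] [NumberField L] (q B : ℕ), Good L q B →
  ∀ p : ℕ, p.Prime → ¬ p ∣ B → 1 ≤ N1 L p → orderOf (p : ZMod q) = q - 1 →
  ∃ v0 : HeightOneSpectrum (𝓞 L), Abv v0 p ∧ Ideal.absNorm v0.asIdeal = p ∧
    ∀ M : HeightOneSpectrum (𝓞 L) → ℤ, Deg1 q p M →
    ∀ v : HeightOneSpectrum (𝓞 L), Abv v p → v ≠ v0 → (q : ℤ) ∣ M v0 - (M v + 1)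

/-- JOB IND. `q^(k-2) / ind = kap`, and `q^(k-2) ≤ q^q`.
Proof.  The first is immediate (`q ≠ 0`).  For the second: `k = #ab L l ≤ [L : ℚ] = q` (`∑ dg = q`, `dg ≥ 1`; or
`Ideal.sum_ramification_inertia`). -/
def S_IND : Prop := ∀ (L : Type) [Field L] [NumberField L] (q B : ℕ), Good L q B →
  ∀ l : ℕ, l.Prime → ¬ l ∣ B →
    (q : ℝ) ^ (((ab L l).card : ℤ) - 2) * (ind L q l)⁻¹ = kap q l ∧
    (q : ℝ) ^ (((ab L l).card : ℤ) - 2) ≤ (q : ℝ) ^ q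

/-! ### The sieve for one `m` -/

/-- JOB ONE. The sieve for fixed `m` and fixed valuations.
Proof (from `S_CLS`; `S_SIEVE`, `S_SUMS`, `S_M1` of project EL, proved: `Pool.Agent.Q51.EL.Stm`, see
`Pool/Agent/Q51/EL/All.lean` for the names of the proofs; compare `Pool/Agent/Q91/EL/Core.lean`).  Let `T_Y` be the
set of the `γ ∈ T` in the box, `s = smo z m`, so `s Z² ≤ Y`.  By the Chinese remainder theorem and `S_CLS` the image
of `T_Y` in `𝓞/s` has at most `∏_{l ∣ m, l ≤ z} l^q / ind_l = s^q ∏ ind_l⁻¹` elements.  Every residue class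
modulo `s` has a representative `r` with `|σ r| ≤ C1 s` (coordinates in `[0, s)`, integral basis), and for
`γ = r + s β ∈ T_Y`: `|σ β| ≤ (Y + C1 s)/s ≤ C2 Y/s =: Y1` (`Y ≥ s`).  Let `T_r = {β ∈ 𝓞 : r + s β ∈ T}` and `𝒫` the
set of the primes `l`, `q² < l ≤ Z`, `l ∤ B m`, with `N1 L l ≥ 1`, `η_l = N1/l - q²/l² > 0`.  For `l ∈ 𝒫` the elements
`r + s β`, `β ∈ T_r`, lie in no prime above `l`, and `β ↦ r + s β` is a bijection modulo `l` (`l ∤ s`); so the image of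
`T_r` in `𝓞/l` has at most `∏ (N v - 1) ≤ l^q (1 - 1/l)^N1 ≤ l^q (1 - η_l)` elements (see the proof of `S_CNT` of
project EL, `Pool/Agent/Q247/EL/CNT.lean`).  `S_SIEVE` and `S_SUMS` (`Q = ⌊√Y1⌋₊ ≥ Z`, may take `C2 ≥ 1`):
the number of the `β ∈ T_r` with `|σ β| ≤ Y1` is `≤ C Y1^q exp (-∑_{l ∈ 𝒫} η_l)`, and
`∑_{𝒫} η_l ≥ ∑_{l ≤ Z} N1/l - ∑_{l ∣ m} q/l - C ≥ (1 - ε) log log Z - ∑_{l ∣ m} q/l - C` (`N1 ≤ q`, `S_M1`).
Altogether `≤ s^q ∏ ind⁻¹ * C (C2 Y/s)^q exp (∑_{l ∣ m} q/l) (log Z)^(-(1-ε))`. -/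
def S_ONE : Prop := ∀ (L : Type) [Field L] [NumberField L] (q B : ℕ), Good L q B →
  ∀ ε : ℝ, 0 < ε → ∃ C : ℝ, 0 < C ∧
  ∀ (m : ℕ) (M : HeightOneSpectrum (𝓞 L) → ℤ) (z Z Y : ℝ) (T : Set (𝓞 L)),
  Squarefree m → m.Coprime B → 3 ≤ Z → (smo z m : ℝ) * Z ^ 2 ≤ Y →
  (∀ γ ∈ T, ∀ l : ℕ, l.Prime → (l : ℝ) ≤ Z → ¬ l ∣ B → ¬ l ∣ m →
    ∀ v : HeightOneSpectrum (𝓞 L), Abv v l → γ ∉ v.asIdeal) →
  (∀ l : ℕ, l.Prime → l ∣ m → (l : ℝ) ≤ z →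
    (∀ γ ∈ T, ∀ v : HeightOneSpectrum (𝓞 L), Abv v l → γ ∉ v.asIdeal) ∧
    ∀ γ ∈ T, ∀ γ' ∈ T, Rel q l M (γ : L) (γ' : L)) →
  {γ ∈ T | ∀ σ : L →+* ℂ, ‖σ (γ : L)‖ ≤ Y}.Finite ∧
  (({γ ∈ T | ∀ σ : L →+* ℂ, ‖σ (γ : L)‖ ≤ Y}.ncard : ℕ) : ℝ) ≤
    C * Y ^ q * (∏ l ∈ m.primeFactors.filter (fun l : ℕ => (l : ℝ) ≤ z), (ind L q l)⁻¹) *
      (∏ l ∈ m.primeFactors, Real.exp ((q : ℝ) / l)) * Real.log Z ^ (-(1 - ε))

/-! ### Classes -/

/-- JOB PRN. A small generator of `v0` times an ideal of a finite set.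
Proof.  Let `𝔠_1, .., 𝔠_h ⊆ 𝓞` be nonzero ideals representing the ideal classes, `B = ∏ N 𝔠_i`.  For every `v0`
there is an `i` with `v0 𝔠_i = (γ0)` principal; for `v ∌ B`, `v ≠ v0`, `γ0 ∉ v`.  By `S_UNQ` of project SE
(`Pool.Agent.Q26.SE.unq`, `q = 1`) there is a unit `u` with `|σ (γ0 u)| ≤ C N(γ0)^(1/n) ≤ C' N(v0)^(1/n)`. -/
def S_PRN : Prop := ∀ (L : Type) [Field L] [NumberField L], ∃ (B : ℕ) (C : ℝ), B ≠ 0 ∧ 0 < C ∧
  ∀ v0 : HeightOneSpectrum (𝓞 L), ∃ γ : 𝓞 L, γ ≠ 0 ∧ γ ∈ v0.asIdeal ∧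
    (∀ v : HeightOneSpectrum (𝓞 L), (B : 𝓞 L) ∉ v.asIdeal → v ≠ v0 → γ ∉ v.asIdeal) ∧
    ((B : 𝓞 L) ∉ v0.asIdeal → v0.valuation L (γ : L) = WithZero.exp (-1 : ℤ)) ∧
    ∀ σ : L →+* ℂ, ‖σ (γ : L)‖ ≤
      C * ((Ideal.absNorm v0.asIdeal : ℕ) : ℝ) ^ ((1 : ℝ) / Module.finrank ℚ L)

/-- JOB SELF. The Selmer group of the field is finite.
Proof.  `S_CLQ` of project SE (`Pool.Agent.Q51.SE.clq` in `Q51/SE/Cl.lean`), with `B0 = B`, `S = ∅`, gives `B'`, `C` and for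
every `x` as in the statement an `η` with `x η^q = α ∈ 𝓞`, `N(α) ≤ C`; `S_UNQ` (`Pool.Agent.Q26.SE.unq`) gives a unit `u`
with `|σ (α u^q)| ≤ C'`; there are only finitely many such elements of `𝓞`
(`NumberField.Embeddings.finite_of_norm_le`).  (The hypothesis of `S_CLQ` is about the `v ∌ B'`, `B ∣ B'`, so it
follows from the one here.) -/
def S_SELF : Prop := ∀ (L : Type) [Field L] [NumberField L] (q : ℕ), 2 ≤ q → ∀ B : ℕ, B ≠ 0 →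
  ∃ F : Finset L, ∀ x : L, x ≠ 0 →
  (∀ v : HeightOneSpectrum (𝓞 L), (B : 𝓞 L) ∉ v.asIdeal → Parq q v x 0) →
  ∃ y ∈ F, ∃ η : L, η ≠ 0 ∧ x = y * η ^ q

/-- JOB GRP. For fixed `m` and fixed valuations at the primes above `m` the `δ_p` belong to boundedly many
classes, represented by small integers `γ_p`.
Proof (from `S_PRN`, `S_SELF`).  Let `B1, C` be as in `S_PRN`, `B = B0 B1`, `F` as in `S_SELF` for `B`, `N0 = #F`
(`≥ 1`: apply `S_SELF` to `x = 1`), `γ_p` as in `S_PRN` for `v0 = v0 p`.  Let `p ∈ 𝒬`.  For every prime `l ∤ B` there is an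
`e_l`; for almost all `l` we may take `e_l = 0` (all valuations of `δ_p` above `l` are `1`, and `l ∤ m p`).  Let
`c_p = ∏_{l ∤ B} l^(-e_l) ∈ ℚ^*`.  For `v` above `l ∤ B` we have `v(l) = exp (-1)` (`l` is unramified), so the
valuation of `c_p δ_p` at `v` is `≡ 0` (`l ∤ m p`), `≡ M v` (`l ∣ m`), `≡ 1` (`v = v0 p`), `≡ 0` (`v ∣ p`, `v ≠ v0`)
modulo `q`.  So for `p, p' ∈ 𝒬` the element `x(p, p') = c_p' δ_p' γ_p / (c_p δ_p γ_p')` satisfies the hypothesis of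
`S_SELF` (note: `v0 p ∤ B`, `ord γ_p = 1` there; `γ_p ∉ v` at the other `v ∌ B`; `m` cancels).  If `𝒬` is empty there is nothing to
do; otherwise fix `p0 ∈ 𝒬` and let `κ p` be the (index of a) `y ∈ F` with `x(p0, p) = y η^q`.  If `κ p = κ p'`, then
`x(p, p') = x(p0, p') / x(p0, p)` is a `q`-th power. -/
def S_GRP : Prop := ∀ (L : Type) [Field L] [NumberField L] (q : ℕ), 2 ≤ q → ∀ B0 : ℕ, B0 ≠ 0 →
  (∀ l : ℕ, l.Prime → ¬ l ∣ B0 → Squarefree (Ideal.span {(l : 𝓞 L)})) →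
  ∃ (B N0 : ℕ) (C : ℝ), B ≠ 0 ∧ B0 ∣ B ∧ 0 < C ∧ 0 < N0 ∧
  ∀ (m : ℕ) (M : HeightOneSpectrum (𝓞 L) → ℤ) (𝒬 : Set ℕ) (δ : ℕ → L)
    (v0 : ℕ → HeightOneSpectrum (𝓞 L)), m ≠ 0 →
  (∀ p ∈ 𝒬, p.Prime ∧ ¬ p ∣ B ∧ ¬ p ∣ m ∧ δ p ≠ 0 ∧ Abv (v0 p) p ∧
    (∀ l : ℕ, l.Prime → ¬ l ∣ B0 → ¬ l ∣ m → l ≠ p → ∃ e : ℤ, VecP q l (δ p) (fun _ => e)) ∧
    (∀ l : ℕ, l.Prime → ¬ l ∣ B0 → l ∣ m → ∃ e : ℤ, VecP q l (δ p) (fun v => M v + e)) ∧
    ∃ e : ℤ, Parq q (v0 p) (δ p) (e + 1) ∧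
      ∀ v : HeightOneSpectrum (𝓞 L), Abv v p → v ≠ v0 p → Parq q v (δ p) e) →
  ∃ (κ : ℕ → Fin N0) (γ : ℕ → 𝓞 L), ∀ p ∈ 𝒬, γ p ≠ 0 ∧ γ p ∈ (v0 p).asIdeal ∧
    (∀ v : HeightOneSpectrum (𝓞 L), (B : 𝓞 L) ∉ v.asIdeal → v ≠ v0 p → γ p ∉ v.asIdeal) ∧
    (∀ σ : L →+* ℂ, ‖σ (γ p : L)‖ ≤
      C * ((Ideal.absNorm (v0 p).asIdeal : ℕ) : ℝ) ^ ((1 : ℝ) / Module.finrank ℚ L)) ∧
    ∀ p' ∈ 𝒬, κ p = κ p' → ∃ (c : ℚ) (η : L), c ≠ 0 ∧ η ≠ 0 ∧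
      (γ p' : L) * δ p * (c : L) * η ^ q = δ p' * γ p

/-! ### The bound -/

/-- the data of Part A for a set `T` of integers -/
structure Data (L : Type) [Field L] [NumberField L] (q B : ℕ) (P : Set ℕ) (T : Set ℤ)
    (δ : ℤ → L) : Prop where
  sq : ∀ D ∈ T, Squarefree D
  nz : ∀ D ∈ T, δ D ≠ 0
  mem : ∀ D ∈ T, ∀ l : ℕ, l.Prime → (l : ℤ) ∣ D → ¬ l ∣ B → l ∈ P
  out : ∀ D ∈ T, ∀ l : ℕ, l.Prime → ¬ l ∣ B → ¬ (l : ℤ) ∣ D → ∃ e : ℤ, VecP q l (δ D) (fun _ => e)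
  inn : ∀ D ∈ T, ∀ l : ℕ, l.Prime → ¬ l ∣ B → (l : ℤ) ∣ D →
    ∃ M : HeightOneSpectrum (𝓞 L) → ℤ, VecP q l (δ D) M ∧ Deg1 q l M
  rel : ∀ D ∈ T, ∀ D' ∈ T, ∀ l : ℕ, l.Prime → ¬ l ∣ B → (l : ℤ) ∣ D → (l : ℤ) ∣ D' →
    ∀ M : HeightOneSpectrum (𝓞 L) → ℤ, (∃ e : ℤ, VecP q l (δ D) (fun v => M v + e)) →
    (∃ e : ℤ, VecP q l (δ D') (fun v => M v + e)) → Rel q l M (δ D) (δ D')

open Classical in
/-- the sum of the reciprocals of the primes of `P` up to `X` -/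
noncomputable def SP (P : Set ℕ) (X : ℝ) : ℝ := ∑ l ∈ (pr X).filter (fun l => l ∈ P), (1 : ℝ) / l

/-- the set `R` of the large primes -/
structure Large (L : Type) [Field L] [NumberField L] (q B : ℕ) (P R : Set ℕ) : Prop where
  sub : R ⊆ P
  pr : ∀ p ∈ R, p.Prime
  nd : ∀ p ∈ R, ¬ p ∣ B
  one : ∀ p ∈ R, 1 ≤ N1 L p
  ord : ∀ p ∈ R, orderOf (p : ZMod q) = q - 1

/-- GOAL of Part A. -/
def S_ENG : Prop := ∀ (L : Type) [Field L] [NumberField L] (q B : ℕ) (P R : Set ℕ), Good L q B →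
  Large L q B P R → ∀ c1 C1 : ℝ, 0 < c1 →
  (∀ X Y : ℝ, 3 ≤ Y → Y ≤ X → c1 * Real.log (Real.log X / Real.log Y) - C1 ≤ SP R X - SP R Y) →
  ∃ c C : ℝ, 0 < c ∧ ∀ (T : Set ℤ) (δ : ℤ → L), Data L q B P T δ → ∀ X : ℝ, 3 ≤ X →
  (({D ∈ T | (D.natAbs : ℝ) ≤ X}.ncard : ℕ) : ℝ) ≤
    C * X / Real.log X * Real.exp (SP P X) * Real.log X ^ (-c)

end Pool.Agent.Q51.ZC
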