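import Pool.Agent.Q51.ZC.Bas
import Pool.Agent.Q51.ZC.Stm

/-!
# Project ZC (helper51), Part B: local zero-cycles

`f ∈ ℤ[X]` irreducible over `ℚ`, of degree `n`, `q ∣ n` prime; `K` a finite extension of `ℚ_l`, `P` a point over
`K` of `C_D : D y ^ m = F(x, w)`, `A ∈ (ℚ_l[X]/(f))^*` the norm of a value of `x - θ w` at `P` (`LPt.IsVal`).

Notation of the docstrings: `Om = Om l` is the algebraic closure of `ℚ_l` with its norm `‖.‖`, `G` the group of its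
automorphisms `g : Om l ≃ₐ[ℚ_[l]] Om l` (they preserve the norm: `norm_aut` in `Bas.lean`), `A_ρ = evl f l ρ A` for
`ρ ∈ Rt f l` (so `A_(gρ) = g A_ρ`: `evl_aut`), `lc = f.leadingCoeff`, `a ≈ b` means `‖a - b‖ < ‖a‖` (so `‖b‖ = ‖a‖`;
this is a congruence for products, inverses and powers: `ap_mul, ap_inv, ap_zpow, ap_prod, ap_symm, ap_trans` in
`Bas.lean`).  `GoodAt f l`: the elements `ρ ∈ Rt f l` are integral with differences of norm `1`, and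
`lc` has norm `1`.
-/

set_option autoImplicit false

namespace Pool.Agent.Q51.ZC

open Polynomial NumberField IsDedekindDomain Finset
open Pool.Agent.Q51.EL (Abv N1 pr Setup Gf)
open Pool.Agent.Q51.SE (Parq Zc Alg cl Point IsValue IsUnitAt IdeleCharacter factPrime)

/-- a rational constant as a unit of the algebra -/
noncomputable def cst (f : ℤ[X]) {F : Type} [Field F] (c : Fˣ) : (Alg f F)ˣ :=
  Units.map (algebraMap F (Alg f F)).toMonoidHom c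

/-! ### Generalities -/

/-- JOB GOODAT. Almost all primes are good.
Proof.  `f` and `f'` are coprime over `ℚ`: `U f + V f' = N`, `U, V ∈ ℤ[X]`, `0 ≠ N ∈ ℤ`.  `B = |lc N|`.  Let `l ∤ B`.  Over
`Om l` (algebraically closed, characteristic `0`) `f` is separable and splits: `#Rt = deg f`.  `|ρ| > 1` is
impossible, since then `|lc ρ^n| = |ρ|^n` is larger than all other `|a_i ρ^i|`.  For `ρ ∈ Rt`: `V(ρ) f'(ρ) = N`, so
`‖f'(ρ)‖ ≥ 1`, and `f'(ρ) = lc ∏_{ρ' ≠ ρ} (ρ - ρ')`, all factors of norm `≤ 1`. -/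
def S_GOODAT : Prop := ∀ f : ℤ[X], Irreducible (f.map (Int.castRingHom ℚ)) →
  ∃ B : ℕ, B ≠ 0 ∧ ∀ (l : ℕ) [Fact l.Prime], ¬ l ∣ B → GoodAt f l

/-- JOB UNR. `ℚ_l(T)` is unramified.
Proof.  Let `F = ℚ_l(T)`, `r` its degree; the conjugates `T_1, .., T_r` of `T` (zeros of the minimal polynomial of `T`
over `ℚ_l`) are of the form `g_j T` (`G` acts transitively on them), `‖T_i - T_j‖ = ‖g_j⁻¹ g_i T - T‖ = 1` for `i ≠ j`.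
`y` is fixed by all `g` that fix `T`, i.e. by `Gal(Om/F)`, so `y ∈ F` (`Om/ℚ_l` is a Galois extension:
`InfiniteGalois`, or `IsGalois F Om`), `y = ∑_{i<r} c_i T^i`, `c_i ∈ ℚ_l`.  `‖y‖ ≤ max ‖c_i‖` is clear; conversely
`g_j y = ∑ c_i T_j^i` and the Vandermonde matrix `(T_j^i)` has integral entries and a determinant of norm `1`, so
`‖c_i‖ ≤ max_j ‖g_j y‖ = ‖y‖` (Cramer).  So `‖y‖ = max ‖c_i‖` is a power of `l` (`y ≠ 0`; `norm_ext`). -/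
def S_UNR : Prop := ∀ (l : ℕ) [Fact l.Prime] (T : Om l), ‖T‖ ≤ 1 →
  (∀ g : Om l ≃ₐ[ℚ_[l]] Om l, g T ≠ T → ‖g T - T‖ = 1) →
  ∀ y : Om l, y ≠ 0 → (∀ g : Om l ≃ₐ[ℚ_[l]] Om l, g T = T → g y = y) → ∃ k : ℤ, ‖y‖ = (l : ℝ) ^ k

/-- JOB TEI. Teichmüller representatives.
Proof.  Let `‖ξ‖ ≤ 1`.  `ξ` is a zero of a monic polynomial over `ℤ_l` (or: of a nonzero polynomial over `ℤ_l` with
some coefficient a unit: scale the minimal polynomial), so its class in the residue field of `Om` is algebraic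
over `F_l`, and there is an `N ≥ 1` with `‖ξ^(l^N) - ξ‖ < 1`.  `X^(l^N) - X` splits over `Om`, and different zeros have
a difference of norm `1` (derivative at a zero `t`: `l^N t^(l^N - 1) - 1` has norm `1` and is the product of the
differences, all of norm `≤ 1`); so there is a zero `t` with `‖ξ - t‖ < 1`.  There is only one `t` with `‖ξ - t‖ < 1`
and `t^(l^N) = t` for some `N ≥ 1` (two such `t, t'` are zeros of the same `X^(l^(N N')) - X`).  This is `tei ξ`.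
All assertions follow from the uniqueness (`g t` has the same properties for `g ξ`). -/
def S_TEI : Prop := ∀ (l : ℕ) [Fact l.Prime], ∃ tei : Om l → Om l, ∀ ξ : Om l, ‖ξ‖ ≤ 1 →
  ‖tei ξ - ξ‖ < 1 ∧ (∀ g : Om l ≃ₐ[ℚ_[l]] Om l, tei (g ξ) = g (tei ξ)) ∧
  ∀ ξ' : Om l, ‖ξ'‖ ≤ 1 → (‖ξ - ξ'‖ < 1 → tei ξ = tei ξ') ∧ (tei ξ ≠ tei ξ' → ‖tei ξ - tei ξ'‖ = 1)

/-- JOB INTP. Interpolation.
Proof.  `u(X) = ∑_ρ u_ρ ∏_{ρ' ≠ ρ} (X - ρ')/(ρ - ρ')` has coefficients fixed by `G`, so in `ℚ_l`; `κ` = its class; the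
inverse comes from the `1/u_ρ` and injectivity.  If all `‖u_ρ‖ = 1` the coefficients are integral (denominators of
norm `1`), also for the inverse.  Injectivity: a polynomial over `ℚ_l` which vanishes at all `ρ ∈ Rt` is divisible
by `f` (`f = lc ∏ (X - ρ)` over `Om`, `#Rt = deg f`; divisibility descends from `Om` to `ℚ_l`).  A unit of
`ℤ_l[θ]`: the values of it and of its inverse have norm `≤ 1`, `‖ρ‖ ≤ 1`. -/
def S_INTP : Prop := ∀ (f : ℤ[X]) (l : ℕ) [Fact l.Prime], GoodAt f l →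
  (∀ u : Om l → Om l, (∀ (g : Om l ≃ₐ[ℚ_[l]] Om l), ∀ ρ ∈ Rt f l, u (g ρ) = g (u ρ)) →
    (∀ ρ ∈ Rt f l, u ρ ≠ 0) → ∃ κ : (Alg f ℚ_[l])ˣ, (∀ ρ ∈ Rt f l, evl f l ρ κ = u ρ) ∧
      ((∀ ρ ∈ Rt f l, ‖u ρ‖ = 1) → IsUnitAt f l κ)) ∧
  (∀ A A' : Alg f ℚ_[l], (∀ ρ ∈ Rt f l, evl f l ρ A = evl f l ρ A') → A = A') ∧
  ∀ u : (Alg f ℚ_[l])ˣ, IsUnitAt f l u → ∀ ρ ∈ Rt f l, ‖evl f l ρ u‖ = 1

open Classical in
/-- JOB NRM. Norms and evaluations.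
Proof.  (1) Let `β_1, .., β_d` be a basis of `K` over `k`, `τ_1, .., τ_d` the embeddings of `K` over `k` (there are `d` of
them: characteristic `0`), `V = (τ_i β_j)`, an invertible matrix (independence of the embeddings, or the
discriminant).  For `c ∈ K` let `M(c) ∈ Mat_d(k)` be the matrix of the multiplication by `c`; `V M(c) = diag(τ_i c) V`
(up to transposition).  `Alg f K` is free over `Alg f k` with the basis `β_j` (`Alg f K = K ⊗_k Alg f k`; e.g. both have the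
`K`- resp. `k`-basis `1, θ, .., θ^(n-1)`), and the matrix of the multiplication by `b = ∑ c_i θ^i` is `∑ θ^i M(c_i)`,
with the entrywise evaluation `∑ ρ^i M(c_i)`; its determinant is `∏_j ∑_i ρ^i τ_j(c_i) = ∏_j ev τ_j ρ b`.
(2) `Alg f F` has the basis `1, θ, .., θ^(n-1)` over `F`, the matrix `V = (ρ^i)` (`ρ` the `n` different zeros) is
invertible (Vandermonde; `f` is separable) and `V M(b) = diag(ev ρ b) V`. -/
def S_NRM : Prop := ∀ (f : ℤ[X]), Irreducible (f.map (Int.castRingHom ℚ)) →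
  (∀ (k K E : Type) [Field k] [Field K] [Field E] [Algebra k K] [Algebra k E]
    [FiniteDimensional k K] [CharZero k] [IsAlgClosed E] (ρ : E), IsZ f ρ → ∀ b : Alg f K,
    ev f (algebraMap k E) ρ (nrm f k K b) = ∏ τ : K →ₐ[k] E, ev f (τ : K →+* E) ρ b) ∧
  ∀ (F E : Type) [Field F] [Field E] [CharZero F] [IsAlgClosed E] (i : F →+* E) (b : Alg f F),
    i (Algebra.norm F b) = ∏ ρ ∈ (f.map (Int.castRingHom E)).roots.toFinset, ev f i ρ b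

/-- JOB TRN. The embeddings are conjugate, their number is the degree; norms of elements.
Proof: Mathlib (`Om l` is an algebraic closure of `ℚ_l`: normal; extend `τ' τ⁻¹ : τ K → Om`;
`AlgHom.card`; `Algebra.norm_eq_prod_embeddings`). -/
def S_TRN : Prop := ∀ (l : ℕ) [Fact l.Prime] (K : Type) [Field K] [Algebra ℚ_[l] K]
  [FiniteDimensional ℚ_[l] K],
  (∀ τ τ' : K →ₐ[ℚ_[l]] Om l, ∃ g : Om l ≃ₐ[ℚ_[l]] Om l, τ' = (g : Om l →ₐ[ℚ_[l]] Om l).comp τ) ∧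
  Fintype.card (K →ₐ[ℚ_[l]] Om l) = Module.finrank ℚ_[l] K ∧ 0 < Module.finrank ℚ_[l] K ∧
  ∀ x : K, algebraMap ℚ_[l] (Om l) (Algebra.norm ℚ_[l] x) = ∏ τ : K →ₐ[ℚ_[l]] Om l, τ x

open Classical in
/-- JOB QDV. Divisibility of the ramification index.
Proof (from `S_UNR`, `S_TRN`).  Let `S = {τ : Φ τ = T}`; if it is empty there is nothing to do.  Otherwise `‖T‖ ≤ 1`, and if
`g T ≠ T` then `g T = Φ (g τ)` is at distance `1` from `T`.  Let `Y = ∏_{τ ∈ S} τ y ≠ 0`; if `g T = T` then `τ ↦ g τ` permutes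
`S`, so `g Y = Y`; by `S_UNR` `‖Y‖ = l^j`, and `‖Y‖^q = ∏ ‖τ y‖^q = l^(k #S)`; so `j q = k #S`, `q ∣ #S`. -/
def S_QDV : Prop := ∀ (l : ℕ) [Fact l.Prime] (K : Type) [Field K] [Algebra ℚ_[l] K]
  [FiniteDimensional ℚ_[l] K] (Φ : (K →ₐ[ℚ_[l]] Om l) → Om l),
  (∀ (g : Om l ≃ₐ[ℚ_[l]] Om l) (τ : K →ₐ[ℚ_[l]] Om l),
    Φ ((g : Om l →ₐ[ℚ_[l]] Om l).comp τ) = g (Φ τ)) →
  (∀ τ, ‖Φ τ‖ ≤ 1) → (∀ τ τ', Φ τ ≠ Φ τ' → ‖Φ τ - Φ τ'‖ = 1) →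
  ∀ (q : ℕ) (y : K) (k : ℤ), q.Prime → ¬ (q : ℤ) ∣ k → (∀ τ : K →ₐ[ℚ_[l]] Om l, ‖τ y‖ ^ q = (l : ℝ) ^ k) →
  ∀ T : Om l, q ∣ (univ.filter (fun τ : K →ₐ[ℚ_[l]] Om l => Φ τ = T)).card

/-- JOB APX. Approximation.
Proof.  As in `S_UNR`, `y ∈ ℚ_l(ρ)`, `y = ∑ c_i ρ^i`; approximate the `c_i ∈ ℚ_l` by rational numbers. -/
def S_APX : Prop := ∀ (l : ℕ) [Fact l.Prime] (ρ y : Om l), y ≠ 0 →
  (∀ g : Om l ≃ₐ[ℚ_[l]] Om l, g ρ = ρ → g y = y) → ∃ h : ℚ[X], ‖aeval ρ h - y‖ < ‖y‖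

/-! ### The local analysis -/

open Classical in
/-- JOB EMB. The components of the values.
Proof (from `S_NRM`).  `A` is the norm of a value `b ∈ (Alg f K)^*` with `lc N(b) = D z^q`; `β τ ρ = ev f τ ρ b`.
First: `S_NRM` (1).  Second: apply `ev f τ ρ` to `ξ (b - ξ) = 0`, `ξ = cl (x - w X)`, `ev ξ = τ x - τ w ρ` (`ev_cl`), `ev_ne`.
Third: `S_NRM` (2) with `i = τ`.  Fourth: `ev_comp`. -/
def S_EMB : Prop := ∀ (f : ℤ[X]), Irreducible (f.map (Int.castRingHom ℚ)) → ∀ (q m : ℕ) (D : ℤ)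
  (l : ℕ) [Fact l.Prime] (P : LPt f m D l) (A : (Alg f ℚ_[l])ˣ), P.IsVal q A →
  ∃ (z : P.K) (β : (P.K →ₐ[ℚ_[l]] Om l) → Om l → Om l),
    (∀ ρ ∈ Rt f l, evl f l ρ A = ∏ τ : P.K →ₐ[ℚ_[l]] Om l, β τ ρ) ∧
    (∀ τ, ∀ ρ ∈ Rt f l, β τ ρ ≠ 0 ∧
      (τ P.pt.x - ρ * τ P.pt.w) * (β τ ρ - (τ P.pt.x - ρ * τ P.pt.w)) = 0) ∧
    (∀ τ, (f.leadingCoeff : Om l) * ∏ ρ ∈ Rt f l, β τ ρ = (D : Om l) * τ z ^ q) ∧
    ∀ (g : Om l ≃ₐ[ℚ_[l]] Om l) (τ : P.K →ₐ[ℚ_[l]] Om l), ∀ ρ ∈ Rt f l,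
      β ((g : Om l →ₐ[ℚ_[l]] Om l).comp τ) (g ρ) = g (β τ ρ)

open Classical in
/-- JOB LAN. The local analysis for one embedding; `n = deg f`.
Proof.  Where `x - ρ w ≠ 0` we have `β ρ = x - ρ w`.  If `‖w‖ < ‖x‖`: `β ρ = x - ρ w ≈ x`, and the product formula gives
`‖x‖^n = ‖D‖ ‖z‖^q`: first case.  Otherwise `w ≠ 0`, `ξ = x/w` is integral; `‖ξ - ρ‖ ≤ 1` for all `ρ`, and `‖ξ - ρ‖ < 1` for at
most one `ρ ∈ Rt`.  If for none: second case.  If for `ρ0`: for `ρ ≠ ρ0` `β ρ = w (ξ - ρ) ≈ w (ρ0 - ρ)`, and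
`β ρ0 = D z^q / (lc ∏_{ρ ≠ ρ0} β ρ) ≈ D z^q / (lc w^(n-1) ∏ (ρ0 - ρ))`, `w^n = (w^(n/q))^q`. -/
def S_LAN : Prop := ∀ (f : ℤ[X]) (q : ℕ) (D : ℤ) (l : ℕ) [Fact l.Prime], GoodAt f l → 0 < q →
  q ∣ f.natDegree → D ≠ 0 → ∀ (x w z : Om l) (β : Om l → Om l), (x ≠ 0 ∨ w ≠ 0) →
  (∀ ρ ∈ Rt f l, β ρ ≠ 0 ∧ (x - ρ * w) * (β ρ - (x - ρ * w)) = 0) →
  (f.leadingCoeff : Om l) * ∏ ρ ∈ Rt f l, β ρ = (D : Om l) * z ^ q →
  (‖w‖ < ‖x‖ ∧ (∀ ρ ∈ Rt f l, ‖x - β ρ‖ < ‖x‖) ∧ ‖(D : Om l)‖ * ‖z‖ ^ q = ‖x‖ ^ f.natDegree) ∨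
  (w ≠ 0 ∧ ‖x / w‖ ≤ 1 ∧ (∀ ρ ∈ Rt f l, ‖x / w - ρ‖ = 1 ∧ β ρ = w * (x / w - ρ)) ∧
    ‖(D : Om l)‖ * ‖z‖ ^ q = ‖w‖ ^ f.natDegree) ∨
  (w ≠ 0 ∧ ‖x / w‖ ≤ 1 ∧ ∃ ρ0 ∈ Rt f l, ‖x / w - ρ0‖ < 1 ∧
    (∀ ρ ∈ Rt f l, ρ ≠ ρ0 → ‖x / w - ρ‖ = 1 ∧ ‖w * (ρ0 - ρ) - β ρ‖ < ‖w * (ρ0 - ρ)‖) ∧
    ‖w * ((D : Om l) / ((f.leadingCoeff : Om l) * ∏ ρ' ∈ (Rt f l).erase ρ0, (ρ0 - ρ'))) *
        (z / w ^ (f.natDegree / q)) ^ q - β ρ0‖ < ‖β ρ0‖)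

/-- JOB L0. The values at the primes not dividing `D`.
Proof (from `S_EMB`, `S_LAN`, `S_TRN`, `S_INTP`).  The norms of `x_τ = τ x`, `w_τ`, `z_τ` do not depend on `τ` (`S_TRN`, `norm_aut`).  By
`S_LAN` for each `τ` either `‖β τ ρ‖ = r` for all `ρ` (`r = ‖x_τ‖`, `‖w_τ‖` in the first two cases), or there is a unique
`ρ0 = ρ(τ)` with `‖β τ ρ‖ = ‖w_τ‖` for `ρ ≠ ρ0` and `‖β τ ρ0‖ = ‖w_τ‖ ‖z_τ / w_τ^(n/q)‖^q` (`‖D‖ = 1`).  Which case occurs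
does not depend on `τ` (norms, and `‖g ξ - g ρ‖ = ‖ξ - ρ‖`).  First case: `‖A_ρ‖ = ∏ ‖τ x‖ = ‖N x‖` (`S_TRN`), `c = N x`,
`κ = 1`.  Second case: `c = N w`.  Third case: `‖A_ρ‖ = ‖N w‖ ‖u_ρ‖^q`, `u_ρ = ∏_{τ : ρ(τ) = ρ} τ(z / w^(n/q))`,
`u_(gρ) = g u_ρ` as `ρ(g τ) = g ρ(τ)`; `S_INTP` gives `κ` (`z ≠ 0` because the `β` are not `0`). -/
def S_L0 : Prop := ∀ (f : ℤ[X]), Irreducible (f.map (Int.castRingHom ℚ)) → ∀ (q m : ℕ) (D : ℤ)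
  (l : ℕ) [Fact l.Prime], 0 < q → q ∣ f.natDegree → GoodAt f l → ¬ (l : ℤ) ∣ D →
  ∀ (P : LPt f m D l) (A : (Alg f ℚ_[l])ˣ), P.IsVal q A → LocU f q l A

/-- JOB L1. The values at the primes dividing `D` exactly once.
Proof (from `S_EMB`, `S_LAN`, `S_TRN`, `S_INTP`, `S_TEI`, `S_QDV`).  As in `S_L0` the case of `S_LAN` does not depend on `τ`.
`d = [K : ℚ_l] = #{τ}`, `‖D‖ = l^(-1)`.
First case: `‖τ (x^(n/q) / z)‖^q = ‖D‖ = l^(-1)`; `S_QDV` with `Φ = 0`: `q ∣ d`.  `A_ρ ≈ ∏ τ x = N x`: take `M = 0`, `c = N x`,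
`κ = 1` (`Wf` with `M = 0` is `1`).
Second case: `‖τ (w^(n/q) / z)‖^q = l^(-1)`; let `ξ = x/w`, `Φ τ = tei (τ ξ)`; by `S_QDV` `q ∣ s_T = #{τ : Φ τ = T}` for all `T`,
so `q ∣ d`; `A_ρ = ∏ τ w (τ ξ - ρ) ≈ N w ∏ (Φ τ - ρ) = N w (∏_T (T - ρ)^(s_T/q))^q` (the product over the `T` in the image
of `Φ`; `τ ξ - ρ ≈ Φ τ - ρ` as `‖τ ξ - ρ‖ = 1`, `‖Φ τ - τ ξ‖ < 1`); `u_ρ = ∏_T (T - ρ)^(s_T/q)` satisfies `u_(gρ) = g u_ρ`
(`s_(gT) = s_T`), and `S_INTP` gives `κ`; `M = 0`, `c = N w`.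
Third case: for every `τ` there is a unique `ρ(τ) ∈ Rt` with `‖τ ξ - ρ(τ)‖ < 1`; `ρ(g τ) = g ρ(τ)`; `M ρ = #{τ : ρ(τ) = ρ}`
(`= 0` for `ρ ∉ Rt`) is invariant under `G`, `∑ M ρ = d`.  `A_ρ = ∏ β τ ρ ≈ ∏_τ w_τ * ∏_{ρ' ≠ ρ} (ρ' - ρ)^(M ρ') *
(D/(lc ∏_{ρ' ≠ ρ} (ρ - ρ')))^(M ρ) * u_ρ^q`, `u_ρ = ∏_{τ : ρ(τ) = ρ} τ(z / w^(n/q))`; `S_INTP` gives `κ`, `c = N w`. -/
def S_L1 : Prop := ∀ (f : ℤ[X]), Irreducible (f.map (Int.castRingHom ℚ)) → ∀ (q m : ℕ) (D : ℤ)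
  (l : ℕ) [Fact l.Prime], q.Prime → q ∣ f.natDegree → GoodAt f l → (l : ℤ) ∣ D → ¬ (l : ℤ) ^ 2 ∣ D →
  ∀ (P : LPt f m D l) (A : (Alg f ℚ_[l])ˣ), P.IsVal q A → LocP f q l D A P.deg

/-- JOB LMUL. Products.
Proof.  `LocU`: norms and `evl` are multiplicative (`ev_mul`, `ev_inv`, `ev_zpow`, `isZ_of_mem`), `‖evl ρ u‖ = 1` for `u` with
`IsUnitAt` (`S_INTP`).  `LocP`: `Wf` with `M + M'` is the product (`zpow_add₀`; the bases are not `0`: `ρ' ≠ ρ`, `D ≠ 0`, `lc ≠ 0`), with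
`-M` the inverse; `≈` is compatible with products and inverses (`Bas.lean`). -/
def S_LMUL : Prop := ∀ (f : ℤ[X]) (q l : ℕ) [Fact l.Prime], GoodAt f l →
  (∀ A B : (Alg f ℚ_[l])ˣ, LocU f q l A → LocU f q l B → LocU f q l (A * B)) ∧
  (∀ A : (Alg f ℚ_[l])ˣ, LocU f q l A → LocU f q l A⁻¹) ∧
  (∀ (c : (ℚ_[l])ˣ) (g u : (Alg f ℚ_[l])ˣ), IsUnitAt f l u → LocU f q l (cst f c * g ^ q * u)) ∧
  ∀ D : ℤ, D ≠ 0 → LocP f q l D 1 0 ∧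
  (∀ (A B : (Alg f ℚ_[l])ˣ) (d e : ℤ), LocP f q l D A d → LocP f q l D B e →
    LocP f q l D (A * B) (d + e)) ∧
  (∀ (A : (Alg f ℚ_[l])ˣ) (d : ℤ), LocP f q l D A d → LocP f q l D A⁻¹ (-d)) ∧
  ∀ (c : (ℚ_[l])ˣ) (g : (Alg f ℚ_[l])ˣ), LocP f q l D (cst f c * g ^ q) 0

/-! ### Zero-cycles -/

/-- the degree of a zero-cycle, given by a list of closed points with multiplicities -/
noncomputable def zdeg {f : ℤ[X]} {m : ℕ} {D : ℤ} {p : ℕ} [Fact p.Prime]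
    (z : List (ℤ × LPt f m D p)) : ℤ := (z.map fun t => t.1 * (t.2.deg : ℤ)).sum

/-- `A` is a value of `x - θ w` at the zero-cycle -/
def ZVal (q : ℕ) {f : ℤ[X]} {m : ℕ} {D : ℤ} {p : ℕ} [Fact p.Prime] :
    List (ℤ × LPt f m D p) → (Alg f ℚ_[p])ˣ → Prop
  | [], A => A = 1
  | t :: z, A => ∃ A1 A2 : (Alg f ℚ_[p])ˣ, t.2.IsVal q A1 ∧ ZVal q z A2 ∧ A = A1 ^ t.1 * A2

/-- JOB ZEX. Values exist, and they are unique up to `q`-th powers.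
Proof: `val` of project SE (`S_VAL`, see `Pool/Agent/Q51/SE/All.lean` for the name of the proof), applied to the
points over `P.K`; induction on the list. -/
def S_ZEX : Prop := ∀ (f : ℤ[X]), Irreducible (f.map (Int.castRingHom ℚ)) → ∀ (q m : ℕ) (D : ℤ),
  0 < q → q ∣ m → D ≠ 0 → ∀ (p : ℕ) [Fact p.Prime] (z : List (ℤ × LPt f m D p)),
  (∃ A : (Alg f ℚ_[p])ˣ, ZVal q z A) ∧
  ∀ A A' : (Alg f ℚ_[p])ˣ, ZVal q z A → ZVal q z A' → ∃ g : (Alg f ℚ_[p])ˣ, A' = A * g ^ q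

/-- JOB DEC. Closed points over `ℚ` give zero-cycles over `ℚ_p`.
Proof.  `R = K ⊗_ℚ ℚ_p` is a reduced (separable) `ℚ_p`-algebra of dimension `[K : ℚ]`, so `R = ∏_I R/I`, `I` the maximal
ideals (`IsArtinianRing.equivPi`), fields `K_I` finite over `ℚ_p` with `∑ [K_I : ℚ_p] = [K : ℚ]`.  `z` = the sum of the
points `P_I` (the coordinates mapped to `K_I`), with multiplicity one; the image `b_I` of `b` in `Alg f K_I` is a value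
at `P_I` (apply the homomorphism `Alg f K → Alg f K_I`; `lc N(b) = D y^q`: the norm is compatible with the change
of fields: `Algebra.norm` of `AdjoinRoot`, or evaluate by `S_NRM` (2)).  `∏_I nrm b_I = bas (nrm b)`: evaluate at
a zero `ρ` of `f` in `Om p` (`S_INTP` is not available at all `p`; but `f` is separable, so an element of `Alg f ℚ_p` is
determined by its values at the zeros): the left side is the product of `ev τ ρ b` over the `τ : K_I → Om p` over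
`ℚ_p`, for all `I`, i.e. over all homomorphisms `K → Om p` (`S_NRM` (1)), and so is the right side (`S_NRM` (1) for
`K/ℚ`, `E = Om p`; `ev_comp`). -/
def S_DEC : Prop := ∀ (f : ℤ[X]), Irreducible (f.map (Int.castRingHom ℚ)) → ∀ (q m : ℕ) (D : ℤ)
  (K : Type) [Field K] [NumberField K] (P : Point f m D K) (b : (Alg f K)ˣ), IsValue q P b →
  ∀ (p : ℕ) [Fact p.Prime], ∃ z : List (ℤ × LPt f m D p), zdeg z = Module.finrank ℚ K ∧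
    ZVal q z (Units.map (bas f ℚ ℚ_[p]).toMonoidHom (Units.map (nrm f ℚ K) b))

/-! ### From the local algebras to the number field -/

open Classical in
/-- JOB PL. The primes above `l` and the zeros of `f`.
Proof.  For `ρ ∈ Rt` let `φ : L → Om`, `θ ↦ ρ` (`L = ℚ[X]/(f)`), `π ρ = {x ∈ 𝓞 : ‖φ x‖ < 1}`, a prime ideal that contains `l`
(`‖φ x‖ ≤ 1` for `x ∈ 𝓞`, integral over `ℤ`).  If `x ∈ L` has valuation `1` at `v = π ρ` then `x = a/b` with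
`a, b ∈ 𝓞 ∖ v` (`𝓞_v` is the localisation), so `‖φ x‖ = 1`; `v(l) = exp (-1)` (`l` unramified), so in general
`v(x) = exp k` implies `‖φ x‖ = l^k` (consider `x l^k`), which gives the equivalence.  `π (g ρ) = π ρ` (`norm_aut`).
The fibres: `∑_{v ∣ l} dg l v = [L : ℚ] = #Rt`, so it suffices to show `#π⁻¹(v) ≤ dg l v`: for `π ρ = v` the map `φ`
induces `𝓞/v → k`, the residue field of `Om`; it sends the class of `t = lc θ ∈ 𝓞` to the class of `lc ρ`, and different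
`ρ` have different classes (`‖lc‖ = 1`, `‖ρ - ρ'‖ = 1`), so they give different homomorphisms from `𝓞/v`,
a field with `l^(dg l v)` elements, to `k`; there are at most `dg l v` of these (`AlgHom.card_le`, or: the image of a
generator is a zero of its minimal polynomial over `F_l`). -/
def S_PL : Prop := ∀ (f : ℤ[X]) (L : Type) [Field L] [NumberField L] (θ : L), Setup f L θ →
  ∀ (l : ℕ) [Fact l.Prime], GoodAt f l → Squarefree (Ideal.span {(l : 𝓞 L)}) →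
  ∃ π : Om l → HeightOneSpectrum (𝓞 L),
    (∀ ρ ∈ Rt f l, Abv (π ρ) l ∧ (∀ g : Om l ≃ₐ[ℚ_[l]] Om l, π (g ρ) = π ρ) ∧
      ∀ (h : ℚ[X]) (k : ℤ), (π ρ).valuation L (aeval θ h) = WithZero.exp k ↔
        ‖aeval ρ h‖ = (l : ℝ) ^ k) ∧
    ∀ v : HeightOneSpectrum (𝓞 L), Abv v l → 1 ≤ dg l v ∧
      ((Rt f l).filter (fun ρ => π ρ = v)).card = dg l v

/-- JOB TRAU. Transfer, `l ∤ D`.
Proof (from `S_PL`, `S_UNR`).  `evl f l ρ A = aeval ρ d` (`ev_cl`).  Let `v` be above `l`, `v = π ρ` (`S_PL`: the fibre is not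
empty).  `ρ` satisfies the hypotheses of `S_UNR` (`GoodAt`, `g ρ ∈ Rt`), and `y = evl ρ κ` is fixed by the `g` with
`g ρ = ρ`; so `‖evl ρ κ‖ = l^k`, `‖c‖ = l^j` (`j` does not depend on `v`), `‖aeval ρ d‖ = l^(j + q k)`, so
`v(aeval θ d) = exp (j + q k)`; `e = -j`. -/
def S_TRAU : Prop := ∀ (f : ℤ[X]) (L : Type) [Field L] [NumberField L] (θ : L), Setup f L θ →
  ∀ (q l : ℕ) [Fact l.Prime], GoodAt f l → Squarefree (Ideal.span {(l : 𝓞 L)}) →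
  ∀ (d : ℚ[X]) (A : (Alg f ℚ_[l])ˣ),
  (A : Alg f ℚ_[l]) = cl f ℚ_[l] (d.map (Rat.castHom ℚ_[l])) → LocU f q l A →
  ∃ e : ℤ, VecP q l (aeval θ d) (fun _ => e)

/-- JOB TRAP. Transfer, `l ∣ D`.
Proof (from `S_PL`, `S_UNR`).  As in `S_TRAU`: `‖aeval ρ d‖ = ‖c‖ ‖evl ρ κ‖^q ‖Wf ρ‖`, and `‖Wf ρ‖ = ‖D‖^(M ρ) = l^(-M ρ)` (all other
factors have norm `1`); so for `v = π ρ` `ord_v(aeval θ d) ≡ ord c + M ρ mod q`.  Let `M' v = ord_v(aeval θ d)`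
(or this number for one `ρ` above `v`).  `∑_v dg l v * M' v = ∑_ρ M' (π ρ) ≡ n ord c + ∑ M ρ ≡ t ≡ 1 mod q` (`q ∣ n`). -/
def S_TRAP : Prop := ∀ (f : ℤ[X]) (L : Type) [Field L] [NumberField L] (θ : L), Setup f L θ →
  ∀ (q l : ℕ) [Fact l.Prime], q.Prime → q ∣ f.natDegree → GoodAt f l →
  Squarefree (Ideal.span {(l : 𝓞 L)}) → ∀ D : ℤ, (l : ℤ) ∣ D → ¬ (l : ℤ) ^ 2 ∣ D →
  ∀ (d : ℚ[X]) (A : (Alg f ℚ_[l])ˣ) (t : ℤ),
  (A : Alg f ℚ_[l]) = cl f ℚ_[l] (d.map (Rat.castHom ℚ_[l])) → (q : ℤ) ∣ t - 1 → LocP f q l D A t →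
  ∃ M : HeightOneSpectrum (𝓞 L) → ℤ, VecP q l (aeval θ d) M ∧ Deg1 q l M

/-- JOB TRAR. Transfer of the relation.
Proof (from `S_PL`, `S_UNR`, `S_APX`).  `A_ρ ≈ c κ_ρ^q W_{D,M1}(ρ)`, `A'_ρ ≈ c' κ'_ρ^q W_{D',M2}(ρ)`; as in `S_TRAP`,
`ord_{π ρ}(δ) ≡ ord c + M1 ρ`, and `≡ M (π ρ) + e` by hypothesis; so `M1 ρ = M (π ρ) + e1 + q N1 ρ`, for `ρ ∈ Rt`, with
`N1` invariant under `G`; similarly `M2 ρ = M (π ρ) + e2 + q N2 ρ`.  From the definition of `Wf`: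
`W_{D,M1}(ρ) = W_{D,M∘π}(ρ) * ((-1)^(n-1) D / lc)^e1 * W_{D,N1}(ρ)^q`
(`∏_{ρ'≠ρ} (ρ' - ρ) = (-1)^(n-1) ∏ (ρ - ρ')`), similarly for `D'`, and `W_{D',M∘π}(ρ) = (D'/D)^(M (π ρ)) W_{D,M∘π}(ρ)`.
So `A'_ρ ≈ S (D'/D)^(M (π ρ)) G_ρ^q A_ρ`, with a constant `S ∈ ℚ_l^*` and
`G_ρ = κ'_ρ κ_ρ⁻¹ W_{D',N2}(ρ) W_{D,N1}(ρ)⁻¹`, fixed by the `g` with `g ρ = ρ`.  Let `s1 ∈ ℚ^*`, `s1 ≈ S`, `s2 = D'/D` (a unit at
`l`).  For `v` above `l` choose `ρ` with `π ρ = v`, and `h ∈ ℚ[X]` with `aeval ρ h ≈ G_ρ` (`S_APX`, `ap_symm`), `g = aeval θ h`.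
The polynomial `d' - C (s1 s2^(M v)) h^q d` has at `ρ` a norm `< ‖aeval ρ d'‖`, so by `S_PL` at `θ` a valuation
`< v(aeval θ d')` (all nonzero values are of the form `exp k`).  (`Wf` for the function `M∘π`, `N1`: these are
used only at elements of `Rt`.) -/
def S_TRAR : Prop := ∀ (f : ℤ[X]) (L : Type) [Field L] [NumberField L] (θ : L), Setup f L θ →
  ∀ (q l : ℕ) [Fact l.Prime], q.Prime → q ∣ f.natDegree → GoodAt f l →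
  Squarefree (Ideal.span {(l : 𝓞 L)}) → ∀ D D' : ℤ, (l : ℤ) ∣ D → ¬ (l : ℤ) ^ 2 ∣ D →
  (l : ℤ) ∣ D' → ¬ (l : ℤ) ^ 2 ∣ D' → ∀ (d d' : ℚ[X]) (A A' : (Alg f ℚ_[l])ˣ) (t t' : ℤ),
  (A : Alg f ℚ_[l]) = cl f ℚ_[l] (d.map (Rat.castHom ℚ_[l])) →
  (A' : Alg f ℚ_[l]) = cl f ℚ_[l] (d'.map (Rat.castHom ℚ_[l])) →
  LocP f q l D A t → LocP f q l D' A' t' → ∀ M : HeightOneSpectrum (𝓞 L) → ℤ,
  (∃ e : ℤ, VecP q l (aeval θ d) (fun v => M v + e)) →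
  (∃ e : ℤ, VecP q l (aeval θ d') (fun v => M v + e)) →
  Rel q l M (aeval θ d) (aeval θ d')

/-! ### The primes dividing `D`, and the large primes -/

/-- JOB EPR. The prime factors of the twists.
Proof.  Multiply `x, w` by a power of `l` (and `y` by the corresponding one, `m ∣ n`): `x, w ∈ ℤ_l`, one of them a unit.
`D y^m = F(x, w) ∈ ℤ_l` with `v_l(D) = 1`, `m ≥ 2`: so `y ∈ ℤ_l` (or `y = 0`) and `l ∣ F(x, w)`.  If `l ∣ w` then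
`F(x, w) ≡ lc x^n` is a unit, a contradiction; so `w` is a unit, `r ∈ ℤ` with `r ≡ x/w`: `f(r) ≡ F(x, w)/w^n ≡ 0`. -/
def S_EPR : Prop := ∀ (f : ℤ[X]) (m : ℕ) (D : ℤ) (l : ℕ) [Fact l.Prime], 2 ≤ m → m ∣ f.natDegree →
  ¬ (l : ℤ) ∣ f.leadingCoeff → (l : ℤ) ∣ D → ¬ (l : ℤ) ^ 2 ∣ D → Nonempty (Point f m D ℚ_[l]) →
  ∃ r : ℤ, (l : ℤ) ∣ f.eval r

/-- JOB N1R. A zero modulo `l` gives a prime of norm `l`.
Proof: `S_ROOT` of project EL (proved, see `Pool/Agent/Q51/EL/All.lean`) with `x = r`, `w = 1`: if all valuations of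
`r - θ` above `l` were `1`, the norm of `lc (r - θ)`, which is `lc^(n-1) f(r)`, would be prime to `l`.  (`N1 ≥ 1`: the set of the
primes of norm `l` is finite and not empty.) -/
def S_N1R : Prop := ∀ (f : ℤ[X]) (L : Type) [Field L] [NumberField L] (θ : L), Setup f L θ →
  ∃ B : ℕ, B ≠ 0 ∧ ∀ l : ℕ, l.Prime → ¬ l ∣ B → (∃ r : ℤ, (l : ℤ) ∣ f.eval r) → 1 ≤ N1 L l

/-- JOB LRG. The large primes.
Proof.  Let `g` be a primitive root modulo `q`, and `s` an integer with `s ≡ g mod q` and `s ≡ 2` modulo the other prime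
factors of `n`, so `s` is prime to `n0 = ∏_{r ∣ n} r` and `s ≢ 1` modulo all `r ∣ n` (odd).  `R` = the primes `p ≡ s mod n0`,
`p ∤ a b B`.  For `p ∈ R` `n` is prime to `p - 1`, so every element of `F_p` is an `n`-th power, also `-b/a`.
`∑_{Y < p ≤ X, p ≡ s mod n0} 1/p ≥ c1 log (log X / log Y) - C`, `c1 = 1/φ(n0)`: `mertens_ap` in
`Pool/Agent/Y405/CQ/MER.lean`. -/
def S_LRG : Prop := ∀ (a b : ℤ) (n q : ℕ), Odd n → q.Prime → q ∣ n → a ≠ 0 → b ≠ 0 →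
  ∀ B : ℕ, B ≠ 0 → ∃ (R : Set ℕ) (c1 C1 : ℝ), 0 < c1 ∧
  (∀ p ∈ R, p.Prime ∧ ¬ p ∣ B ∧ orderOf (p : ZMod q) = q - 1 ∧
    ∃ r : ℤ, (p : ℤ) ∣ (fq a b n).eval r) ∧
  ∀ X Y : ℝ, 3 ≤ Y → Y ≤ X →
    c1 * Real.log (Real.log X / Real.log Y) - C1 ≤ SP R X - SP R Y

end Pool.Agent.Q51.ZC
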