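import Pool.Agent.Q51.ZC.Fin2
import Pool.Agent.Q51.SE.Pol2

/-!
# Project ZC (helper51): zero-cycles on the curves `D y ^ m = a x ^ n + b w ^ n`, definitions

`a, b` integers, `m ∣ n`, `C_D : D y ^ m = a x ^ n + b w ^ n`, a smooth curve in the weighted projective plane of
weights `(1, 1, n/m)` (for `m = n` a Fermat curve).  `q` is an odd prime factor of `m`, and `L = ℚ(θ)`,
`a θ ^ q + b = 0`, i.e. `L = ℚ[X]/(a X ^ q + b)`.  For a character `χ` of order `q` of the idele class group of `L`
that is trivial on the ideles of `ℚ` (by class field theory: a homomorphism `χ : Gal(L) → ℤ/q` with trivial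
corestriction to `ℚ`) the class `A_χ = Cor_{L/ℚ} (χ, x ^ (n/q) - θ w ^ (n/q))` lies in `Br(C_D)`: the zeros of
`x ^ (n/q) - θ w ^ (n/q)` on `C_D` have multiplicities divisible by `q`.  Its invariant at a closed point over
`ℚ_p` with coordinates in the finite extension `K` of `ℚ_p` is `χ_p (N (x ^ (n/q) - θ w ^ (n/q)))`, `N` the norm from
`K ⊗ L = K[X]/(a X ^ q + b)` to `ℚ_p ⊗ L`, and `χ_p` the component of `χ` on `(ℚ_p ⊗ L)^*`.

The elements of `F[X]/(f)` are given by polynomials over `F`; `polOver`, `polNorm`, `ClassCharacter` are those of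
`Pool/Agent/Q51/SE/Pol.lean`, `count` that of `Pool/Agent/Q51/SE/Def.lean`.
-/

set_option autoImplicit false

namespace Pool.Agent.Q51.ZC

open Polynomial Finset
open Pool.Agent.Q51.SE (polOver polNorm ClassCharacter LocalCharacter count)

/-- A point over `F` of the curve `C_D : D y ^ m = a x ^ n + b w ^ n`. -/
structure CPoint (a b : ℤ) (n m : ℕ) (D : ℤ) (F : Type) [Field F] where
  /-- the first coordinate -/
  x : F
  /-- the second coordinate -/
  w : F
  /-- the third coordinate -/
  y : F
  ne : x ≠ 0 ∨ w ≠ 0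
  eq : (D : F) * y ^ m = a * x ^ n + b * w ^ n

/-- The polynomial `x ^ (n/q) - X w ^ (n/q)`, which gives the element `ξ = x ^ (n/q) - θ w ^ (n/q)` of
`F[X]/(a X ^ q + b)` at the point `(x : y : w)`. -/
noncomputable def CPoint.lin {a b : ℤ} {n m : ℕ} {D : ℤ} {F : Type} [Field F] (q : ℕ)
    (P : CPoint a b n m D F) : F[X] :=
  C (P.x ^ (n / q)) - C (P.w ^ (n / q)) * X

/-- The element `c(θ)` of `F[X]/(a X ^ q + b)` is a value of `ξ = x ^ (n/q) - θ w ^ (n/q)` at the point: it is
invertible, it is equal to `ξ` in all components in which `ξ` does not vanish, and `a N(c(θ))` is `D` times a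
`q`-th power (as for all other points).  If `ξ` vanishes in one component (which is the case at a point with
`y = 0`), this component of `c(θ)` is determined up to `q`-th powers by this condition. -/
def CPoint.Val {a b : ℤ} {n m : ℕ} {D : ℤ} {F : Type} [Field F] (q : ℕ)
    (P : CPoint a b n m D F) (c : F[X]) : Prop :=
  IsCoprime (polOver (fq a b q) F) c ∧ polOver (fq a b q) F ∣ P.lin q * (c - P.lin q) ∧
    ∃ z : F, (a : F) * polNorm (fq a b q) c = D * z ^ q

/-- The norm from `K[X]` to `k[X]`.  It gives the norm from `K[X]/(f)` to `k[X]/(f)`. -/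
noncomputable def normPoly (k : Type) {K : Type} [Field k] [Field K] [Algebra k K] (c : K[X]) : k[X] :=
  letI : Algebra k[X] K[X] := Polynomial.algebra k K
  Algebra.norm k[X] c

/-- A closed point of `C_D` over `ℚ_p` (with a finite extension `K` of `ℚ_p` containing its coordinates; if the
coordinates generate a smaller field, this is to be read as a multiple of the closed point). -/
structure ClosedPoint (a b : ℤ) (n m : ℕ) (D : ℤ) (p : Nat.Primes) where
  /-- the field -/
  K : Type
  [field : Field K]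
  [algebra : Algebra ℚ_[(p : ℕ)] K]
  [finite : FiniteDimensional ℚ_[(p : ℕ)] K]
  /-- the point -/
  point : CPoint a b n m D K

attribute [instance] ClosedPoint.field ClosedPoint.algebra ClosedPoint.finite

/-- The degree of the closed point. -/
noncomputable def ClosedPoint.degree {a b : ℤ} {n m : ℕ} {D : ℤ} {p : Nat.Primes}
    (P : ClosedPoint a b n m D p) : ℕ :=
  Module.finrank ℚ_[(p : ℕ)] P.K

open Classical in
/-- The local invariant of `A_χ` at a closed point over `ℚ_p`. -/
noncomputable def ClosedPoint.inv {a b : ℤ} {n m : ℕ} {D : ℤ} {p : Nat.Primes} {q : ℕ}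
    (P : ClosedPoint a b n m D p) (χ : ClassCharacter (fq a b q) q) : ZMod q :=
  if h : ∃ c, P.point.Val q c then (χ.loc p).val (normPoly ℚ_[(p : ℕ)] (Classical.choose h)) else 0

/-- The zero-cycles of `C_D` over `ℚ_p`, given by lists of closed points with multiplicities. -/
abbrev ZeroCycle (a b : ℤ) (n m : ℕ) (D : ℤ) (p : Nat.Primes) : Type 1 :=
  List (ℤ × ClosedPoint a b n m D p)

/-- The degree of a zero-cycle. -/
noncomputable def ZeroCycle.degree {a b : ℤ} {n m : ℕ} {D : ℤ} {p : Nat.Primes}
    (z : ZeroCycle a b n m D p) : ℤ :=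
  (z.map fun t => t.1 * (t.2.degree : ℤ)).sum

/-- The local invariant of `A_χ` at a zero-cycle. -/
noncomputable def ZeroCycle.inv {a b : ℤ} {n m : ℕ} {D : ℤ} {p : Nat.Primes} {q : ℕ}
    (z : ZeroCycle a b n m D p) (χ : ClassCharacter (fq a b q) q) : ZMod q :=
  (z.map fun t => (t.1 : ZMod q) * t.2.inv χ).sum

/-- There is a family of zero-cycles of `C_D` over the fields `ℚ_p`, of degrees congruent to `d` modulo `q`,
which is orthogonal to all classes `A_χ`: the sum of the local invariants (almost all are zero) is zero.  (The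
invariants at real points are trivial, `q` is odd.) -/
def HasOrthogonalFamily (a b : ℤ) (n m : ℕ) (D : ℤ) (q : ℕ) (d : ℤ) : Prop :=
  ∃ z : ∀ p : Nat.Primes, ZeroCycle a b n m D p, (∀ p, (q : ℤ) ∣ (z p).degree - d) ∧
    ∀ χ : ClassCharacter (fq a b q) q, ∑ᶠ p : Nat.Primes, (z p).inv χ = 0

/-- The curve `C_D` is everywhere locally soluble. -/
def Soluble (a b : ℤ) (n m : ℕ) (D : ℤ) : Prop :=
  Nonempty (CPoint a b n m D ℝ) ∧ ∀ p : Nat.Primes, Nonempty (CPoint a b n m D ℚ_[(p : ℕ)])

/-- Some orthogonal family of local zero-cycles over the fields `ℚ_p` has a degree which is not divisible by all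
prime factors of `m`. -/
def UnobstructedOverQ (a b : ℤ) (n m : ℕ) (D : ℤ) : Prop :=
  ∃ q : ℕ, q.Prime ∧ q ∣ m ∧ ∃ d : ℤ, ¬ (q : ℤ) ∣ d ∧ HasOrthogonalFamily a b n m D q d

/-- Some closed point of `C_D` over `ℚ` has a degree which is not divisible by all prime factors of `m`. -/
def IndexNotDivisible (a b : ℤ) (n m : ℕ) (D : ℤ) : Prop :=
  ∃ (K : Type) (_ : Field K) (_ : NumberField K), Nonempty (CPoint a b n m D K) ∧
    ∃ q : ℕ, q.Prime ∧ q ∣ m ∧ ¬ q ∣ Module.finrank ℚ K

/-- The local invariants at the closed points over `ℚ_p` are well defined: values exist, and all of them give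
the same invariant. -/
def ClosedInvariantsWellDefined (a b : ℤ) (n m : ℕ) (D : ℤ) (q : ℕ) (p : Nat.Primes) : Prop :=
  ∀ P : ClosedPoint a b n m D p, (∃ c, P.point.Val q c) ∧
    ∀ c, P.point.Val q c → ∀ χ : ClassCharacter (fq a b q) q,
      P.inv χ = (χ.loc p).val (normPoly ℚ_[(p : ℕ)] c)

/-- The sum of `1 / l` over the primes `l ≤ X` modulo which `a X ^ n + b` has a zero. -/
noncomputable def sumRoots (a b : ℤ) (n : ℕ) (X : ℝ) : ℝ :=
  ∑' l : {l : ℕ | l.Prime ∧ (l : ℝ) ≤ X ∧ ∃ r : ℤ, (l : ℤ) ∣ a * r ^ n + b}, (1 : ℝ) / (l : ℕ)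

end Pool.Agent.Q51.ZC
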