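import Pool.Agent.Q51.ZC.Zer

/-! # Project ZC: comparison of the definitions -/

set_option autoImplicit false

namespace Pool.Agent.Q51.ZC

open Polynomial Finset
open Pool.Agent.Q51.SE (polOver polNorm ClassCharacter LocalCharacter count Alg cl Point IsValue
  IsUnitAt IdeleCharacter hom unit_iff mk_rep rep val_iff mpow ofHom ofHom_val fin_conv)

lemma hom_fq {a : ℤ} (ha : a ≠ 0) (b : ℤ) {n : ℕ} (hn : 0 < n) {F : Type} [Field F] (x w : F) :
    hom (fq a b n) x w = a * x ^ n + b * w ^ n := by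
  unfold hom
  rw [fq_deg ha b hn, sum_range_succ]
  have h1 : (fq a b n).coeff n = a := by
    have := fq_lead ha b hn
    rwa [leadingCoeff, fq_deg ha b hn] at this
  rw [h1, Nat.sub_self, pow_zero, mul_one]
  have h2 : ∑ i ∈ range n, ((fq a b n).coeff i : F) * x ^ i * w ^ (n - i) = b * w ^ n := by
    rw [sum_eq_single 0]
    · rw [fq_coeff0 a b hn, pow_zero, mul_one, Nat.sub_zero]
    · intro i hi h0
      have : (fq a b n).coeff i = 0 := by
        unfold fq
        rw [coeff_add, coeff_C_mul, coeff_X_pow, if_neg (mem_range.mp hi).ne, coeff_C, if_neg h0,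
          mul_zero, add_zero]
      rw [this, Int.cast_zero, zero_mul, zero_mul]
    · intro h
      exact absurd (mem_range.mpr hn) h
  rw [h2]
  ring

section

variable {a b : ℤ} {n m : ℕ} {D : ℤ} {q : ℕ}

/-- the image on the Fermat curve of degree `q` -/
noncomputable def CPoint.toP {F : Type} [Field F] (ha : a ≠ 0) (hq : 0 < q) (hn : 0 < n) (hqn : q ∣ n)
    (hqm : q ∣ m) (P : CPoint a b n m D F) : Point (fq a b q) q D F where
  x := P.x ^ (n / q)
  w := P.w ^ (n / q)
  y := P.y ^ (m / q)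
  ne := by
    rcases P.ne with h | h
    · exact Or.inl (pow_ne_zero _ h)
    · exact Or.inr (pow_ne_zero _ h)
  eq := by
    rw [hom_fq ha b hq, ← pow_mul, ← pow_mul, ← pow_mul, Nat.div_mul_cancel hqn,
      Nat.div_mul_cancel hqm]
    exact P.eq

lemma cval_iff {F : Type} [Field F] (ha : a ≠ 0) (hq : 0 < q) (hn : 0 < n) (hqn : q ∣ n)
    (hqm : q ∣ m) (P : CPoint a b n m D F) (c : F[X]) :
    P.Val q c ↔ (P.toP ha hq hn hqn hqm).Val q c := by
  unfold CPoint.Val Point.Val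
  rw [fq_lead ha b hq]
  rfl

/-- the norm of polynomials and the norm of the algebras -/
lemma mk_normPoly {f : ℤ[X]} (hf : Irreducible (f.map (Int.castRingHom ℚ))) (k K : Type) [Field k]
    [Field K] [Algebra k K] [FiniteDimensional k K] [CharZero k] (c : K[X]) :
    AdjoinRoot.mk (f.map (Int.castRingHom k)) (normPoly k c) =
      nrm f k K (AdjoinRoot.mk (f.map (Int.castRingHom K)) c) := by
  classical
  have hK : CharZero K := charZero_of_injective_algebraMap (algebraMap k K).injective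
  apply Pool.Agent.Q150.ZC.ev_inj hf (algebraMap k (AlgebraicClosure k))
  intro ρ hρ
  have h1 := (t_nrm f hf).1 k K (AlgebraicClosure k) ρ hρ (AdjoinRoot.mk (f.map (Int.castRingHom K)) c)
  rw [h1]
  have h2 : ev f (algebraMap k (AlgebraicClosure k)) ρ
      (AdjoinRoot.mk (f.map (Int.castRingHom k)) (normPoly k c)) =
      (normPoly k c).eval₂ (algebraMap k (AlgebraicClosure k)) ρ := ev_cl _ hρ _
  have h3 : ∀ τ : K →ₐ[k] AlgebraicClosure k, ev f (τ : K →+* AlgebraicClosure k) ρ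
      (AdjoinRoot.mk (f.map (Int.castRingHom K)) c) = c.eval₂ (τ : K →+* AlgebraicClosure k) ρ :=
    fun τ => ev_cl _ hρ _
  rw [h2, prod_congr rfl fun τ _ => h3 τ]
  -- the norm of polynomials
  letI : Algebra k[X] K[X] := Polynomial.algebra k K
  have hpush : Algebra.IsPushout k k[X] K K[X] := inferInstance
  let β : Module.Basis (Fin (Module.finrank k K)) k[X] K[X] :=
    hpush.out.basis (Module.finBasis k K)
  have hβ : ∀ j, β j = C (Module.finBasis k K j) := by
    intro j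
    rw [IsBaseChange.basis_apply]
    rfl
  have hc : Fintype.card (Fin (Module.finrank k K)) = Fintype.card (K →ₐ[k] AlgebraicClosure k) := by
    rw [Fintype.card_fin, AlgHom.card k K (AlgebraicClosure k)]
  let e : Fin (Module.finrank k K) ≃ (K →ₐ[k] AlgebraicClosure k) := Fintype.equivOfCardEq hc
  have hsep : Algebra.IsSeparable k K := Algebra.IsAlgebraic.isSeparable_of_perfectField
  have h5 := Pool.Agent.Q257.ZC.key β (eval₂RingHom (algebraMap k (AlgebraicClosure k)) ρ) e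
    (fun τ => eval₂RingHom (τ : K →+* AlgebraicClosure k) ρ) (fun τ p => by
      change ((p.map (algebraMap k K)).eval₂ (τ : K →+* AlgebraicClosure k) ρ) =
        p.eval₂ (algebraMap k (AlgebraicClosure k)) ρ
      rw [eval₂_map]
      congr 1
      ext x
      simp) (by
      have h6 : (Matrix.of fun x y =>
          eval₂RingHom ((e x : K →ₐ[k] AlgebraicClosure k) : K →+* AlgebraicClosure k) ρ (β y)) =
          (Algebra.embeddingsMatrixReindex k (AlgebraicClosure k) (Module.finBasis k K) e).transpose := by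
        ext x y
        rw [Matrix.of_apply, Matrix.transpose_apply, hβ, coe_eval₂RingHom, eval₂_C]
        rfl
      rw [h6, Matrix.det_transpose]
      intro h7
      have h8 := Algebra.discr_eq_det_embeddingsMatrixReindex_pow_two k (AlgebraicClosure k)
        (Module.finBasis k K) e
      rw [h7, zero_pow two_ne_zero, map_eq_zero] at h8
      exact Algebra.discr_not_zero_of_basis k (Module.finBasis k K) h8) c
  exact h5

/-- the closed point on the Fermat curve of degree `q` -/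
noncomputable def ClosedPoint.toL {p : Nat.Primes} (ha : a ≠ 0) (hq : 0 < q) (hn : 0 < n) (hqn : q ∣ n)
    (hqm : q ∣ m) (P : ClosedPoint a b n m D p) : LPt (fq a b q) q D (p : ℕ) where
  K := P.K
  pt := P.point.toP ha hq hn hqn hqm

lemma hom_ofHom {f : ℤ[X]} {F : Type} [Field F] (φ : (Alg f F)ˣ →* Multiplicative (ZMod q))
    (u : (Alg f F)ˣ) : (ofHom φ).hom u = φ u := by
  rw [LocalCharacter.hom_apply (ofHom φ) u (mk_rep u).symm, ofHom_val φ u (mk_rep u).symm,
    ofAdd_toAdd]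

lemma ex_val (ha : a ≠ 0) (hq : q.Prime) (hn : 0 < n) (hqn : q ∣ n)
    (hqm : q ∣ m) (hf : Irreducible ((fq a b q).map (Int.castRingHom ℚ))) (hD : D ≠ 0)
    {F : Type} [Field F] [CharZero F] (P : CPoint a b n m D F) : ∃ c, P.Val q c := by
  obtain ⟨u, hu⟩ := (Pool.Agent.Q51.SE.t_val (fq a b q) hf q q D hq.pos dvd_rfl hD F
    (P.toP ha hq.pos hn hqn hqm)).1
  exact ⟨rep u, (cval_iff ha hq.pos hn hqn hqm P _).mpr ((val_iff _ u (mk_rep u).symm).mpr hu)⟩

/-- the values of the closed points, in the two forms -/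
lemma val_isVal {p : Nat.Primes} (ha : a ≠ 0) (hq : q.Prime) (hn : 0 < n) (hqn : q ∣ n)
    (hqm : q ∣ m) (hf : Irreducible ((fq a b q).map (Int.castRingHom ℚ)))
    (P : ClosedPoint a b n m D p) {c : P.K[X]} (hc : P.point.Val q c) :
    ∃ A : (Alg (fq a b q) ℚ_[(p : ℕ)])ˣ, (P.toL ha hq.pos hn hqn hqm).IsVal q A ∧
      (A : Alg (fq a b q) ℚ_[(p : ℕ)]) =
        AdjoinRoot.mk (polOver (fq a b q) ℚ_[(p : ℕ)]) (normPoly ℚ_[(p : ℕ)] c) := by
  have hu : IsUnit (AdjoinRoot.mk (polOver (fq a b q) P.K) c) := (unit_iff c).mpr hc.1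
  have h1 : IsValue q (P.point.toP ha hq.pos hn hqn hqm) hu.unit :=
    (val_iff _ hu.unit (IsUnit.unit_spec hu)).mp ((cval_iff ha hq.pos hn hqn hqm P.point c).mp hc)
  refine ⟨Units.map (nrm (fq a b q) ℚ_[(p : ℕ)] P.K) hu.unit, ⟨hu.unit, h1, rfl⟩, ?_⟩
  rw [Units.coe_map, IsUnit.unit_spec]
  exact (mk_normPoly hf ℚ_[(p : ℕ)] P.K c).symm

/-- two values differ by a `q`-th power -/
lemma isVal_unique {f : ℤ[X]} (hf : Irreducible (f.map (Int.castRingHom ℚ))) {p : Nat.Primes}
    (hq : 0 < q) (hD : D ≠ 0) (P : LPt f q D (p : ℕ)) {A A' : (Alg f ℚ_[(p : ℕ)])ˣ}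
    (h : P.IsVal q A) (h' : P.IsVal q A') : ∃ g : (Alg f ℚ_[(p : ℕ)])ˣ, A' = A * g ^ q := by
  obtain ⟨g, hg⟩ := (t_zex f hf q q D hq dvd_rfl hD (p : ℕ) [(1, P)]).2 (A ^ (1 : ℤ) * 1)
    (A' ^ (1 : ℤ) * 1) ⟨A, 1, h, rfl, rfl⟩ ⟨A', 1, h', rfl, rfl⟩
  exact ⟨g, by simpa using hg⟩

lemma inv_eq {p : Nat.Primes} (ha : a ≠ 0) (hq : q.Prime) (hn : 0 < n) (hqn : q ∣ n)
    (hqm : q ∣ m) (hf : Irreducible ((fq a b q).map (Int.castRingHom ℚ))) (hD : D ≠ 0)
    (P : ClosedPoint a b n m D p) {A : (Alg (fq a b q) ℚ_[(p : ℕ)])ˣ}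
    (hA : (P.toL ha hq.pos hn hqn hqm).IsVal q A) (χ : ClassCharacter (fq a b q) q) :
    P.inv χ = Multiplicative.toAdd ((χ.loc p).hom A) := by
  have hch : CharZero P.K := charZero_of_injective_algebraMap (algebraMap ℚ_[(p : ℕ)] P.K).injective
  have hex := ex_val ha hq hn hqn hqm hf hD P.point
  unfold ClosedPoint.inv
  rw [dif_pos hex]
  obtain ⟨A0, h1, h2⟩ := val_isVal ha hq hn hqn hqm hf P (Classical.choose_spec hex)
  obtain ⟨g, hg⟩ := isVal_unique hf hq.pos hD _ h1 hA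
  rw [hg, map_mul, map_pow, mpow, mul_one, LocalCharacter.hom_apply (χ.loc p) A0 h2, toAdd_ofAdd]

/-- the zero-cycle on the Fermat curve of degree `q` -/
noncomputable def ZeroCycle.toL {p : Nat.Primes} (ha : a ≠ 0) (hq : 0 < q) (hn : 0 < n) (hqn : q ∣ n)
    (hqm : q ∣ m) (z : ZeroCycle a b n m D p) : List (ℤ × LPt (fq a b q) q D (p : ℕ)) :=
  z.map fun t => (t.1, t.2.toL ha hq hn hqn hqm)

lemma zdeg_toL {p : Nat.Primes} (ha : a ≠ 0) (hq : 0 < q) (hn : 0 < n) (hqn : q ∣ n)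
    (hqm : q ∣ m) (z : ZeroCycle a b n m D p) : zdeg (z.toL ha hq hn hqn hqm) = z.degree := by
  unfold zdeg ZeroCycle.toL ZeroCycle.degree
  rw [List.map_map]
  rfl

lemma zinv_eq {p : Nat.Primes} (ha : a ≠ 0) (hq : q.Prime) (hn : 0 < n) (hqn : q ∣ n)
    (hqm : q ∣ m) (hf : Irreducible ((fq a b q).map (Int.castRingHom ℚ))) (hD : D ≠ 0)
    (χ : ClassCharacter (fq a b q) q) (z : ZeroCycle a b n m D p) :
    ∀ A : (Alg (fq a b q) ℚ_[(p : ℕ)])ˣ, ZVal q (z.toL ha hq.pos hn hqn hqm) A →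
      z.inv χ = Multiplicative.toAdd ((χ.loc p).hom A) := by
  induction z with
  | nil =>
    intro A hA
    rw [show A = 1 from hA, map_one]
    rfl
  | cons t z ih =>
    rintro A ⟨A1, A2, h1, h2, rfl⟩
    have h3 := ih A2 h2
    have h4 := inv_eq ha hq hn hqn hqm hf hD t.2 h1 χ
    unfold ZeroCycle.inv at h3 ⊢
    rw [List.map_cons, List.sum_cons, h3, h4, map_mul, map_zpow, toAdd_mul, toAdd_zpow,
      zsmul_eq_mul]

/-- from the polynomial form to the descent form -/
lemma ofam (ha : a ≠ 0) (hq : q.Prime) (hn : 0 < n) (hqn : q ∣ n)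
    (hqm : q ∣ m) (hf : Irreducible ((fq a b q).map (Int.castRingHom ℚ))) (hD : D ≠ 0) {d : ℤ}
    (h : HasOrthogonalFamily a b n m D q d) : OFam (fq a b q) q q D d := by
  obtain ⟨z, h1, h2⟩ := h
  have hex : ∀ p : Nat.Primes, ∃ A, ZVal q ((z p).toL ha hq.pos hn hqn hqm) A := fun p =>
    (t_zex (fq a b q) hf q q D hq.pos dvd_rfl hD (p : ℕ) _).1
  choose A hA using hex
  refine ⟨fun p => (z p).toL ha hq.pos hn hqn hqm, A, fun p => ?_, hA, fun χ => ?_⟩
  · rw [zdeg_toL]
    exact h1 p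
  · have h3 := h2 (ClassCharacter.new hf χ)
    have h4 : ∀ p : Nat.Primes, (z p).inv (ClassCharacter.new hf χ) =
        Multiplicative.toAdd (χ.loc p (A p)) := by
      intro p
      rw [zinv_eq ha hq hn hqn hqm hf hD _ (z p) (A p) (hA p)]
      congr 1
      exact hom_ofHom _ _
    rw [finsum_congr h4, fin_conv] at h3
    exact Multiplicative.toAdd.injective h3

end

end Pool.Agent.Q51.ZC
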