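import Pool.Agent.Q51.ZC.Zer2

/-! # Project ZC: closed points over number fields, finiteness, and the counting functions -/

set_option autoImplicit false

namespace Pool.Agent.Q51.ZC

open Polynomial Finset
open Pool.Agent.Q51.SE (polOver polNorm ClassCharacter LocalCharacter count Alg cl Point IsValue
  IsUnitAt IdeleCharacter hom unit_iff mk_rep rep val_iff mpow ofHom ofHom_val fin_conv)
open Pool.Agent.Q150.ZC (chg chg_cl mpt val_chg ev_inj ev_chg Fld)

section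

variable {a b : ℤ} {n m : ℕ} {D : ℤ} {q : ℕ}

/-- the image of a point under a homomorphism of fields -/
noncomputable def CPoint.map {K L : Type} [Field K] [Field L] (φ : K →+* L)
    (P : CPoint a b n m D K) : CPoint a b n m D L where
  x := φ P.x
  w := φ P.w
  y := φ P.y
  ne := by
    rcases P.ne with h | h
    · exact Or.inl ((map_ne_zero φ).2 h)
    · exact Or.inr ((map_ne_zero φ).2 h)
  eq := by
    have h := congrArg φ P.eq
    simpa only [map_mul, map_add, map_pow, map_intCast] using h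

lemma map_toP {K L : Type} [Field K] [Field L] (φ : K →+* L) (ha : a ≠ 0) (hq : 0 < q)
    (hn : 0 < n) (hqn : q ∣ n) (hqm : q ∣ m) (P : CPoint a b n m D K) :
    (P.map φ).toP ha hq hn hqn hqm = mpt φ (P.toP ha hq hn hqn hqm) := by
  unfold CPoint.toP CPoint.map mpt
  congr 1 <;> rw [map_pow]

/-- zero-cycles from finite families -/
lemma zfam {p : Nat.Primes} (ha : a ≠ 0) (hq : 0 < q) (hn : 0 < n) (hqn : q ∣ n)
    (hqm : q ∣ m) {β : Type} [DecidableEq β]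
    (Pt : β → ClosedPoint a b n m D p) (A : β → (Alg (fq a b q) ℚ_[(p : ℕ)])ˣ)
    (h : ∀ i, ((Pt i).toL ha hq hn hqn hqm).IsVal q (A i)) (I : Finset β) :
    ∃ z : ZeroCycle a b n m D p, z.degree = ∑ i ∈ I, ((Pt i).degree : ℤ) ∧
      ZVal q (z.toL ha hq hn hqn hqm) (∏ i ∈ I, A i) := by
  induction I using Finset.induction_on with
  | empty => exact ⟨[], rfl, rfl⟩
  | insert c I hc ih =>
    obtain ⟨z, hz1, hz2⟩ := ih
    refine ⟨(1, Pt c) :: z, ?_, A c, ∏ i ∈ I, A i, h c, hz2, ?_⟩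
    · rw [sum_insert hc, ← hz1]
      unfold ZeroCycle.degree
      rw [List.map_cons, List.sum_cons, one_mul]
    · rw [prod_insert hc]
      change A c * _ = A c ^ (1 : ℤ) * _
      rw [zpow_one]

/-- a point over a number field gives zero-cycles over the `ℚ_p`, with a global value -/
lemma kpoint (ha : a ≠ 0) (hq : q.Prime) (hn : 0 < n) (hqn : q ∣ n)
    (hqm : q ∣ m) (hf : Irreducible ((fq a b q).map (Int.castRingHom ℚ))) (hD : D ≠ 0)
    (K : Type) [Field K] [NumberField K] (P : CPoint a b n m D K) :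
    HasOrthogonalFamily a b n m D q (Module.finrank ℚ K) := by
  classical
  set f : ℤ[X] := fq a b q with hfdef
  obtain ⟨u, hu⟩ := (Pool.Agent.Q51.SE.t_val f hf q q D hq.pos dvd_rfl hD K
    (P.toP ha hq.pos hn hqn hqm)).1
  have hloc : ∀ p : Nat.Primes, ∃ z : ZeroCycle a b n m D p,
      z.degree = Module.finrank ℚ K ∧ ZVal q (z.toL ha hq.pos hn hqn hqm)
        (Units.map (bas f ℚ ℚ_[(p : ℕ)]).toMonoidHom (Units.map (nrm f ℚ K) u)) := by
    intro p
    obtain ⟨β, hβ, Y, hdeg, hprod⟩ := Pool.Agent.Q150.ZC.decomp ℚ_[(p : ℕ)] (Om (p : ℕ)) K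
    have hch : ∀ i, CharZero (Y i).L := fun i => charZero_of_injective_ringHom (Y i).φ.injective
    obtain ⟨z, hz1, hz2⟩ := zfam (p := p) ha hq.pos hn hqn hqm
      (fun i => ({ K := (Y i).L, point := P.map (Y i).φ } : ClosedPoint a b n m D p))
      (fun i => Units.map (nrm f ℚ_[(p : ℕ)] (Y i).L) (Units.map (chg f (Y i).φ).toMonoidHom u))
      (fun i => by
        refine ⟨Units.map (chg f (Y i).φ).toMonoidHom u, ?_, rfl⟩
        have h1 := val_chg t_nrm hf (Y i).φ hu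
        rw [← map_toP] at h1
        exact h1) univ
    refine ⟨z, ?_, ?_⟩
    · rw [hz1, ← hdeg]
      push_cast
      rfl
    · have hkey : ∏ i, Units.map (nrm f ℚ_[(p : ℕ)] (Y i).L)
          (Units.map (chg f (Y i).φ).toMonoidHom u) =
          Units.map (bas f ℚ ℚ_[(p : ℕ)]).toMonoidHom (Units.map (nrm f ℚ K) u) := by
        apply Units.ext
        apply ev_inj hf (algebraMap ℚ_[(p : ℕ)] (Om (p : ℕ)))
        intro ρ hρ
        obtain ⟨ψ, hψ, -⟩ := ev_hom (F := ℚ_[(p : ℕ)]) (algebraMap ℚ_[(p : ℕ)] (Om (p : ℕ))) hρ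
        rw [hψ, Units.coe_prod, map_prod]
        have e1 : ∀ i, ψ ((Units.map (nrm f ℚ_[(p : ℕ)] (Y i).L)
            (Units.map (chg f (Y i).φ).toMonoidHom u) :
            (Alg f ℚ_[(p : ℕ)])ˣ) : Alg f ℚ_[(p : ℕ)]) =
            ∏ τ : (Y i).L →ₐ[ℚ_[(p : ℕ)]] Om (p : ℕ),
              ev f ((τ : (Y i).L →+* Om (p : ℕ)).comp (Y i).φ) ρ (u : Alg f K) := by
          intro i
          rw [← hψ]
          have e2 := (t_nrm f hf).1 ℚ_[(p : ℕ)] (Y i).L (Om (p : ℕ)) ρ hρ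
            (chg f (Y i).φ (u : Alg f K))
          refine e2.trans ?_
          refine prod_congr rfl fun τ _ => ?_
          exact ev_chg _ _ hρ _
        rw [prod_congr rfl fun i _ => e1 i]
        rw [hprod (Om (p : ℕ)) (fun σ => ev f σ ρ (u : Alg f K))]
        have e3 : ev f (algebraMap ℚ_[(p : ℕ)] (Om (p : ℕ))) ρ
            ((Units.map (bas f ℚ ℚ_[(p : ℕ)]).toMonoidHom (Units.map (nrm f ℚ K) u) :
              (Alg f ℚ_[(p : ℕ)])ˣ) : Alg f ℚ_[(p : ℕ)]) =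
              ev f ((algebraMap ℚ_[(p : ℕ)] (Om (p : ℕ))).comp (algebraMap ℚ ℚ_[(p : ℕ)])) ρ
                (nrm f ℚ K (u : Alg f K)) := ev_chg _ _ hρ _
        rw [e3]
        have e4 : (algebraMap ℚ_[(p : ℕ)] (Om (p : ℕ))).comp (algebraMap ℚ ℚ_[(p : ℕ)]) =
            algebraMap ℚ (Om (p : ℕ)) := Subsingleton.elim _ _
        rw [e4, (t_nrm f hf).1 ℚ K (Om (p : ℕ)) ρ hρ]
        exact (Fintype.prod_equiv (RingHom.equivRatAlgHom K (Om (p : ℕ))).symm _ _
          (fun σ => rfl)).symm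
      rw [← hkey]
      exact hz2
  choose z hz1 hz2 using hloc
  refine ⟨z, fun p => by rw [hz1 p, sub_self]; exact dvd_zero _, fun χ => ?_⟩
  obtain ⟨g, hg⟩ := AdjoinRoot.mk_surjective
    ((Units.map (nrm f ℚ K) u : (Alg f ℚ)ˣ) : Alg f ℚ)
  have h1 : ∀ p : Nat.Primes, (z p).inv χ = Multiplicative.toAdd ((χ.old hf).loc p
      (Units.map (bas f ℚ ℚ_[(p : ℕ)]).toMonoidHom (Units.map (nrm f ℚ K) u))) := fun p =>
    zinv_eq ha hq hn hqn hqm hf hD χ (z p) _ (hz2 p)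
  rw [finsum_congr h1, fin_conv]
  have h2 := (χ.old hf).glob g
    (fun p => Units.map (bas f ℚ ℚ_[(p : ℕ)]).toMonoidHom (Units.map (nrm f ℚ K) u)) (by
      intro p
      have h3 : ((Units.map (bas f ℚ ℚ_[(p : ℕ)]).toMonoidHom (Units.map (nrm f ℚ K) u) :
          (Alg f ℚ_[(p : ℕ)])ˣ) : Alg f ℚ_[(p : ℕ)]) =
          chg f (algebraMap ℚ ℚ_[(p : ℕ)]) (AdjoinRoot.mk (f.map (Int.castRingHom ℚ)) g) := by
        rw [hg]
        rfl
      rw [h3]
      have h4 : AdjoinRoot.mk (f.map (Int.castRingHom ℚ)) g = cl f ℚ g := rfl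
      rw [h4, chg_cl]
      congr 2)
  rw [h2, toAdd_one]

/-- finiteness of the support -/
lemma fin_supp (ha : a ≠ 0) (hq : q.Prime) (hn : 0 < n) (hqn : q ∣ n)
    (hqm : q ∣ m) (hf : Irreducible ((fq a b q).map (Int.castRingHom ℚ))) (hD : D ≠ 0)
    (z : ∀ p : Nat.Primes, ZeroCycle a b n m D p) (χ : ClassCharacter (fq a b q) q) :
    {p : Nat.Primes | (z p).inv χ ≠ 0}.Finite := by
  obtain ⟨B, hB, hgood⟩ := t_goodat (fq a b q) hf
  obtain ⟨B2, hB2, h2⟩ := (χ.old hf).unr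
  have hfin : {p : Nat.Primes | (p : ℕ) ∣ B * D.natAbs * B2}.Finite := by
    apply Set.Finite.of_finite_image (f := fun p : Nat.Primes => (p : ℕ)) _
      (fun p _ p' _ h => Subtype.ext h)
    apply (Set.finite_Iic (B * D.natAbs * B2)).subset
    rintro _ ⟨p, hp, rfl⟩
    exact Nat.le_of_dvd (Nat.pos_of_ne_zero
      (mul_ne_zero (mul_ne_zero hB (Int.natAbs_ne_zero.mpr hD)) hB2)) hp
  refine hfin.subset ?_
  intro p hp
  by_contra hB'
  apply hp
  have hpB : ¬ (p : ℕ) ∣ B := fun h => hB' ((h.mul_right _).mul_right _)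
  have hpD : ¬ ((p : ℕ) : ℤ) ∣ D := fun h => hB' (((Int.natCast_dvd.mp h).mul_left _).mul_right _)
  obtain ⟨A, hA⟩ := (t_zex (fq a b q) hf q q D hq.pos dvd_rfl hD (p : ℕ)
    ((z p).toL ha hq.pos hn hqn hqm)).1
  rw [zinv_eq ha hq hn hqn hqm hf hD χ (z p) A hA]
  have hg := hgood (p : ℕ) hpB
  have hdeg : q ∣ (fq a b q).natDegree := by rw [fq_deg ha b hq.pos]
  obtain ⟨c, g, u, hu, hacu⟩ := locU_unit hg (zloc0 hf hq.pos hdeg hg hpD _ A hA)
  have h4 : (χ.loc p).hom A = 1 := by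
    change (χ.old hf).loc p A = 1
    rw [hacu, map_mul, map_mul, map_pow, mpow, mul_one]
    have h3 : (χ.old hf).loc p (cst (fq a b q) c) = 1 := (χ.old hf).rat p c
    rw [h3, one_mul]
    exact h2 p (fun h => hB' (h.mul_left _)) u hu
  rw [h4, toAdd_one]

lemma closed_wd (ha : a ≠ 0) (hq : q.Prime) (hn : 0 < n) (hqn : q ∣ n)
    (hqm : q ∣ m) (hf : Irreducible ((fq a b q).map (Int.castRingHom ℚ))) (hD : D ≠ 0)
    (p : Nat.Primes) : ClosedInvariantsWellDefined a b n m D q p := by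
  intro P
  have hch : CharZero P.K := charZero_of_injective_algebraMap (algebraMap ℚ_[(p : ℕ)] P.K).injective
  refine ⟨ex_val ha hq hn hqn hqm hf hD P.point, fun c hc χ => ?_⟩
  obtain ⟨A, h1, h2⟩ := val_isVal ha hq hn hqn hqm hf P hc
  rw [inv_eq ha hq hn hqn hqm hf hD P h1 χ, LocalCharacter.hom_apply (χ.loc p) A h2, toAdd_ofAdd]

/-- the soluble curves -/
lemma soluble_iff (ha : a ≠ 0) (hn : 0 < n) :
    Pool.Agent.Q51.EB.ELSM (fq a b n) m D ↔ Soluble a b n m D := by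
  constructor
  · rintro ⟨⟨x, w, y, h1, h2⟩, hp⟩
    refine ⟨⟨⟨x, w, y, h1, ?_⟩⟩, fun p => ?_⟩
    · have h3 := hom_fq ha b hn x w
      exact h2.trans h3
    · obtain ⟨x, w, y, h1, h2⟩ := hp (p : ℕ)
      exact ⟨⟨x, w, y, h1, h2.trans (hom_fq ha b hn x w)⟩⟩
  · rintro ⟨⟨P⟩, hp⟩
    refine ⟨⟨P.x, P.w, P.y, P.ne, P.eq.trans (hom_fq ha b hn _ _).symm⟩, fun p hpp => ?_⟩
    obtain ⟨Q⟩ := hp ⟨p, hpp.out⟩
    exact ⟨Q.x, Q.w, Q.y, Q.ne, Q.eq.trans (hom_fq ha b hn _ _).symm⟩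

end

end Pool.Agent.Q51.ZC
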