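import Pool.Agent.Q51.ZC.Zer3

/-! # Project ZC: the main theorem -/

set_option autoImplicit false

namespace Pool.Agent.Q51.ZC

open Polynomial Finset
open Pool.Agent.Q51.SE (polOver polNorm ClassCharacter LocalCharacter count factPrime)
open Pool.Agent.Q51.EL (pr Gf)

/-- The number of the squarefree `D` with `|D| ≤ X` for which `C_D` is everywhere locally soluble. -/
noncomputable def numLocSoluble (a b : ℤ) (n m : ℕ) (X : ℝ) : ℝ :=
  count (fun D => Soluble a b n m D) X

/-- The number of these `D` for which some orthogonal family of local zero-cycles has a degree which is not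
divisible by all prime factors of `m`. -/
noncomputable def numUnobstructedOverQ (a b : ℤ) (n m : ℕ) (X : ℝ) : ℝ :=
  count (fun D => Soluble a b n m D ∧ UnobstructedOverQ a b n m D) X

/-- The number of these `D` for which some closed point of `C_D` has a degree which is not divisible by all
prime factors of `m`. -/
noncomputable def numIndexNotDivisible (a b : ℤ) (n m : ℕ) (X : ℝ) : ℝ :=
  count (fun D => Soluble a b n m D ∧ IndexNotDivisible a b n m D) X

open Classical in
lemma sp_eq (f : ℤ[X]) (Y : ℝ) : SP (Pf f) Y = Gf f Y := by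
  rw [Pool.Agent.Q91.EL.Gf_eq]
  unfold SP
  refine Finset.sum_congr (Finset.ext fun l => ?_) (fun _ _ => rfl)
  rw [mem_filter, mem_filter]
  constructor
  · rintro ⟨h1, h2, h3⟩
    exact ⟨h1, h3⟩
  · rintro ⟨h1, h2⟩
    refine ⟨h1, ?_, h2⟩
    unfold pr at h1
    exact (mem_filter.mp h1).2

lemma fin_set (X : ℝ) (P : ℤ → Prop) :
    {D : ℤ | Squarefree D ∧ |(D : ℝ)| ≤ X ∧ P D}.Finite := by
  refine (Set.finite_Icc (-(⌊X⌋₊ : ℤ)) (⌊X⌋₊ : ℤ)).subset ?_
  rintro D ⟨-, hDX, -⟩
  have h1 : (D.natAbs : ℝ) ≤ X := by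
    rw [Nat.cast_natAbs, Int.cast_abs]; exact hDX
  have h2 : D.natAbs ≤ ⌊X⌋₊ := Nat.le_floor h1
  rw [Set.mem_Icc]
  omega

lemma count_mono {P Q : ℤ → Prop} (h : ∀ D : ℤ, Squarefree D → P D → Q D) (X : ℝ) :
    count P X ≤ count Q X := by
  unfold count
  refine Set.ncard_le_ncard ?_ (fin_set X Q)
  rintro D ⟨h1, h2, h3⟩
  exact ⟨h1, h2, h D h1 h3⟩

section

variable {a b : ℤ} {n m : ℕ}

/-- the bound for a finite set of primes `q` -/
lemma bound_set (hn : Odd n) (hm : 1 < m) (hmn : m ∣ n)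
    (hirr : Irreducible ((fq a b n).map (Int.castRingHom ℚ))) (s : Finset ℕ)
    (hs : s ⊆ m.primeFactors) : ∃ c C : ℝ, 0 < c ∧ 0 ≤ C ∧ ∀ X : ℝ, 3 ≤ X →
      (count (fun D => Soluble a b n m D ∧ ∃ q ∈ s, ∃ d : ℤ, ¬ (q : ℤ) ∣ d ∧
        HasOrthogonalFamily a b n m D q d) X : ℝ) ≤
      C * X / Real.log X * Real.exp (Gf (fq a b n) X) * Real.log X ^ (-c) := by
  classical
  have hn0 := hn.pos
  obtain ⟨ha, hb⟩ := fq_ne (by
    have := Nat.le_of_dvd hn0 hmn
    omega) hirr
  have hlog : ∀ X : ℝ, 3 ≤ X → 1 ≤ Real.log X := by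
    intro X hX
    have h1 : Real.exp 1 ≤ 3 := by linarith [Real.exp_one_lt_d9]
    calc (1 : ℝ) = Real.log (Real.exp 1) := (Real.log_exp 1).symm
      _ ≤ Real.log X := Real.log_le_log (Real.exp_pos 1) (h1.trans hX)
  induction s using Finset.induction_on with
  | empty =>
    refine ⟨1, 0, one_pos, le_rfl, fun X hX => ?_⟩
    have h0 : count (fun D => Soluble a b n m D ∧ ∃ q ∈ (∅ : Finset ℕ), ∃ d : ℤ, ¬ (q : ℤ) ∣ d ∧
        HasOrthogonalFamily a b n m D q d) X = 0 := by
      unfold count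
      have : {D : ℤ | Squarefree D ∧ |(D : ℝ)| ≤ X ∧ Soluble a b n m D ∧
          ∃ q ∈ (∅ : Finset ℕ), ∃ d : ℤ, ¬ (q : ℤ) ∣ d ∧
          HasOrthogonalFamily a b n m D q d} = ∅ := by
        ext D
        simp
      rw [this, Set.ncard_empty]
    rw [h0]
    simp
  | insert q s hq ih =>
    obtain ⟨c1, C1, hc1, hC1, h1⟩ := ih (fun x hx => hs (mem_insert_of_mem hx))
    have hqm : q ∈ m.primeFactors := hs (mem_insert_self _ _)
    have hqp : q.Prime := Nat.prime_of_mem_primeFactors hqm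
    have hqd : q ∣ m := Nat.dvd_of_mem_primeFactors hqm
    have hqn : q ∣ n := hqd.trans hmn
    have hf := fq_irr hn0 hqn hirr
    obtain ⟨c2, C2, hc2, h2⟩ := tq_bound hn (by omega : 2 ≤ m) hmn hqp hqd hirr
    refine ⟨min c1 c2, C1 + max C2 0, lt_min hc1 hc2, add_nonneg hC1 (le_max_right _ _),
      fun X hX => ?_⟩
    have hl := hlog X hX
    have hX0 : 0 < X := by linarith
    have hsub : {D : ℤ | Squarefree D ∧ |(D : ℝ)| ≤ X ∧ Soluble a b n m D ∧
        ∃ q' ∈ insert q s, ∃ d : ℤ, ¬ (q' : ℤ) ∣ d ∧ HasOrthogonalFamily a b n m D q' d} ⊆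
        {D : ℤ | Squarefree D ∧ |(D : ℝ)| ≤ X ∧ Soluble a b n m D ∧
        ∃ q' ∈ s, ∃ d : ℤ, ¬ (q' : ℤ) ∣ d ∧ HasOrthogonalFamily a b n m D q' d} ∪
        {D ∈ Tq a b n m q | (D.natAbs : ℝ) ≤ X} := by
      rintro D ⟨e1, e2, e3, q', hq', d, hd, hfam⟩
      rcases mem_insert.mp hq' with h | h
      · subst h
        refine Or.inr ⟨⟨e1, ?_, d, hd, ofam ha hqp hn0 hqn hqd hf e1.ne_zero hfam⟩, ?_⟩
        · intro p hp
          have h3 := ((soluble_iff ha hn0).mpr e3).2 p
          obtain ⟨x, w, y, h4, h5⟩ := h3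
          exact ⟨⟨x, w, y, h4, h5⟩⟩
        · rw [Nat.cast_natAbs, Int.cast_abs]; exact e2
      · exact Or.inl ⟨e1, e2, e3, q', h, d, hd, hfam⟩
    have hfin2 : {D ∈ Tq a b n m q | (D.natAbs : ℝ) ≤ X}.Finite := by
      refine (fin_set X (fun _ => True)).subset ?_
      rintro D ⟨hD, hDX⟩
      refine ⟨hD.1, ?_, trivial⟩
      rw [Nat.cast_natAbs, Int.cast_abs] at hDX
      exact hDX
    have h3 : (count (fun D => Soluble a b n m D ∧ ∃ q' ∈ insert q s, ∃ d : ℤ, ¬ (q' : ℤ) ∣ d ∧
        HasOrthogonalFamily a b n m D q' d) X : ℝ) ≤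
        (count (fun D => Soluble a b n m D ∧ ∃ q' ∈ s, ∃ d : ℤ, ¬ (q' : ℤ) ∣ d ∧
        HasOrthogonalFamily a b n m D q' d) X : ℝ) +
        (({D ∈ Tq a b n m q | (D.natAbs : ℝ) ≤ X}.ncard : ℕ) : ℝ) := by
      unfold count
      have h4 := Set.ncard_le_ncard hsub ((fin_set X _).union hfin2)
      have h5 := h4.trans (Set.ncard_union_le _ _)
      exact_mod_cast h5
    have h4 := h1 X hX
    have h5 := h2 X hX
    rw [sp_eq] at h5
    have h6 : Real.log X ^ (-c1) ≤ Real.log X ^ (-(min c1 c2)) :=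
      Real.rpow_le_rpow_of_exponent_le hl (neg_le_neg (min_le_left _ _))
    have h7 : Real.log X ^ (-c2) ≤ Real.log X ^ (-(min c1 c2)) :=
      Real.rpow_le_rpow_of_exponent_le hl (neg_le_neg (min_le_right _ _))
    have hl0 : 0 < Real.log X := by linarith
    have h8 : C1 * X / Real.log X * Real.exp (Gf (fq a b n) X) * Real.log X ^ (-c1) ≤
        C1 * X / Real.log X * Real.exp (Gf (fq a b n) X) * Real.log X ^ (-(min c1 c2)) :=
      mul_le_mul_of_nonneg_left h6 (by positivity)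
    have h9 : C2 * X / Real.log X * Real.exp (Gf (fq a b n) X) * Real.log X ^ (-c2) ≤
        max C2 0 * X / Real.log X * Real.exp (Gf (fq a b n) X) * Real.log X ^ (-(min c1 c2)) := by
      have h10 : C2 * (X / Real.log X * Real.exp (Gf (fq a b n) X) * Real.log X ^ (-c2)) ≤
          max C2 0 * (X / Real.log X * Real.exp (Gf (fq a b n) X) * Real.log X ^ (-c2)) :=
        mul_le_mul_of_nonneg_right (le_max_left _ _) (by positivity)
      have h11 : max C2 0 * (X / Real.log X * Real.exp (Gf (fq a b n) X) * Real.log X ^ (-c2)) ≤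
          max C2 0 * (X / Real.log X * Real.exp (Gf (fq a b n) X) *
            Real.log X ^ (-(min c1 c2))) :=
        mul_le_mul_of_nonneg_left (mul_le_mul_of_nonneg_left h7 (by positivity))
          (le_max_right _ _)
      have e1 : C2 * X / Real.log X * Real.exp (Gf (fq a b n) X) * Real.log X ^ (-c2) =
          C2 * (X / Real.log X * Real.exp (Gf (fq a b n) X) * Real.log X ^ (-c2)) := by ring
      have e2 : max C2 0 * X / Real.log X * Real.exp (Gf (fq a b n) X) *
          Real.log X ^ (-(min c1 c2)) = max C2 0 * (X / Real.log X * Real.exp (Gf (fq a b n) X) *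
            Real.log X ^ (-(min c1 c2))) := by ring
      rw [e1, e2]
      exact h10.trans h11
    calc _ ≤ _ := h3
      _ ≤ C1 * X / Real.log X * Real.exp (Gf (fq a b n) X) * Real.log X ^ (-(min c1 c2)) +
          max C2 0 * X / Real.log X * Real.exp (Gf (fq a b n) X) * Real.log X ^ (-(min c1 c2)) :=
          add_le_add (h4.trans h8) (h5.trans h9)
      _ = _ := by ring

lemma lower (hn : Odd n) (hm : 1 < m) (hmn : m ∣ n)
    (hirr : Irreducible ((fq a b n).map (Int.castRingHom ℚ)))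
    (hex : ∃ D : ℤ, Squarefree D ∧ Soluble a b n m D) : ∃ c X₀ : ℝ, 0 < c ∧ ∀ X : ℝ, X₀ ≤ X →
      c * X / Real.log X * Real.exp (Gf (fq a b n) X) ≤ numLocSoluble a b n m X := by
  have hn0 := hn.pos
  obtain ⟨ha, hb⟩ := fq_ne (by
    have := Nat.le_of_dvd hn0 hmn
    omega) hirr
  obtain ⟨D0, hD0, hs⟩ := hex
  obtain ⟨c, X0, hc, h⟩ := Pool.Agent.Q51.EB.t_lowm (fq a b n) hirr m (by omega) D0 hD0
    ((soluble_iff ha hn0).mpr hs)
  refine ⟨c, X0, hc, fun X hX => ?_⟩
  refine (h X hX).trans (le_of_eq ?_)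
  unfold numLocSoluble count
  congr 2
  ext D
  simp only [Set.mem_ofPred_eq, soluble_iff ha hn0, Nat.cast_natAbs, Int.cast_abs]
  tauto

lemma sumRoots_eq (X : ℝ) : sumRoots a b n X = Gf (fq a b n) X := by
  classical
  rw [Pool.Agent.Q91.EL.Gf_eq]
  unfold sumRoots
  have hs : {l : ℕ | l.Prime ∧ (l : ℝ) ≤ X ∧ ∃ r : ℤ, (l : ℤ) ∣ a * r ^ n + b} =
      ((pr X).filter (fun l : ℕ => ∃ r : ℤ, (l : ℤ) ∣ (fq a b n).eval r) : Finset ℕ) := by
    ext l
    simp only [Set.mem_ofPred_eq, Finset.coe_filter, pr, Finset.mem_filter, Finset.mem_Icc, fq_eval]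
    constructor
    · rintro ⟨h1, h2, h3⟩
      exact ⟨⟨⟨h1.one_le, Nat.le_floor h2⟩, h1⟩, h3⟩
    · rintro ⟨⟨⟨h1, h2⟩, h3⟩, h4⟩
      exact ⟨h3, (Nat.le_floor_iff' h3.ne_zero).1 h2, h4⟩
  rw [hs]
  exact Finset.tsum_subtype _ (fun l : ℕ => (1 : ℝ) / l)

theorem main (hn : Odd n) (hm : 1 < m) (hmn : m ∣ n)
    (hirr : Irreducible (C (a : ℚ) * X ^ n + C (b : ℚ))) :
    (∀ D : ℤ, D ≠ 0 → ∀ q : ℕ, q.Prime → q ∣ m →
      (∀ p : Nat.Primes, ClosedInvariantsWellDefined a b n m D q p) ∧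
      (∀ (z : ∀ p : Nat.Primes, ZeroCycle a b n m D p) (χ : ClassCharacter (fq a b q) q),
        {p : Nat.Primes | (z p).inv χ ≠ 0}.Finite) ∧
      ∀ (K : Type) [Field K] [NumberField K], CPoint a b n m D K →
        HasOrthogonalFamily a b n m D q (Module.finrank ℚ K)) ∧
    (∃ δ C : ℝ, 0 < δ ∧ ∀ X : ℝ, 3 ≤ X →
      numUnobstructedOverQ a b n m X ≤ C * Real.log X ^ (-δ) * numLocSoluble a b n m X ∧
      numIndexNotDivisible a b n m X ≤ C * Real.log X ^ (-δ) * numLocSoluble a b n m X) ∧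
    ((∃ D : ℤ, Squarefree D ∧ Soluble a b n m D) → ∃ c X₀ : ℝ, 0 < c ∧ ∀ X : ℝ, X₀ ≤ X →
      c * X / Real.log X * Real.exp (sumRoots a b n X) ≤ numLocSoluble a b n m X) := by
  classical
  rw [← fq_map] at hirr
  have hn0 := hn.pos
  obtain ⟨ha, hb⟩ := fq_ne (by
    have := Nat.le_of_dvd hn0 hmn
    omega) hirr
  have hm0 : m ≠ 0 := by omega
  have hfam : ∀ D : ℤ, D ≠ 0 → ∀ q : ℕ, q.Prime → q ∣ m →
      ∀ (K : Type) [Field K] [NumberField K], CPoint a b n m D K →
        HasOrthogonalFamily a b n m D q (Module.finrank ℚ K) := by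
    intro D hD q hq hqm K _ _ P
    have hqn := hqm.trans hmn
    exact kpoint ha hq hn0 hqn hqm (fq_irr hn0 hqn hirr) hD K P
  refine ⟨fun D hD q hq hqm => ?_, ?_, ?_⟩
  · have hqn := hqm.trans hmn
    have hf := fq_irr hn0 hqn hirr
    exact ⟨fun p => closed_wd ha hq hn0 hqn hqm hf hD p,
      fun z χ => fin_supp ha hq hn0 hqn hqm hf hD z χ, hfam D hD q hq hqm⟩
  · obtain ⟨c, C, hc, hC, hb⟩ := bound_set hn hm hmn hirr m.primeFactors le_rfl
    have hbX : ∀ X : ℝ, 3 ≤ X → numUnobstructedOverQ a b n m X ≤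
        C * X / Real.log X * Real.exp (Gf (fq a b n) X) * Real.log X ^ (-c) := by
      intro X hX
      refine le_trans ?_ (hb X hX)
      unfold numUnobstructedOverQ
      exact_mod_cast count_mono (fun D _ h => by
        obtain ⟨h1, q, hq, hqm, d, hd, h2⟩ := h
        exact ⟨h1, q, Nat.mem_primeFactors.mpr ⟨hq, hqm, hm0⟩, d, hd, h2⟩) X
    have hle : ∀ X : ℝ, numUnobstructedOverQ a b n m X ≤ numLocSoluble a b n m X := by
      intro X
      unfold numUnobstructedOverQ numLocSoluble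
      exact_mod_cast count_mono (P := fun D => Soluble a b n m D ∧ UnobstructedOverQ a b n m D)
        (Q := fun D => Soluble a b n m D) (fun D _ h => h.1) X
    have hidx : ∀ X : ℝ, numIndexNotDivisible a b n m X ≤ numUnobstructedOverQ a b n m X := by
      intro X
      unfold numIndexNotDivisible numUnobstructedOverQ
      exact_mod_cast count_mono (fun D hD h => by
        obtain ⟨h1, K, hK, hKn, ⟨P⟩, q, hq, hqm, hd⟩ := h
        refine ⟨h1, q, hq, hqm, Module.finrank ℚ K, ?_, hfam D hD.ne_zero q hq hqm K P⟩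
        intro h2
        exact hd (by exact_mod_cast h2)) X
    suffices h : ∃ δ C : ℝ, 0 < δ ∧ ∀ X : ℝ, 3 ≤ X →
        numUnobstructedOverQ a b n m X ≤ C * Real.log X ^ (-δ) * numLocSoluble a b n m X by
      obtain ⟨δ, C', hδ, h⟩ := h
      exact ⟨δ, C', hδ, fun X hX => ⟨h X hX, (hidx X).trans (h X hX)⟩⟩
    by_cases hex : ∃ D : ℤ, Squarefree D ∧ Soluble a b n m D
    · obtain ⟨c0, X0, hc0, hl⟩ := lower hn hm hmn hirr hex
      set X1 : ℝ := max X0 3 with hX1
      have hlX1 : 1 ≤ Real.log X1 := by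
        have h1 : Real.exp 1 ≤ 3 := by linarith [Real.exp_one_lt_d9]
        calc (1 : ℝ) = Real.log (Real.exp 1) := (Real.log_exp 1).symm
          _ ≤ Real.log X1 := Real.log_le_log (Real.exp_pos 1) (h1.trans (le_max_right _ _))
      refine ⟨c, C / c0 + Real.log X1 ^ c, hc, fun X hX => ?_⟩
      have hE0 : 0 ≤ numLocSoluble a b n m X := Nat.cast_nonneg _
      have hlog : 1 ≤ Real.log X := by
        have h1 : Real.exp 1 ≤ 3 := by linarith [Real.exp_one_lt_d9]
        calc (1 : ℝ) = Real.log (Real.exp 1) := (Real.log_exp 1).symm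
          _ ≤ Real.log X := Real.log_le_log (Real.exp_pos 1) (h1.trans hX)
      have hlog0 : 0 < Real.log X := by linarith
      have hp : 0 < Real.log X ^ (-c) := Real.rpow_pos_of_pos hlog0 _
      rcases le_total X1 X with h1 | h1
      · have h2 := hl X ((le_max_left _ _).trans h1)
        have h3 := hbX X hX
        have h4 : C * X / Real.log X * Real.exp (Gf (fq a b n) X) * Real.log X ^ (-c) =
            (C / c0) * Real.log X ^ (-c) * (c0 * X / Real.log X * Real.exp (Gf (fq a b n) X)) := by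
          field_simp
        rw [h4] at h3
        refine h3.trans ?_
        have h5 : (C / c0) * Real.log X ^ (-c) * (c0 * X / Real.log X *
            Real.exp (Gf (fq a b n) X)) ≤
            (C / c0) * Real.log X ^ (-c) * numLocSoluble a b n m X :=
          mul_le_mul_of_nonneg_left h2 (by positivity)
        refine h5.trans ?_
        refine mul_le_mul_of_nonneg_right (mul_le_mul_of_nonneg_right ?_ hp.le) hE0
        have : 0 ≤ Real.log X1 ^ c := Real.rpow_nonneg (by linarith) _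
        linarith
      · have h2 : 1 ≤ Real.log X1 ^ c * Real.log X ^ (-c) := by
          rw [Real.rpow_neg hlog0.le, ← div_eq_mul_inv, one_le_div (Real.rpow_pos_of_pos hlog0 _)]
          exact Real.rpow_le_rpow hlog0.le (Real.log_le_log (by linarith) h1) hc.le
        have h3 : 0 ≤ C / c0 * Real.log X ^ (-c) := by positivity
        calc numUnobstructedOverQ a b n m X ≤ 1 * numLocSoluble a b n m X := by
              rw [one_mul]; exact hle X
          _ ≤ (C / c0 + Real.log X1 ^ c) * Real.log X ^ (-c) * numLocSoluble a b n m X := by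
              refine mul_le_mul_of_nonneg_right ?_ hE0
              rw [add_mul]
              linarith
    · refine ⟨1, 0, one_pos, fun X _ => ?_⟩
      have h0 : numUnobstructedOverQ a b n m X = 0 := by
        unfold numUnobstructedOverQ count
        have : {D : ℤ | Squarefree D ∧ |(D : ℝ)| ≤ X ∧ Soluble a b n m D ∧
            UnobstructedOverQ a b n m D} = ∅ := by
          ext D
          simp only [Set.mem_ofPred_eq, Set.mem_empty_iff_false, iff_false]
          rintro ⟨h1, -, h2, -⟩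
          exact hex ⟨D, h1, h2⟩
        rw [this, Set.ncard_empty, Nat.cast_zero]
      rw [h0]
      simp
  · intro hex
    obtain ⟨c, X0, hc, h⟩ := lower hn hm hmn hirr hex
    refine ⟨c, X0, hc, fun X hX => ?_⟩
    rw [sumRoots_eq]
    exact h X hX

end

end Pool.Agent.Q51.ZC
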